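import Mathlib

/-!
Admissible sets of quadratic residues.
-/

namespace Pool.Agent.Lib.MP_79fcf0_nt

/-- `r` is a quadratic residue modulo `q`: it is prime to `q` and a square modulo `q`. -/
def IsQR {q : ℕ} (r : ZMod q) : Prop := IsUnit r ∧ IsSquare r

/-- Every element of `S` and every difference of two distinct elements of `S` is a quadratic
residue modulo `q`. -/
def Admissible {q : ℕ} (S : Finset (ZMod q)) : Prop :=
  (∀ r ∈ S, IsQR r) ∧ ∀ r ∈ S, ∀ r' ∈ S, r ≠ r' → IsQR (r - r')

end Pool.Agent.Lib.MP_79fcf0_nt
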