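import Mathlib
import Pool.Agent.Lib.MP_79fcf0_nt.Defs

-- part Pool.Agent.Lib.MP_79fcf0_nt.Stepanov
section

/-!
Stepanov's elementary bound for quadratic character sums of polynomials over a prime field.
-/

open Polynomial Finset

namespace Pool.Agent.Lib.MP_79fcf0_nt

section

variable {F : Type} [Field F]

/-- The operator with `D^k (f^e r) = f^(e-k) * op f e k r`. -/
noncomputable def op (f : F[X]) (e : ℕ) : ℕ → F[X] →ₗ[F] F[X]
  | 0 => LinearMap.id
  | k + 1 => (LinearMap.mulLeft F f ∘ₗ derivative +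
      LinearMap.mulLeft F (C ((e - k : ℕ) : F) * derivative f)) ∘ₗ op f e k

lemma op_succ (f : F[X]) (e k : ℕ) (r : F[X]) : op f e (k + 1) r =
    f * derivative (op f e k r) + C ((e - k : ℕ) : F) * derivative f * op f e k r := rfl

lemma iterate_op (f : F[X]) {e k : ℕ} (hk : k ≤ e) (r w : F[X]) (hw : derivative w = 0) :
    derivative^[k] (f ^ e * r * w) = f ^ (e - k) * op f e k r * w := by
  induction k with
  | zero => simp [op]
  | succ k ih =>
    obtain ⟨n, hn⟩ : ∃ n, e - k = n + 1 := ⟨e - k - 1, by omega⟩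
    rw [Function.iterate_succ_apply', ih (by omega), op_succ, show e - (k + 1) = n by omega, hn,
      derivative_mul, hw, derivative_mul, derivative_pow]
    simp only [Nat.add_sub_cancel]
    ring

lemma natDegree_op (f : F[X]) (e k : ℕ) (r : F[X]) :
    (op f e k r).natDegree ≤ r.natDegree + k * f.natDegree := by
  induction k with
  | zero => simp [op]
  | succ k ih =>
    rw [op_succ]
    refine natDegree_add_le_of_degree_le (natDegree_mul_le.trans ?_) (natDegree_mul_le.trans ?_)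
    · have := natDegree_derivative_le (op f e k r); rw [add_mul]; omega
    · have h1 := natDegree_C_mul_le ((e - k : ℕ) : F) (derivative f)
      have := natDegree_derivative_le f
      rw [add_mul]; omega

end

variable {p : ℕ} [Fact p.Prime]

lemma nonvanish {c D : ℕ} (hc : p = 2 * c + 1) {f : (ZMod p)[X]} (h0 : f.coeff 0 ≠ 0) {a : ZMod p}
    (ha : f.rootMultiplicity a = 1) (hD : 2 * D + f.natDegree < p) (J : ℕ) :
    ∀ r s : ℕ → (ZMod p)[X], (∀ j, (r j).natDegree ≤ D) → (∀ j, (s j).natDegree ≤ D) →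
      ∑ j ∈ range J, (r j + f ^ c * s j) * X ^ (j * p) = 0 → ∀ j < J, r j = 0 ∧ s j = 0 := by
  have hf : f ≠ 0 := fun h => h0 (by simp [h])
  induction J with
  | zero => intro r s _ _ _ j hj; omega
  | succ J ih =>
    intro r s hr hs h
    have e : ∑ j ∈ range J, (r (j + 1) + f ^ c * s (j + 1)) * X ^ ((j + 1) * p) =
        X ^ p * ∑ j ∈ range J, (r (j + 1) + f ^ c * s (j + 1)) * X ^ (j * p) := by
      rw [Finset.mul_sum]
      exact Finset.sum_congr rfl fun j _ => by ring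
    rw [Finset.sum_range_succ', e, zero_mul, pow_zero, mul_one] at h
    have h1 : X ^ p ∣ r 0 + f ^ c * s 0 := 
      ⟨-∑ j ∈ range J, (r (j + 1) + f ^ c * s (j + 1)) * X ^ (j * p), by linear_combination h⟩
    have h2 : X ^ p ∣ f ^ p - C (f.coeff 0) := by
      refine ⟨expand (ZMod p) p f.divX, ?_⟩
      rw [← ZMod.expand_card]
      nth_rewrite 1 [← divX_mul_X_add f]
      simp only [map_add, map_mul, expand_X, expand_C]
      ring
    have h3 : X ^ p ∣ r 0 ^ 2 * f - s 0 ^ 2 * C (f.coeff 0) := by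
      have : r 0 ^ 2 * f - s 0 ^ 2 * C (f.coeff 0) =
          f * (r 0 - f ^ c * s 0) * (r 0 + f ^ c * s 0) + s 0 ^ 2 * (f ^ p - C (f.coeff 0)) := by
        have : f ^ p = f ^ (2 * c + 1) := by rw [← hc]
        rw [this]; ring
      rw [this]
      exact (h1.mul_left _).add (h2.mul_left _)
    have h4 : r 0 ^ 2 * f = s 0 ^ 2 * C (f.coeff 0) := by
      refine sub_eq_zero.1 (eq_zero_of_dvd_of_natDegree_lt h3 ?_)
      rw [natDegree_X_pow]
      refine lt_of_le_of_lt (natDegree_sub_le _ _) (max_lt ?_ ?_)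
      · have := natDegree_mul_le (p := r 0 ^ 2) (q := f)
        have := natDegree_pow_le (p := r 0) (n := 2)
        have := hr 0
        omega
      · have := natDegree_mul_C_le (s 0 ^ 2) (f.coeff 0)
        have := natDegree_pow_le (p := s 0) (n := 2)
        have := hs 0
        omega
    have h5 : r 0 = 0 := by
      by_contra h5
      have h6 : r 0 ^ 2 * f ≠ 0 := mul_ne_zero (pow_ne_zero _ h5) hf
      have h7 := congrArg (rootMultiplicity a) h4
      have h8 : s 0 ≠ 0 := by rintro h8; rw [h4, h8] at h6; simp at h6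
      rw [rootMultiplicity_mul h6, rootMultiplicity_mul (h4 ▸ h6), ha, rootMultiplicity_C, sq, sq,
        rootMultiplicity_mul (mul_ne_zero h5 h5), rootMultiplicity_mul (mul_ne_zero h8 h8)] at h7
      omega
    have h6 : s 0 = 0 := by
      rw [h5] at h4
      simpa [h0] using h4.symm
    rw [h5, h6, mul_zero, add_zero, add_zero] at h
    have h7 := ih (fun j => r (j + 1)) (fun j => s (j + 1)) (fun j => hr _) (fun j => hs _)
      ((mul_eq_zero.1 h).resolve_left (pow_ne_zero _ X_ne_zero))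
    intro j hj
    rcases j with _ | j
    · exact ⟨h5, h6⟩
    · exact h7 j (by omega)

lemma stepanov {c D L J : ℕ} (hc : p = 2 * c + 1) {f : (ZMod p)[X]} (h0 : f.coeff 0 ≠ 0)
    {a : ZMod p} (ha : f.rootMultiplicity a = 1) (hD : 2 * D + f.natDegree < p) (hL : L ≤ p)
    (hJ : L * (D + L * f.natDegree + J) < 2 * (J * (D + 1))) (t : ZMod p) :
    L * (univ.filter fun x => f.eval x ^ c = t).card ≤ (L + c) * f.natDegree + D + (J - 1) * p := by
  classical
  set m := f.natDegree with hm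
  have hf : f ≠ 0 := fun h => h0 (by simp [h])
  let pr : Fin J → (Fin J → Fin (D + 1) → ZMod p) →ₗ[ZMod p] (ZMod p)[X] := fun j =>
    ofFn (D + 1) ∘ₗ LinearMap.proj j
  let σ : ℕ → ((Fin J → Fin (D + 1) → ZMod p) × (Fin J → Fin (D + 1) → ZMod p)) →ₗ[ZMod p]
      (ZMod p)[X] := fun k => ∑ j : Fin J, LinearMap.mulRight (ZMod p) (X ^ (j : ℕ)) ∘ₗ
        (op f L k ∘ₗ pr j ∘ₗ LinearMap.fst _ _ _ +
          t • (op f (L + c) k ∘ₗ pr j ∘ₗ LinearMap.snd _ _ _))
  let Φ : ((Fin J → Fin (D + 1) → ZMod p) × (Fin J → Fin (D + 1) → ZMod p)) →ₗ[ZMod p]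
      (Fin L → Fin (D + L * m + J) → ZMod p) :=
    LinearMap.pi fun k => LinearMap.pi fun i => lcoeff (ZMod p) i ∘ₗ σ k
  obtain ⟨v, hv, hv0⟩ := (Submodule.ne_bot_iff _).1 (Φ.ker_ne_bot_of_finrank_lt (by
    simp only [Module.finrank_prod, Module.finrank_pi_fintype, Module.finrank_self, sum_const,
      card_univ, Fintype.card_fin, smul_eq_mul, mul_one]
    omega))
  have hdeg : ∀ w : Fin (D + 1) → ZMod p, (ofFn (D + 1) w).natDegree ≤ D := fun w =>
    Nat.le_of_lt_succ (ofFn_natDegree_lt (by omega) w)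
  let r : ℕ → (ZMod p)[X] := fun j => if h : j < J then ofFn (D + 1) (v.1 ⟨j, h⟩) else 0
  let s : ℕ → (ZMod p)[X] := fun j => if h : j < J then ofFn (D + 1) (v.2 ⟨j, h⟩) else 0
  have hr : ∀ j, (r j).natDegree ≤ D := fun j => by
    simp only [r]; split_ifs; exacts [hdeg _, by simp]
  have hs : ∀ j, (s j).natDegree ≤ D := fun j => by
    simp only [s]; split_ifs; exacts [hdeg _, by simp]
  have hσ : ∀ k, σ k v = ∑ j ∈ range J, (op f L k (r j) + t • op f (L + c) k (s j)) * X ^ j := by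
    intro k
    rw [← Fin.sum_univ_eq_sum_range (fun j => (op f L k (r j) + t • op f (L + c) k (s j)) * X ^ j)]
    simp [σ, pr, r, s, LinearMap.sum_apply]
  have hσ0 : ∀ k < L, σ k v = 0 := by
    intro k hk
    have hd : ∀ j ∈ range J, ((op f L k (r j) + t • op f (L + c) k (s j)) * X ^ j).natDegree <
        D + L * m + J := fun j hj => by
      have h1 := natDegree_op f L k (r j)
      have h2 := natDegree_op f (L + c) k (s j)
      have h3 := natDegree_smul_le t (op f (L + c) k (s j))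
      have h4 := natDegree_add_le (op f L k (r j)) (t • op f (L + c) k (s j))
      have h5 := natDegree_mul_le (p := op f L k (r j) + t • op f (L + c) k (s j)) (q := X ^ j)
      have h6 : k * m ≤ L * m := Nat.mul_le_mul_right m hk.le
      have := hr j
      have := hs j
      have := mem_range.1 hj
      rw [natDegree_X_pow] at h5
      rw [← hm] at h1 h2
      omega
    ext i
    by_cases hi : i < D + L * m + J
    · exact congrFun (congrFun (LinearMap.mem_ker.1 hv) ⟨k, hk⟩) ⟨i, hi⟩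
    · rw [hσ, finsetSum_coeff, coeff_zero]
      exact Finset.sum_eq_zero fun j hj => coeff_eq_zero_of_natDegree_lt (by have := hd j hj; omega)
  set R := ∑ j ∈ range J, (f ^ L * r j * X ^ (j * p) + f ^ (L + c) * s j * X ^ (j * p)) with hR
  have hR0 : R ≠ 0 := by
    intro h
    have h1 : f ^ L * ∑ j ∈ range J, (r j + f ^ c * s j) * X ^ (j * p) = 0 := by
      rw [← h, hR, Finset.mul_sum]
      exact Finset.sum_congr rfl fun j _ => by ring
    have h2 := nonvanish hc h0 ha hD J r s hr hs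
      ((mul_eq_zero.1 h1).resolve_left (pow_ne_zero _ hf))
    refine hv0 (Prod.ext (funext fun j => ?_) (funext fun j => ?_))
    · exact injective_ofFn (D + 1) (by simpa [r] using (h2 j j.2).1)
    · exact injective_ofFn (D + 1) (by simpa [s] using (h2 j j.2).2)
  have hRd : R.natDegree ≤ (L + c) * m + D + (J - 1) * p := by
    refine natDegree_sum_le_of_forall_le _ _ fun j hj => ?_
    have h1 : j * p ≤ (J - 1) * p := Nat.mul_le_mul_right p (by have := mem_range.1 hj; omega)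
    have key : ∀ (e : ℕ) (u : (ZMod p)[X]), e ≤ L + c → u.natDegree ≤ D →
        (f ^ e * u * X ^ (j * p)).natDegree ≤ (L + c) * m + D + (J - 1) * p := fun e u he hu => by
      have h2 := natDegree_mul_le (p := f ^ e * u) (q := X ^ (j * p))
      have h3 := natDegree_mul_le (p := f ^ e) (q := u)
      have h4 := natDegree_pow_le (p := f) (n := e)
      have h5 : e * m ≤ (L + c) * m := Nat.mul_le_mul_right m he
      rw [natDegree_X_pow] at h2
      rw [← hm] at h4
      omega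
    exact natDegree_add_le_of_degree_le (key _ _ (by omega) (hr j)) (key _ _ le_rfl (hs j))
  have hmult : ∀ x, f.eval x ^ c = t → L ≤ R.rootMultiplicity x := by
    intro x hx
    rcases Nat.eq_zero_or_pos L with h | h
    · omega
    have := lt_rootMultiplicity_of_isRoot_iterate_derivative_of_mem_nonZeroDivisors' (p := R)
      (t := x) (n := L - 1) hR0 (fun k hk => ?_) fun k hk hk0 => mem_nonZeroDivisors_of_ne_zero ?_
    · omega
    · have hw : ∀ j, derivative (X ^ (j * p) : (ZMod p)[X]) = 0 := fun j => by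
        simp [derivative_X_pow]
      have h1 := congrArg (eval x) ((hσ k).symm.trans (hσ0 k (by omega)))
      rw [IsRoot, hR, iterate_derivative_sum]
      simp only [iterate_map_add, iterate_op f (show k ≤ L by omega) _ _ (hw _),
        iterate_op f (show k ≤ L + c by omega) _ _ (hw _), eval_finsetSum, eval_add, eval_mul,
        eval_pow, eval_X, eval_smul, smul_eq_mul, eval_zero] at h1 ⊢
      have h2 := congrArg (eval x f ^ (L - k) * ·) h1
      simp only [Finset.mul_sum, mul_zero] at h2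
      rw [← h2]
      refine Finset.sum_congr rfl fun j _ => ?_
      rw [show L + c - k = L - k + c by omega, pow_add, hx, pow_mul, ZMod.pow_card]
      ring
    · rw [Ne, ZMod.natCast_eq_zero_iff]
      exact Nat.not_dvd_of_pos_of_lt (by omega) (by omega)
  refine le_trans ?_ ((card_roots' R).trans hRd)
  rw [← Multiset.toFinset_sum_count_eq, mul_comm, ← smul_eq_mul, ← Finset.sum_const]
  rcases Nat.eq_zero_or_pos L with h | h
  · simp [h]
  refine (Finset.sum_le_sum fun x hx => ?_).trans (Finset.sum_le_sum_of_subset fun x hx => ?_)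
  · rw [count_roots]; exact hmult x (mem_filter.1 hx).2
  · rw [Multiset.mem_toFinset, ← Multiset.one_le_count_iff_mem, count_roots]
    exact le_trans h (hmult x (mem_filter.1 hx).2)

end Pool.Agent.Lib.MP_79fcf0_nt
end

-- part Pool.Agent.Lib.MP_79fcf0_nt.Weil
section

/-!
A one-sided Weil-type bound for products of shifted quadratic characters.
-/

open Polynomial Finset

namespace Pool.Agent.Lib.MP_79fcf0_nt

variable {p : ℕ} [Fact p.Prime]

lemma weil0 (hp : p % 2 = 1) {A : Finset (ZMod p)} (hA : A.Nonempty) (h0 : (0 : ZMod p) ∉ A)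
    (hm : A.card < p.sqrt) (hL : 6 ≤ p.sqrt) :
    -(15 * A.card * p.sqrt : ℤ) ≤ ∑ y, ∏ a ∈ A, quadraticChar (ZMod p) (y - a) := by
  classical
  obtain ⟨c, hc⟩ : ∃ c, p = 2 * c + 1 := ⟨p / 2, by omega⟩
  have hL1 : p.sqrt * p.sqrt ≤ p := Nat.sqrt_le p
  have hL2 : p < (p.sqrt + 1) * (p.sqrt + 1) := Nat.lt_succ_sqrt p
  generalize p.sqrt = L at *
  have hm0 : 1 ≤ A.card := hA.card_pos
  set f : (ZMod p)[X] := ∏ a ∈ A, (X - C a) with hfd
  have hf : f.natDegree = A.card := natDegree_finsetProd_X_sub_C_eq_card A id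
  obtain ⟨a, ha⟩ := hA
  have hr : f.rootMultiplicity a = 1 := by
    rw [← count_roots, roots_prod_X_sub_C]; exact Multiset.count_eq_one_of_mem A.nodup ha
  have hev : ∀ y, f.eval y = ∏ a ∈ A, (y - a) := fun y => by simp [hfd, eval_prod]
  have hc0 : f.coeff 0 ≠ 0 := by
    rw [coeff_zero_eq_eval_zero, hev]
    exact prod_ne_zero_iff.2 fun b hb => sub_ne_zero.2 fun h => h0 (h ▸ hb)
  set m := A.card with hmd
  have hmp : 6 * m < p := by nlinarith
  obtain ⟨D, hD1, hD2⟩ : ∃ D, 2 * D + m < p ∧ p ≤ 2 * D + m + 2 := ⟨(p - m - 1) / 2, by omega⟩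
  obtain ⟨l, hl1, hl2⟩ : ∃ l, 2 * l ≤ L ∧ L ≤ 2 * l + 1 := ⟨L / 2, by omega⟩
  have key := stepanov (L := L) (J := l + 2 * m + 1) (D := D) hc hc0 hr (by rw [hf]; exact hD1)
    (by nlinarith) (by
      rw [hf]
      have e1 : L * (D + 1) ≤ (2 * l + 1) * (D + 1) := Nat.mul_le_mul_right _ hl2
      have e2 : L * L * m ≤ p * m := Nat.mul_le_mul_right _ hL1
      have e3 : L * (2 * l) ≤ L * L := Nat.mul_le_mul_left _ hl1
      have e4 : (4 * m + 1) * p ≤ (4 * m + 1) * (2 * D + m + 2) := Nat.mul_le_mul_left _ hD2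
      have e5 : m * (6 * L) ≤ m * p := Nat.mul_le_mul_left _ (by nlinarith)
      have e6 : m * (m + 1) ≤ m * L := Nat.mul_le_mul_left _ hm
      nlinarith) (-1)
  rw [hf, Nat.add_sub_cancel] at key
  set N := (univ.filter fun x => f.eval x ^ c = -1).card with hN
  have hN2 : 2 * N ≤ p + 14 * m * L := by
    refine Nat.le_of_mul_le_mul_left ?_ (show 0 < L by omega)
    have e1 : 2 * l * p ≤ L * p := Nat.mul_le_mul_right _ hl1
    have e2 : p ≤ 2 * (L * L) := by nlinarith
    have e3 : m * p ≤ m * (2 * (L * L)) := Nat.mul_le_mul_left _ e2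
    have e4 : 1 * p ≤ m * p := Nat.mul_le_mul_right _ hm0
    have e5 : m * L * 1 ≤ m * L * L := Nat.mul_le_mul_left _ (by omega)
    have e6 : c * m * 2 ≤ p * m := by nlinarith
    nlinarith
  have hchar : ringChar (ZMod p) ≠ 2 := by rw [ZMod.ringChar_zmod_n]; omega
  have hpt : ∀ y, (1 : ℤ) - (if y ∈ A then 1 else 0) - 2 * (if f.eval y ^ c = -1 then 1 else 0) ≤
      ∏ a ∈ A, quadraticChar (ZMod p) (y - a) := fun y => by
    rw [← map_prod, ← hev]
    by_cases hy : y ∈ A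
    · have : f.eval y = 0 := by rw [hev]; exact prod_eq_zero hy (sub_self y)
      rw [this, MulChar.map_zero, if_pos hy]; split_ifs <;> norm_num
    · have : f.eval y ≠ 0 := by
        rw [hev]; exact prod_ne_zero_iff.2 fun b hb => sub_ne_zero.2 fun h => hy (h ▸ hb)
      rw [if_neg hy]
      rcases quadraticChar_dichotomy this with h | h
      · rw [h]; split_ifs <;> norm_num
      · have h2 := quadraticChar_eq_pow_of_char_ne_two' hchar (f.eval y)
        rw [h, ZMod.card, show p / 2 = c by omega] at h2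
        rw [h, if_pos (by rw [← h2]; simp)]; norm_num
  refine le_trans ?_ (Finset.sum_le_sum fun y _ => hpt y)
  simp only [Finset.sum_sub_distrib, ← Finset.mul_sum, Finset.sum_boole, sum_const, card_univ,
    ZMod.card, nsmul_eq_mul, mul_one, filter_mem_eq_inter, univ_inter, ← hN, ← hmd]
  have e1 : (m : ℤ) * 1 ≤ m * L := by exact_mod_cast Nat.mul_le_mul_left m (show 1 ≤ L by omega)
  have e2 : (2 * N : ℤ) ≤ p + 14 * m * L := by exact_mod_cast hN2
  linarith

lemma weil (hp : p % 2 = 1) {A : Finset (ZMod p)} (hA : A.Nonempty)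
    (hm : A.card < p.sqrt) (hL : 6 ≤ p.sqrt) :
    -(15 * A.card * p.sqrt : ℤ) ≤ ∑ y, ∏ a ∈ A, quadraticChar (ZMod p) (y - a) := by
  classical
  obtain ⟨b, hb⟩ : ∃ b, b ∉ A := by
    by_contra! h
    have := Finset.card_le_card (show univ ⊆ A from fun x _ => h x)
    have := Nat.sqrt_le_self p
    rw [card_univ, ZMod.card] at *
    omega
  have := weil0 hp (A := A.map (Equiv.subRight b).toEmbedding) (by simpa using hA)
    (by simpa using hb) (by simpa using hm) hL
  rw [card_map] at this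
  refine this.trans_eq ?_
  refine Fintype.sum_equiv (Equiv.addRight b) _ _ fun y => ?_
  rw [prod_map]
  refine Finset.prod_congr rfl fun a _ => ?_
  simp only [Equiv.coe_toEmbedding, Equiv.subRight_apply, Equiv.coe_addRight]
  ring_nf

end Pool.Agent.Lib.MP_79fcf0_nt
end

-- part Pool.Agent.Lib.MP_79fcf0_nt.Ramsey
section

/-!
The Erdos-Szekeres bound in product form, and a lower bound for a large binomial coefficient.
-/

open Finset

namespace Pool.Agent.Lib.MP_79fcf0_nt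

lemma insert_clique {V : Type} [DecidableEq V] {R : V → V → Prop} (hR : ∀ a b, R a b → R b a)
    {T U : Finset V} {v : V} (hv : v ∈ T) (hU : ∀ u ∈ U, u ∈ T ∧ u ≠ v ∧ R v u) {s : ℕ}
    (h : ∀ K ⊆ T, (K : Set V).Pairwise R → K.card ≤ s) :
    ∀ K ⊆ U, (K : Set V).Pairwise R → K.card ≤ s - 1 := by
  intro K hK hp
  have hvK : v ∉ K := fun h => (hU v (hK h)).2.1 rfl
  have := h (insert v K) (insert_subset hv fun u hu => (hU u (hK hu)).1) (by
    rw [coe_insert]
    exact hp.insert fun u hu _ => ⟨(hU u (hK hu)).2.2, hR _ _ (hU u (hK hu)).2.2⟩)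
  rw [card_insert_of_notMem hvK] at this
  omega

lemma erdos_szekeres {V : Type} {R : V → V → Prop} (hR : ∀ a b, R a b → R b a) {x : ℝ}
    (hx0 : 0 ≤ x) (hx1 : x ≤ 1) (n : ℕ) : ∀ (T : Finset V) (s t : ℕ), T.card ≤ n →
      (∀ K ⊆ T, (K : Set V).Pairwise R → K.card ≤ s) →
      (∀ K ⊆ T, (K : Set V).Pairwise (fun a b => ¬ R a b) → K.card ≤ t) →
      (T.card + 1 : ℝ) * (x ^ s * (1 - x) ^ t) ≤ 1 := by
  classical
  have hy0 : 0 ≤ 1 - x := by linarith
  have base : ∀ s t : ℕ, ((0 : ℕ) + 1 : ℝ) * (x ^ s * (1 - x) ^ t) ≤ 1 := fun s t => by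
    rw [Nat.cast_zero, zero_add, one_mul]
    exact mul_le_one₀ (pow_le_one₀ hx0 hx1) (pow_nonneg hy0 _) (pow_le_one₀ hy0 (by linarith))
  induction n with
  | zero => intro T s t h _ _; rw [Nat.le_zero.1 h]; exact base s t
  | succ n ih =>
    intro T s t hn hs ht
    rcases T.eq_empty_or_nonempty with rfl | ⟨v, hv⟩
    · exact base s t
    have hs1 : 1 ≤ s := by simpa using hs {v} (by simpa) (by simp)
    have ht1 : 1 ≤ t := by simpa using ht {v} (by simpa) (by simp)
    have hc := card_filter_add_card_filter_not (s := T.erase v) (R v)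
    have hc2 := card_erase_add_one hv
    have h1 := ih ((T.erase v).filter (R v)) (s - 1) t (by omega)
      (insert_clique hR hv (fun u hu => by simp only [mem_filter, mem_erase] at hu; tauto) hs)
      fun K hK => ht K (hK.trans ((filter_subset _ _).trans (erase_subset _ _)))
    have h2 := ih ((T.erase v).filter fun u => ¬ R v u) s (t - 1) (by omega)
      (fun K hK => hs K (hK.trans ((filter_subset _ _).trans (erase_subset _ _))))
      (insert_clique (R := fun a b => ¬ R a b) (fun a b h h' => h (hR _ _ h')) hv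
        (fun u hu => by simp only [mem_filter, mem_erase] at hu; tauto) ht)
    obtain ⟨s, rfl⟩ : ∃ s', s = s' + 1 := ⟨s - 1, by omega⟩
    obtain ⟨t, rfl⟩ : ∃ t', t = t' + 1 := ⟨t - 1, by omega⟩
    rw [Nat.add_sub_cancel] at h1 h2
    rw [← hc2, ← hc]
    have h3 := mul_le_mul_of_nonneg_left h1 hx0
    have h4 := mul_le_mul_of_nonneg_left h2 hy0
    push_cast
    rw [pow_succ] at h3 h4
    rw [pow_succ, pow_succ]
    linarith

/-- Some binomial coefficient with `r ≤ (w+1) ρ` carries at least a `1/(w+1)` share. -/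
lemma exists_choose (w : ℕ) {ρ : ℝ} (h0 : 0 < ρ) (h1 : ρ < 1) :
    ∃ r ≤ w, (r : ℝ) ≤ (w + 1) * ρ ∧ (w + 1) * ρ ≤ r + 1 ∧
      1 ≤ (w + 1) * (ρ ^ r * (1 - ρ) ^ (w - r) * w.choose r) := by
  have hy : 0 < 1 - ρ := by linarith
  obtain ⟨r, hr, hmax⟩ := exists_max_image (range (w + 1))
    (fun k => ρ ^ k * (1 - ρ) ^ (w - k) * w.choose k) ⟨0, by simp⟩
  have hrw : r ≤ w := Nat.lt_succ_iff.1 (mem_range.1 hr)
  have step : ∀ k, k < w → (ρ ^ (k + 1) * (1 - ρ) ^ (w - (k + 1)) * w.choose (k + 1)) *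
      ((k + 1) * (1 - ρ)) = (ρ ^ k * (1 - ρ) ^ (w - k) * w.choose k) * ((w - k) * ρ) := by
    intro k hk
    have e : (w.choose (k + 1) : ℝ) * (k + 1) = w.choose k * (w - k) := by
      have := Nat.choose_succ_right_eq w k
      rw [← Nat.cast_sub hk.le]
      exact_mod_cast this
    rw [show w - k = w - (k + 1) + 1 by omega, pow_succ, pow_succ]
    linear_combination (ρ ^ k * ρ * (1 - ρ) ^ (w - (k + 1)) * (1 - ρ)) * e
  have pos : ∀ k, k ≤ w → 0 < ρ ^ k * (1 - ρ) ^ (w - k) * w.choose k := fun k hk => by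
    have : (0 : ℝ) < w.choose k := by exact_mod_cast Nat.choose_pos hk
    positivity
  refine ⟨r, hrw, ?_, ?_, ?_⟩
  · rcases r with _ | k
    · rw [Nat.cast_zero]; positivity
    · have e1 := step k (by omega)
      have e2 := hmax k (mem_range.2 (by omega))
      have e3 := pos (k + 1) hrw
      have e4 : (k : ℝ) + 1 ≤ w := by exact_mod_cast hrw
      have e5 := mul_le_mul_of_nonneg_right e2 (show 0 ≤ ((w : ℝ) - k) * ρ by nlinarith)
      have e6 := le_of_mul_le_mul_left (e1.trans_le e5) e3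
      push_cast
      linarith
  · rcases hrw.eq_or_lt with rfl | hlt
    · nlinarith [(Nat.cast_nonneg r : (0 : ℝ) ≤ r)]
    · have e1 := step r hlt
      have e2 := hmax (r + 1) (mem_range.2 (by omega))
      have e5 := mul_le_mul_of_nonneg_right e2 (show 0 ≤ ((r : ℝ) + 1) * (1 - ρ) by positivity)
      have e6 := le_of_mul_le_mul_left (e1.symm.trans_le e5) (pos r hrw)
      linarith
  · have := add_pow ρ (1 - ρ) w
    rw [add_sub_cancel, one_pow] at this
    have h2 := Finset.sum_le_card_nsmul _ _ _ hmax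
    rw [← this, card_range, nsmul_eq_mul] at h2
    exact_mod_cast h2

end Pool.Agent.Lib.MP_79fcf0_nt
end

-- part Pool.Agent.Lib.MP_79fcf0_nt.Key
section

/-!
The key inequality for a maximum clique of the Paley graph.
-/

open Finset

namespace Pool.Agent.Lib.MP_79fcf0_nt

variable {p : ℕ} [Fact p.Prime]

/-- Adjacency in the Paley graph. -/
def Red (a b : ZMod p) : Prop := quadraticChar (ZMod p) (a - b) = 1

/-- The sign pattern of a set. -/
def sg (u : Finset (ZMod p)) (a : ZMod p) : ℝ := if a ∈ u then -1 else 1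

/-- The real quadratic character. -/
def ch (a : ZMod p) : ℝ := (quadraticChar (ZMod p) a : ℤ)

/-- A positive semidefinite kernel on `r`-subsets of a `w`-set. -/
def wt (w r : ℕ) (u v : Finset (ZMod p)) : ℝ := w * (u ∩ v).card - r ^ 2 + 1

lemma Red.symm (hp : p % 4 = 1) (a b : ZMod p) (h : Red a b) : Red b a := by
  have h1 : quadraticChar (ZMod p) (-1) = 1 :=
    (quadraticChar_one_iff_isSquare (by simp)).2 (ZMod.exists_sq_eq_neg_one_iff.2 (by omega))
  unfold Red at *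
  rw [← neg_sub, ← neg_one_mul, map_mul, h1, h, one_mul]

lemma blue_le (hp : p % 4 = 1) {w : ℕ}
    (hX : ∀ K : Finset (ZMod p), (K : Set (ZMod p)).Pairwise Red → K.card ≤ w)
    (K : Finset (ZMod p)) (hK : (K : Set (ZMod p)).Pairwise fun a b => ¬ Red a b) :
    K.card ≤ w := by
  obtain ⟨g, hg⟩ := quadraticChar_exists_neg_one (F := ZMod p)
    (by rw [ZMod.ringChar_zmod_n]; omega)
  have hg0 : g ≠ 0 := by rintro rfl; simp at hg
  rw [← card_image_of_injective K (mul_right_injective₀ hg0)]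
  refine hX _ ?_
  rw [coe_image]
  refine Set.Pairwise.image fun a ha b hb hab => ?_
  have := (quadraticChar_dichotomy (sub_ne_zero.2 hab)).resolve_left (hK ha hb hab)
  simp only [Function.onFun, Red]
  rw [← mul_sub, map_mul, hg, this]
  norm_num

lemma nbhd_le (hp : p % 4 = 1) {X : Finset (ZMod p)} (hX : (X : Set (ZMod p)).Pairwise Red)
    (hmax : ∀ K : Finset (ZMod p), (K : Set (ZMod p)).Pairwise Red → K.card ≤ X.card)
    {x : ℝ} (hx0 : 0 < x) (hx1 : x < 1) (Z : Finset (ZMod p)) {s : ℕ} (hZ : Z.card ≤ s)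
    (T : Finset (ZMod p)) (hT : ∀ y ∈ T, y ∉ X ∧ ∀ a ∈ X \ Z, Red y a) :
    (T.card : ℝ) ≤ (x ^ s * (1 - x) ^ X.card)⁻¹ := by
  have := erdos_szekeres (Red.symm hp) hx0.le hx1.le _ T s X.card le_rfl (fun K hK hp' => ?_)
    fun K _ => blue_le hp hmax K
  · have h0 : 0 < x ^ s * (1 - x) ^ X.card := mul_pos (pow_pos hx0 _) (pow_pos (by linarith) _)
    rw [inv_eq_one_div, le_div_iff₀ h0]
    nlinarith
  · have h1 := hmax (K ∪ X \ Z) (by
      rw [coe_union]
      refine Set.pairwise_union.2 ⟨hp', hX.mono (coe_subset.2 sdiff_subset), fun a ha b hb _ => ?_⟩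
      exact ⟨(hT a (hK ha)).2 b hb, Red.symm hp _ _ ((hT a (hK ha)).2 b hb)⟩)
    rw [card_union_of_disjoint (disjoint_left.2 fun a ha h => (hT a (hK ha)).1 (mem_sdiff.1 h).1)]
      at h1
    have := le_card_sdiff Z X
    omega

lemma ch_cases (a : ZMod p) : ch a = 0 ∨ ch a = 1 ∨ ch a = -1 := by
  rcases quadraticChar_isQuadratic (ZMod p) a with h | h | h <;> simp only [ch, h] <;> simp

lemma prod_ite_mem' {V : Type} [DecidableEq V] {X u : Finset V} (hu : u ⊆ X) (f g : V → ℝ) :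
    ∏ a ∈ X, (if a ∈ u then f a else g a) = (∏ a ∈ u, f a) * ∏ a ∈ X \ u, g a := by
  rw [prod_ite, filter_mem_eq_inter, inter_eq_right.2 hu, sdiff_eq_filter]

lemma sum_powerset_ite {V : Type} [DecidableEq V] (X : Finset V) (f g : V → ℝ) :
    ∑ u ∈ X.powerset, ∏ a ∈ X, (if a ∈ u then f a else g a) = ∏ a ∈ X, (f a + g a) := by
  rw [prod_add]
  exact Finset.sum_congr rfl fun u hu => prod_ite_mem' (mem_powerset.1 hu) f g

lemma nbhd_sum (hp : p % 4 = 1) {X : Finset (ZMod p)} (hX : (X : Set (ZMod p)).Pairwise Red)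
    (hmax : ∀ K : Finset (ZMod p), (K : Set (ZMod p)).Pairwise Red → K.card ≤ X.card)
    {α γ : ℝ} (h0 : 0 ≤ γ) (h1 : γ ≤ α) (h2 : α + 10 * γ = 1) :
    ∑ y, ∏ a ∈ X, (α * (1 + ch (y - a)) + γ * (1 - ch (y - a))) ≤
      (X.card + 1) * (11 / 5) ^ X.card := by
  classical
  rw [← Finset.sum_add_sum_compl X, add_mul, one_mul]
  refine add_le_add ?_ ?_
  · rw [← nsmul_eq_mul]
    refine Finset.sum_le_card_nsmul _ _ _ fun y _ => ?_
    rw [← prod_const]
    refine Finset.prod_le_prod (fun a _ => ?_) fun a _ => ?_ <;>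
      rcases ch_cases (y - a) with h | h | h <;> rw [h] <;> linarith
  have e : ∀ y ∈ Xᶜ, ∏ a ∈ X, (α * (1 + ch (y - a)) + γ * (1 - ch (y - a))) =
      ∑ Z ∈ X.powerset, (∏ _a ∈ Z, 2 * γ) * (∏ _a ∈ X \ Z, 2 * (α - γ)) *
        if ∀ a ∈ X \ Z, Red y a then 1 else 0 := fun y hy => by
    have e0 : ∀ Z : Finset (ZMod p), (∏ _a ∈ Z, 2 * γ) * (∏ _a ∈ X \ Z, 2 * (α - γ)) *
        (if ∀ a ∈ X \ Z, Red y a then 1 else 0) = (∏ _a ∈ Z, 2 * γ) *
        ∏ a ∈ X \ Z, 2 * (α - γ) * if Red y a then 1 else 0 := fun Z => by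
      rw [prod_mul_distrib (g := fun a => if Red y a then (1 : ℝ) else 0), Finset.prod_boole,
        mul_assoc]
      congr!
    simp only [e0, ← prod_add]
    refine prod_congr rfl fun a ha => ?_
    have hya : y - a ≠ 0 := sub_ne_zero.2 fun h => mem_compl.1 hy (h ▸ ha)
    split_ifs with h
    · simp only [ch, show quadraticChar (ZMod p) (y - a) = 1 from h]; push_cast; ring
    · simp only [ch, (quadraticChar_dichotomy hya).resolve_left h]; push_cast; ring
  rw [Finset.sum_congr rfl e, Finset.sum_comm]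
  have e2 : (11 / 5 : ℝ) ^ X.card = ∑ Z ∈ X.powerset, (∏ _a ∈ Z, 2 * γ) *
      (∏ _a ∈ X \ Z, 2 * (α - γ)) * ((1 / 11) ^ Z.card * (1 - 1 / 11) ^ X.card)⁻¹ := by
    have : ∀ Z : Finset (ZMod p), (∏ _a ∈ Z, 2 * γ) * (∏ _a ∈ X \ Z, 2 * (α - γ)) *
        ((1 / 11) ^ Z.card * (1 - 1 / 11) ^ X.card)⁻¹ =
        (∏ _a ∈ Z, 2 * γ * 11) * (∏ _a ∈ X \ Z, 2 * (α - γ)) * (11 / 10) ^ X.card := fun Z => by
      rw [mul_inv, ← inv_pow, ← inv_pow, prod_mul_distrib (g := fun _ => (11 : ℝ)),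
        prod_const (11 : ℝ)]
      norm_num
      ring
    simp only [this]
    rw [← Finset.sum_mul, ← prod_add, prod_const, ← mul_pow]
    congr 1
    linarith
  rw [e2]
  refine Finset.sum_le_sum fun Z _ => ?_
  rw [← Finset.mul_sum, Finset.sum_boole]
  refine mul_le_mul_of_nonneg_left (nbhd_le hp hX hmax (by norm_num) (by norm_num) Z le_rfl _
    fun y hy => ⟨mem_compl.1 (mem_filter.1 hy).1, (mem_filter.1 hy).2⟩) ?_
  exact mul_nonneg (prod_nonneg fun _ _ => by linarith) (prod_nonneg fun _ _ => by linarith)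

omit [Fact p.Prime] in
lemma upper (X : Finset (ZMod p)) {r d : ℕ} {ρ : ℝ} (h0 : 0 < ρ) (h1 : ρ < 1)
    (hd : ∀ k : ℕ, r ^ 2 ≤ X.card * k → 2 * r ≤ d + 2 * k) (c : ZMod p → ℝ)
    (hc : ∀ a, -1 ≤ c a ∧ c a ≤ 1) :
    (ρ ^ r * (1 - ρ) ^ (X.card - r)) ^ 2 * ∑ u ∈ X.powersetCard r, ∑ v ∈ X.powersetCard r,
      wt X.card r u v * ∏ a ∈ X, (1 + c a * (sg u a * sg v a)) ≤ (X.card + 1) ^ 2 * 10 ^ d *
      ∏ a ∈ X, ((ρ ^ 2 + (1 - ρ) ^ 2) * (1 + c a) + ρ * (1 - ρ) / 5 * (1 - c a)) := by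
  have hy : 0 < 1 - ρ := by linarith
  let F : Finset (ZMod p) → Finset (ZMod p) → ZMod p → ℝ := fun u v a =>
    if a ∈ v then (if a ∈ u then ρ ^ 2 * (1 + c a) else ρ * (1 - ρ) / 10 * (1 - c a))
    else (if a ∈ u then ρ * (1 - ρ) / 10 * (1 - c a) else (1 - ρ) ^ 2 * (1 + c a))
  have hF : ∀ u v, 0 ≤ ∏ a ∈ X, F u v a := fun u v => prod_nonneg fun a _ => by
    have : 0 ≤ 1 + c a := by linarith [hc a]
    have : 0 ≤ 1 - c a := by linarith [hc a]
    simp only [F]; split_ifs <;> positivity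
  have e : ∏ a ∈ X, ((ρ ^ 2 + (1 - ρ) ^ 2) * (1 + c a) + ρ * (1 - ρ) / 5 * (1 - c a)) =
      ∑ u ∈ X.powerset, ∑ v ∈ X.powerset, ∏ a ∈ X, F u v a := by
    simp only [F, sum_powerset_ite, ite_add_ite]
    exact prod_congr rfl fun a _ => by ring
  have hs : X.powersetCard r ⊆ X.powerset := fun u hu => mem_powerset.2 (mem_powersetCard.1 hu).1
  rw [e]
  refine le_trans ?_ (mul_le_mul_of_nonneg_left ((Finset.sum_le_sum fun u _ =>
    Finset.sum_le_sum_of_subset_of_nonneg hs fun v _ _ => hF u v).trans'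
      le_rfl |>.trans' (Finset.sum_le_sum_of_subset_of_nonneg hs fun u _ _ =>
        Finset.sum_nonneg fun v _ => hF u v)) (by positivity))
  simp only [Finset.mul_sum]
  refine Finset.sum_le_sum fun u hu => Finset.sum_le_sum fun v hv => ?_
  obtain ⟨hu, hur⟩ := mem_powersetCard.1 hu
  obtain ⟨hv, hvr⟩ := mem_powersetCard.1 hv
  have hm : ∀ u ⊆ X, u.card = r → ∏ a ∈ X, (if a ∈ u then ρ / 10 else 1 - ρ) =
      ρ ^ r * (1 - ρ) ^ (X.card - r) / 10 ^ r := fun u hu hur => by
    rw [prod_ite_mem' hu, prod_const, prod_const, card_sdiff_of_subset hu, hur, div_pow]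
    ring
  have hk : ∏ a ∈ X, (if a ∈ u ∩ v then (10 : ℝ) ^ 2 else 1) = 10 ^ (2 * (u ∩ v).card) := by
    rw [prod_ite_mem' (inter_subset_left.trans hu), prod_const, prod_const_one, mul_one, pow_mul]
  have e2 : ∏ a ∈ X, F u v a = ρ ^ r * (1 - ρ) ^ (X.card - r) / 10 ^ r *
      (ρ ^ r * (1 - ρ) ^ (X.card - r) / 10 ^ r) * 10 ^ (2 * (u ∩ v).card) *
      ∏ a ∈ X, (1 + c a * (sg u a * sg v a)) := by
    nth_rewrite 1 [← hm u hu hur]
    rw [← hm v hv hvr, ← hk, ← prod_mul_distrib, ← prod_mul_distrib, ← prod_mul_distrib]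
    refine prod_congr rfl fun a _ => ?_
    simp only [F, sg, mem_inter]
    by_cases h : a ∈ u <;> by_cases h' : a ∈ v <;> simp only [h, h', if_true, if_false, and_true,
      and_false] <;> ring
  have hP : 0 ≤ ∏ a ∈ X, (1 + c a * (sg u a * sg v a)) := prod_nonneg fun a _ => by
    have := hc a
    unfold sg; split_ifs <;> linarith
  have hw : wt X.card r u v ≤ (X.card + 1) ^ 2 * (10 ^ (d + 2 * (u ∩ v).card) / 10 ^ (2 * r)) := by
    rcases lt_or_ge (X.card * (u ∩ v).card) (r ^ 2) with h | h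
    · refine le_trans ?_ (by positivity : (0 : ℝ) ≤ _)
      have : ((X.card * (u ∩ v).card + 1 : ℕ) : ℝ) ≤ (r ^ 2 : ℕ) := Nat.cast_le.2 h
      push_cast at this
      unfold wt; linarith
    · have h2 : (1 : ℝ) ≤ 10 ^ (d + 2 * (u ∩ v).card) / 10 ^ (2 * r) :=
        (one_le_div (by positivity)).2 (pow_le_pow_right₀ (by norm_num) (hd _ h))
      refine le_trans ?_ (le_mul_of_one_le_right (by positivity) h2)
      have h3 : ((u ∩ v).card : ℝ) ≤ X.card :=
        Nat.cast_le.2 (card_le_card (inter_subset_left.trans hu))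
      have h4 : (0 : ℝ) ≤ X.card := Nat.cast_nonneg _
      unfold wt; nlinarith [sq_nonneg (r : ℝ)]
  rw [e2]
  refine (mul_le_mul_of_nonneg_left (mul_le_mul_of_nonneg_right hw hP) (sq_nonneg _)).trans_eq ?_
  rw [pow_add, two_mul r, pow_add]
  field_simp

omit [Fact p.Prime] in
lemma wt_psd (X : Finset (ZMod p)) (r : ℕ) (e : Finset (ZMod p) → ℝ) :
    (∑ u ∈ X.powersetCard r, e u) ^ 2 ≤
      ∑ u ∈ X.powersetCard r, ∑ v ∈ X.powersetCard r, wt X.card r u v * (e u * e v) := by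
  have h := sq_sum_le_card_mul_sum_sq (s := X)
    (f := fun i => ∑ u ∈ X.powersetCard r, if i ∈ u then e u else 0)
  have e1 : ∑ i ∈ X, ∑ u ∈ X.powersetCard r, (if i ∈ u then e u else 0) =
      r * ∑ u ∈ X.powersetCard r, e u := by
    rw [Finset.sum_comm, Finset.mul_sum]
    refine Finset.sum_congr rfl fun u hu => ?_
    obtain ⟨hu, hur⟩ := mem_powersetCard.1 hu
    rw [Finset.sum_ite_mem, inter_eq_right.2 hu, sum_const, hur, nsmul_eq_mul]
  have e2 : ∑ i ∈ X, (∑ u ∈ X.powersetCard r, if i ∈ u then e u else 0) ^ 2 =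
      ∑ u ∈ X.powersetCard r, ∑ v ∈ X.powersetCard r, (u ∩ v).card * (e u * e v) := by
    simp only [sq, Finset.sum_mul_sum]
    rw [Finset.sum_comm]
    refine Finset.sum_congr rfl fun u hu => ?_
    rw [Finset.sum_comm]
    refine Finset.sum_congr rfl fun v _ => ?_
    simp only [ite_zero_mul_ite_zero, ← mem_inter]
    rw [Finset.sum_ite_mem, inter_eq_right.2 (inter_subset_left.trans (mem_powersetCard.1 hu).1),
      sum_const, nsmul_eq_mul]
  have e3 : ∑ u ∈ X.powersetCard r, ∑ v ∈ X.powersetCard r, wt X.card r u v * (e u * e v) =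
      X.card * ∑ u ∈ X.powersetCard r, ∑ v ∈ X.powersetCard r, (u ∩ v).card * (e u * e v) -
        (r ^ 2 - 1) * (∑ u ∈ X.powersetCard r, e u) ^ 2 := by
    simp only [sq (∑ u ∈ _, _), Finset.sum_mul_sum]
    simp only [Finset.mul_sum, ← Finset.sum_sub_distrib, wt]
    exact Finset.sum_congr rfl fun u _ => Finset.sum_congr rfl fun v _ => by ring
  rw [e1, e2] at h
  rw [e3]
  linarith

omit [Fact p.Prime] in
lemma sum_coef (X : Finset (ZMod p)) (r : ℕ) :
    ∑ A ∈ X.powerset, ∑ u ∈ X.powersetCard r, ∑ v ∈ X.powersetCard r,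
      wt X.card r u v * ((∏ a ∈ A, sg u a) * ∏ a ∈ A, sg v a) ≤
      X.card.choose r * ((X.card + 1) ^ 2 * 2 ^ X.card) := by
  simp only [← prod_mul_distrib]
  rw [Finset.sum_comm, ← card_powersetCard, ← nsmul_eq_mul]
  refine Finset.sum_le_card_nsmul _ _ _ fun u hu => ?_
  rw [Finset.sum_comm, Finset.sum_eq_single_of_mem u hu]
  · rw [← Finset.mul_sum, ← prod_one_add, ← prod_const,
      prod_congr rfl (g := fun _ => (2 : ℝ)) fun a _ => by unfold sg; split_ifs <;> norm_num]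
    refine mul_le_mul_of_nonneg_right ?_ (prod_nonneg fun _ _ => by norm_num)
    have h3 : ((u ∩ u).card : ℝ) ≤ X.card :=
      Nat.cast_le.2 (card_le_card (inter_subset_left.trans (mem_powersetCard.1 hu).1))
    have h4 : (0 : ℝ) ≤ X.card := Nat.cast_nonneg _
    unfold wt; nlinarith [sq_nonneg (r : ℝ)]
  · intro v hv hne
    rw [← Finset.mul_sum, ← prod_one_add]
    have : ∃ a, ¬ (a ∈ v ↔ a ∈ u) := by
      by_contra! h
      exact hne (Finset.ext h)
    obtain ⟨a, ha⟩ := this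
    have haX : a ∈ X := by
      by_contra h
      exact ha ⟨fun h' => absurd ((mem_powersetCard.1 hv).1 h') h,
        fun h' => absurd ((mem_powersetCard.1 hu).1 h') h⟩
    refine mul_eq_zero_of_right _ (prod_eq_zero haX ?_)
    unfold sg
    split_ifs <;> first | tauto | norm_num

lemma lower (hp : p % 2 = 1) {X : Finset (ZMod p)} (hm : X.card < p.sqrt) (hL : 6 ≤ p.sqrt)
    (r : ℕ) : (X.card.choose r : ℝ) ^ 2 * p - 15 * X.card * p.sqrt *
      (X.card.choose r * ((X.card + 1) ^ 2 * 2 ^ X.card)) ≤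
      ∑ y, ∑ u ∈ X.powersetCard r, ∑ v ∈ X.powersetCard r,
        wt X.card r u v * ∏ a ∈ X, (1 + ch (y - a) * (sg u a * sg v a)) := by
  set cf : Finset (ZMod p) → ℝ := fun A => ∑ u ∈ X.powersetCard r, ∑ v ∈ X.powersetCard r,
    wt X.card r u v * ((∏ a ∈ A, sg u a) * ∏ a ∈ A, sg v a) with hcf
  have e : ∑ y, ∑ u ∈ X.powersetCard r, ∑ v ∈ X.powersetCard r,
      wt X.card r u v * ∏ a ∈ X, (1 + ch (y - a) * (sg u a * sg v a)) =
      ∑ A ∈ X.powerset, cf A * ∑ y, ∏ a ∈ A, ch (y - a) := by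
    simp only [Finset.mul_sum]
    symm
    rw [Finset.sum_comm]
    refine Finset.sum_congr rfl fun y _ => ?_
    simp only [hcf, prod_one_add, Finset.sum_mul, Finset.mul_sum]
    rw [Finset.sum_comm]
    refine Finset.sum_congr rfl fun u _ => ?_
    rw [Finset.sum_comm]
    refine Finset.sum_congr rfl fun v _ => Finset.sum_congr rfl fun A _ => ?_
    simp only [prod_mul_distrib]
    ring
  have hc0 : ∀ A, 0 ≤ cf A := fun A => (sq_nonneg _).trans (wt_psd X r fun u => ∏ a ∈ A, sg u a)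
  have hc1 : (X.card.choose r : ℝ) ^ 2 ≤ cf ∅ := by
    simpa [hcf] using wt_psd X r fun u => ∏ a ∈ (∅ : Finset (ZMod p)), sg u a
  have e2 : cf ∅ * p = ∑ A ∈ X.powerset, cf A * if A = ∅ then (p : ℝ) else 0 := by
    rw [Finset.sum_eq_single_of_mem ∅ (empty_mem_powerset X) fun A _ hA => by simp [hA]]
    simp
  refine le_trans (sub_le_sub (mul_le_mul_of_nonneg_right hc1 p.cast_nonneg)
    (mul_le_mul_of_nonneg_left (sum_coef X r) (by positivity))) ?_
  rw [e, e2, Finset.mul_sum, ← Finset.sum_sub_distrib]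
  refine Finset.sum_le_sum fun A hA => ?_
  rw [mul_comm (15 * _ * _ : ℝ), ← mul_sub]
  refine mul_le_mul_of_nonneg_left ?_ (hc0 A)
  have hAX := card_le_card (mem_powerset.1 hA)
  split_ifs with h
  · subst h
    simp only [prod_empty, sum_const, card_univ, ZMod.card, nsmul_eq_mul, mul_one]
    linarith [show (0 : ℝ) ≤ 15 * X.card * p.sqrt by positivity]
  · have h1 : ((_ : ℤ) : ℝ) ≤ ((_ : ℤ) : ℝ) :=
      Int.cast_le.2 (weil hp (nonempty_iff_ne_empty.2 h) (by omega) hL)
    have : (15 * A.card * p.sqrt : ℝ) ≤ 15 * X.card * p.sqrt := by gcongr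
    push_cast at h1
    unfold ch
    linarith

lemma key (hp : p % 4 = 1) {X : Finset (ZMod p)} (hX : (X : Set (ZMod p)).Pairwise Red)
    (hmax : ∀ K : Finset (ZMod p), (K : Set (ZMod p)).Pairwise Red → K.card ≤ X.card)
    (hm : X.card < p.sqrt) (hL : 6 ≤ p.sqrt) {r d : ℕ} {ρ : ℝ} (h0 : 0 < ρ) (h1 : ρ < 1)
    (hd : ∀ k : ℕ, r ^ 2 ≤ X.card * k → 2 * r ≤ d + 2 * k)
    (h3 : 1 ≤ (X.card + 1) * (ρ ^ r * (1 - ρ) ^ (X.card - r) * X.card.choose r)) :
    (p : ℝ) ≤ (X.card + 1) ^ 5 * (15 * p.sqrt * (2 ^ X.card * (ρ ^ r * (1 - ρ) ^ (X.card - r))) +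
      10 ^ d * (11 / 5) ^ X.card) := by
  have hy : 0 < 1 - ρ := by linarith
  have a1 := mul_le_mul_of_nonneg_left (lower (by omega) hm hL r)
    (sq_nonneg (ρ ^ r * (1 - ρ) ^ (X.card - r)))
  rw [Finset.mul_sum] at a1
  have a2 := a1.trans (Finset.sum_le_sum fun y _ => upper X h0 h1 hd (fun a => ch (y - a))
    fun a => by rcases ch_cases (y - a) with h | h | h <;> rw [h] <;> norm_num)
  rw [← Finset.mul_sum] at a2
  have a3 := a2.trans (mul_le_mul_of_nonneg_left (nbhd_sum hp hX hmax (by positivity)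
    (by nlinarith [sq_nonneg (1 - 2 * ρ), mul_pos h0 hy]) (by ring)) (by positivity))
  have hμ : 0 < ρ ^ r * (1 - ρ) ^ (X.card - r) := by positivity
  generalize ρ ^ r * (1 - ρ) ^ (X.card - r) = μ at *
  have hw : (0 : ℝ) ≤ X.card := Nat.cast_nonneg _
  have hC : (0 : ℝ) ≤ X.card.choose r := Nat.cast_nonneg _
  generalize (X.card.choose r : ℝ) = C at *
  have hA : (0 : ℝ) ≤ 15 * p.sqrt * (2 ^ X.card * μ) := by positivity
  have hB : (0 : ℝ) ≤ 10 ^ d * (11 / 5) ^ X.card := by positivity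
  set t := (X.card + 1) * (μ * C) with ht
  have a4 : t ^ 2 * p ≤ (X.card + 1) ^ 3 * X.card * t * (15 * p.sqrt * (2 ^ X.card * μ)) +
      (X.card + 1) ^ 5 * (10 ^ d * (11 / 5) ^ X.card) := by
    have := mul_le_mul_of_nonneg_left a3 (sq_nonneg (X.card + 1 : ℝ))
    rw [ht]
    linarith
  refine le_of_mul_le_mul_left (a4.trans ?_) (pow_pos (by linarith : 0 < t) 2)
  have ht2 : t ≤ t ^ 2 := by nlinarith
  have b1 : (X.card + 1 : ℝ) ^ 3 * X.card * t ≤ (X.card + 1) ^ 3 * (X.card + 1) ^ 2 * t ^ 2 := by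
    gcongr; nlinarith
  have b2 : (X.card + 1 : ℝ) ^ 5 ≤ t ^ 2 * (X.card + 1) ^ 5 :=
    le_mul_of_one_le_left (by positivity) (h3.trans ht2)
  linarith [mul_le_mul_of_nonneg_right b1 hA, mul_le_mul_of_nonneg_right b2 hB]

end Pool.Agent.Lib.MP_79fcf0_nt
end

-- part Pool.Agent.Lib.MP_79fcf0_nt.Final
section

/-!
Choice of parameters and the final estimate.
-/

open Finset

namespace Pool.Agent.Lib.MP_79fcf0_nt

lemma exp_ge : (2.71825 : ℝ) ≤ Real.exp 0.99999 := by
  have h1 := Real.exp_one_gt_d9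
  have h2 := Real.add_one_le_exp (-0.00001)
  rw [show (0.99999 : ℝ) = 1 + -0.00001 by norm_num, Real.exp_add]
  nlinarith

lemma term1 {w r : ℕ} (hr : r ≤ w) (h : 4 * w ≤ 83 * (r + 1)) :
    (2 : ℝ) ^ w * ((4 / 83) ^ r * (1 - 4 / 83) ^ (w - r)) ≤ 79 / 4 * Real.exp (0.499995 * w) := by
  have ha : (1.64871 : ℝ) ≤ Real.exp 0.499995 := by
    refine le_of_pow_le_pow_left₀ (n := 2) (by norm_num) (by positivity) ?_
    rw [← Real.exp_nat_mul, show ((2 : ℕ) : ℝ) * 0.499995 = 0.99999 by norm_num]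
    exact le_trans (by norm_num) exp_ge
  have h1 : (158 / 83 : ℝ) ^ w * (4 / 79) ^ (r + 1) ≤ 1.64871 ^ w := by
    refine le_of_pow_le_pow_left₀ (n := 83) (by norm_num) (by positivity) ?_
    rw [mul_pow, ← pow_mul, ← pow_mul, ← pow_mul, mul_comm w 83, mul_comm (r + 1), pow_mul,
      pow_mul (1.64871 : ℝ)]
    calc _ ≤ ((158 / 83 : ℝ) ^ 83) ^ w * (4 / 79) ^ (4 * w) := by
          gcongr _ * ?_
          exact pow_le_pow_of_le_one (by norm_num) (by norm_num) h
      _ ≤ _ := by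
          rw [pow_mul, ← mul_pow]
          gcongr
          norm_num
  have h2 : (1.64871 : ℝ) ^ w ≤ Real.exp (0.499995 * w) := by
    rw [mul_comm, Real.exp_nat_mul]; gcongr
  obtain ⟨k, rfl⟩ := Nat.exists_eq_add_of_le hr
  have e : (2 : ℝ) ^ (r + k) * ((4 / 83) ^ r * (1 - 4 / 83) ^ (r + k - r)) =
      79 / 4 * ((158 / 83 : ℝ) ^ (r + k) * (4 / 79) ^ (r + 1)) := by
    have e1 : (158 / 83 : ℝ) ^ k = 2 ^ k * (1 - 4 / 83) ^ k := by rw [← mul_pow]; norm_num
    have e2 : (158 / 83 : ℝ) ^ r * (4 / 79) ^ r = 2 ^ r * (4 / 83) ^ r := by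
      rw [← mul_pow, ← mul_pow]; norm_num
    rw [Nat.add_sub_cancel_left, pow_add, pow_add, pow_add, e1]
    linear_combination (-(2 : ℝ) ^ k * (1 - 4 / 83) ^ k) * e2
  rw [e]
  linarith

lemma term2 {w d : ℕ} (h : 109 * d ≤ 10 * (w + 1)) :
    (10 : ℝ) ^ d * (11 / 5) ^ w ≤ Real.exp (0.99999 * (w + 1)) := by
  have h1 : (10 : ℝ) ^ d * (11 / 5) ^ w ≤ 2.718 ^ (w + 1) := by
    refine le_of_pow_le_pow_left₀ (n := 109) (by norm_num) (by positivity) ?_
    rw [mul_pow, ← pow_mul, ← pow_mul, ← pow_mul, mul_comm (w + 1) 109, pow_mul (2.718 : ℝ)]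
    calc _ ≤ (10 : ℝ) ^ (10 * (w + 1)) * (11 / 5) ^ (109 * (w + 1)) := by
          gcongr _ ^ ?_ * _ ^ ?_ <;> first | omega | norm_num
      _ ≤ _ := by
          rw [pow_mul, pow_mul, ← mul_pow]
          gcongr
          norm_num
  refine h1.trans ?_
  rw [mul_comm, ← Nat.cast_succ, Real.exp_nat_mul]
  gcongr
  exact le_trans (by norm_num) exp_ge

lemma overlap {w r : ℕ} (hr : r ≤ w) (h : 83 * r ≤ 4 * (w + 1)) (k : ℕ) (hk : r ^ 2 ≤ w * k) :
    2 * r ≤ 10 * (w + 1) / 109 + 2 * k := by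
  rcases Nat.eq_zero_or_pos w with rfl | hw
  · omega
  have : 664 * r ≤ 6889 * k + 16 * w := by
    refine Nat.le_of_mul_le_mul_left ?_ hw
    zify at hk ⊢
    nlinarith [sq_nonneg (83 * r - 4 * w : ℤ)]
  omega

lemma numeric {p w r d : ℕ} {l : ℝ} (hl : Real.exp l = p) (hw : (w : ℝ) ≤ l + 1) (hl2 : 2 ≤ l)
    (hr : r ≤ w) (h : 4 * w ≤ 83 * (r + 1)) (hd : 109 * d ≤ 10 * (w + 1)) :
    ((w : ℝ) + 1) ^ 5 * (15 * p.sqrt * (2 ^ w * ((4 / 83) ^ r * (1 - 4 / 83) ^ (w - r))) +
      10 ^ d * (11 / 5) ^ w) ≤ 9600 * l ^ 5 * Real.exp (0.999995 * l + 2) := by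
  have hs : (p.sqrt : ℝ) ≤ Real.exp (l / 2) := by
    refine le_of_pow_le_pow_left₀ (n := 2) (by norm_num) (by positivity) ?_
    rw [← Real.exp_nat_mul, show ((2 : ℕ) : ℝ) * (l / 2) = l by push_cast; ring, hl]
    exact_mod_cast Nat.sqrt_le' p
  set E := Real.exp (0.999995 * l + 2) with hE
  have hE0 : 0 < E := Real.exp_pos _
  have a2 : (10 : ℝ) ^ d * (11 / 5) ^ w ≤ E :=
    (term2 hd).trans (Real.exp_le_exp.2 (by linarith))
  have b2 : Real.exp (l / 2) * Real.exp (0.499995 * w) ≤ E := by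
    rw [← Real.exp_add]; exact Real.exp_le_exp.2 (by linarith)
  have a1 : (p.sqrt : ℝ) * (2 ^ w * ((4 / 83) ^ r * (1 - 4 / 83) ^ (w - r))) ≤
      Real.exp (l / 2) * (79 / 4 * Real.exp (0.499995 * w)) := by
    gcongr ?_ * ?_
    exact term1 hr h
  calc _ ≤ (2 * l) ^ 5 * (300 * E) := by
        gcongr
        · linarith
        · linarith
    _ = _ := by ring

theorem main : ∃ p₀ : ℕ, ∀ p : ℕ, p.Prime → p % 4 = 1 → p₀ ≤ p →
    ∃ S : Finset (ZMod p), Admissible S ∧ Real.log p ≤ S.card := by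
  set M : ℝ := 24 + 720 * (9600 * Real.exp 2) / 0.000005 ^ 6 with hM
  refine ⟨⌈Real.exp (M + 1)⌉₊, fun p hp hp4 hp0 => ?_⟩
  have := Fact.mk hp
  classical
  have hpos : (0 : ℝ) < p := by exact_mod_cast hp.pos
  set l := Real.log p
  have hl : Real.exp l = p := Real.exp_log hpos
  have hM0 : 0 ≤ 720 * (9600 * Real.exp 2) / 0.000005 ^ 6 := by positivity
  have hlM : M + 1 ≤ l := (Real.le_log_iff_exp_le hpos).2 (Nat.ceil_le.1 hp0)
  obtain ⟨X, hX, hmax⟩ := exists_max_image
    (univ.filter fun K : Finset (ZMod p) => (K : Set (ZMod p)).Pairwise Red) card ⟨∅, by simp⟩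
  simp only [mem_filter, mem_univ, true_and] at hX hmax
  obtain ⟨a, ha⟩ : X.Nonempty := card_pos.1 (by simpa using hmax {0} (by simp))
  have hQ : ∀ x ∈ X, ∀ y ∈ X, x ≠ y → IsQR (x - y) := fun x hx y hy hxy =>
    ⟨(sub_ne_zero.2 hxy).isUnit, (quadraticChar_one_iff_isSquare (sub_ne_zero.2 hxy)).1
      (hX hx hy hxy)⟩
  refine ⟨(X.erase a).map (Equiv.subRight a).toEmbedding, ⟨?_, ?_⟩, ?_⟩
  · simp only [mem_map, mem_erase]
    rintro _ ⟨x, hx, rfl⟩
    exact hQ x hx.2 a ha hx.1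
  · simp only [mem_map, mem_erase]
    rintro _ ⟨x, hx, rfl⟩ _ ⟨y, hy, rfl⟩ hxy
    simpa using hQ x hx.2 y hy.2 fun h => hxy (by rw [h])
  by_contra! hlt
  have hw : (X.card : ℝ) ≤ l + 1 := by
    rw [card_map] at hlt
    rw [← card_erase_add_one ha]
    push_cast
    linarith
  have hl24 : 24 ≤ l := by linarith
  have hbig : 4 * l ^ 2 ≤ p := by
    have := Real.pow_div_factorial_le_exp l (by linarith) 3
    norm_num [Nat.factorial] at this
    nlinarith [sq_nonneg l]
  have hm : X.card < p.sqrt := by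
    refine Nat.le_sqrt'.2 ?_
    have : (X.card + 1 : ℝ) ^ 2 ≤ (2 * l) ^ 2 := by gcongr; linarith
    have : (X.card + 1 : ℝ) ^ 2 ≤ p := by linarith
    exact_mod_cast this
  have hL : 6 ≤ p.sqrt := by
    refine Nat.le_sqrt'.2 ?_
    have : (6 : ℝ) ^ 2 ≤ p := by nlinarith
    exact_mod_cast this
  obtain ⟨r, hr, h1, h2, h3⟩ := exists_choose X.card (ρ := 4 / 83) (by norm_num) (by norm_num)
  have h1' : 83 * r ≤ 4 * (X.card + 1) := by
    have : (83 * r : ℝ) ≤ 4 * (X.card + 1) := by linarith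
    exact_mod_cast this
  have h2' : 4 * X.card ≤ 83 * (r + 1) := by
    have : (4 * X.card : ℝ) ≤ 83 * (r + 1) := by linarith
    exact_mod_cast this
  have h4 := (key hp4 hX hmax hm hL (by norm_num) (by norm_num) (overlap hr h1') h3).trans
    (numeric hl hw (by linarith) hr h2' (Nat.mul_div_le _ _))
  rw [← hl, show l = 0.000005 * l + 0.999995 * l by ring, Real.exp_add,
    show 0.000005 * l + 0.999995 * l = l by ring, Real.exp_add, mul_comm _ (Real.exp 2),
    ← mul_assoc] at h4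
  have h5 := (Real.pow_div_factorial_le_exp (0.000005 * l) (by linarith) 6).trans
    (le_of_mul_le_mul_right h4 (Real.exp_pos _))
  have h6 : 720 * (9600 * Real.exp 2) / 0.000005 ^ 6 < l := by linarith
  rw [div_lt_iff₀ (by norm_num)] at h6
  rw [show ((Nat.factorial 6 : ℕ) : ℝ) = 720 by norm_num [Nat.factorial]] at h5
  linarith [mul_lt_mul_of_pos_right h6 (show 0 < l ^ 5 by positivity)]

end Pool.Agent.Lib.MP_79fcf0_nt
end
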