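import Pool.Agent.Lib.MP_79fcf0_nt.Defs
import Pool.Agent.Shared.Weil.Stepanov

/-!
Admissible sets from geometric progressions of cosets of roots of unity.
-/

open Polynomial Finset Filter

namespace Pool.Agent.Lib.MP_79fcf0_nt

variable {p : ℕ} [Fact p.Prime]

lemma chi_le (x : ZMod p) : |quadraticChar (ZMod p) x| ≤ 1 := by
  rcases quadraticChar_isQuadratic (ZMod p) x with h | h | h <;> simp [h]

lemma card_zeros {f : (ZMod p)[X]} (hf : f ≠ 0) : #{y | f.eval y = 0} ≤ f.natDegree :=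
  le_trans (card_le_card fun y hy => by simpa [hf] using hy)
    ((Multiset.toFinset_card_le f.roots).trans (card_roots' f))

/-- The Weil-type bound for polynomials with a simple root in some extension. -/
lemma weil_simple {K : Type} [Field K] [Algebra (ZMod p) K] (hp : p % 2 = 1) (hL : 6 ≤ p.sqrt)
    (θ : K) (n : ℕ) : ∀ f : (ZMod p)[X], f.natDegree = n → aeval θ f = 0 →
      aeval θ (derivative f) ≠ 0 → n < p.sqrt →
      |∑ y, quadraticChar (ZMod p) (f.eval y)| ≤ 16 * n * p.sqrt := by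
  induction n using Nat.strong_induction_on with
  | _ n ih =>
  intro f hn h0 h1 hm
  have hf : f ≠ 0 := by rintro rfl; simp at h1
  by_cases hs : Squarefree f
  · have hd : 0 < f.natDegree := Nat.pos_of_ne_zero fun h => h1 (by
      rw [derivative_of_natDegree_zero h, map_zero])
    refine (Shared.Weil.abs_quadChar_sum_le (ZMod.card p) hp
      (PerfectField.separable_iff_squarefree.2 hs) hd (hn ▸ hm) hL).trans ?_
    rw [hn]
    gcongr
    norm_num
  · simp only [Squarefree, not_forall] at hs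
    obtain ⟨g, ⟨h, rfl⟩, hg⟩ := hs
    have hg0 : g ≠ 0 := by rintro rfl; simp at hf
    have hh0 : h ≠ 0 := by rintro rfl; simp at hf
    have hd : 0 < g.natDegree := Nat.pos_of_ne_zero fun e =>
      hg (isUnit_iff_degree_eq_zero.2 (by rw [degree_eq_natDegree hg0, e]; rfl))
    rw [natDegree_mul (mul_ne_zero hg0 hg0) hh0, natDegree_mul hg0 hg0] at hn
    have g0 : aeval θ g ≠ 0 := fun e => h1 (by simp [e])
    have e0 : aeval θ h = 0 := by simpa [g0] using h0
    have e1 : aeval θ (derivative h) ≠ 0 := fun e => h1 (by simp [e, e0])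
    have h2 := ih _ (by omega) h rfl e0 e1 (by omega)
    have h3 : |∑ y, quadraticChar (ZMod p) ((g * g * h).eval y) -
        ∑ y, quadraticChar (ZMod p) (h.eval y)| ≤ g.natDegree := by
      rw [← sum_sub_distrib]
      refine (abs_sum_le_sum_abs _ _).trans ((sum_le_sum
        (g := fun y => if g.eval y = 0 then 1 else 0) fun y _ => ?_).trans ?_)
      · split_ifs with e
        · simpa [e] using chi_le _
        · rw [eval_mul, eval_mul, map_mul, ← sq, quadraticChar_sq_one' e, one_mul, sub_self,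
            abs_zero]
      · rw [sum_boole]
        exact_mod_cast card_zeros hg0
    have h4 : (1 : ℤ) ≤ p.sqrt := by exact_mod_cast le_trans (by norm_num) hL
    have h5 := abs_sub_abs_le_abs_sub (∑ y, quadraticChar (ZMod p) ((g * g * h).eval y))
      (∑ y, quadraticChar (ZMod p) (h.eval y))
    rw [← hn]
    push_cast
    nlinarith [Int.natCast_nonneg g.natDegree]

/-- Prescribed signs for a family of polynomials with triangular simple roots. -/
lemma exists_signs {K ι : Type} [Field K] [Algebra (ZMod p) K] (hp : p % 2 = 1) (hL : 6 ≤ p.sqrt)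
    (P : Finset ι) (f : ι → (ZMod p)[X]) (σ : ι → ℤ) (hσ : ∀ i, σ i * σ i = 1) (rk : ι → ℕ)
    {D : ℕ} (hD : ∀ i ∈ P, (f i).natDegree ≤ D)
    (h : ∀ i ∈ P, ∃ θ : K, aeval θ (f i) = 0 ∧ aeval θ (derivative (f i)) ≠ 0 ∧
      ∀ j ∈ P, j ≠ i → rk j ≤ rk i → aeval θ (f j) ≠ 0)
    (hm : #P * D < p.sqrt) (hb : 2 ^ #P * (17 * (#P * D) * p.sqrt) < p) :
    ∃ t, ∀ i ∈ P, quadraticChar (ZMod p) ((f i).eval t) = σ i := by
  classical
  by_contra! hc
  have hs (i : ι) : σ i = 1 ∨ σ i = -1 := mul_self_eq_one_iff.1 (hσ i)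
  have hdeg (U : Finset ι) (hU : U ⊆ P) : (∏ i ∈ U, f i).natDegree ≤ #P * D :=
    (natDegree_prod_le _ _).trans ((sum_le_card_nsmul _ _ _ fun i hi => hD i (hU hi)).trans
      (Nat.mul_le_mul_right _ (card_le_card hU)))
  have h1 (U : Finset ι) (hU : U ∈ P.powerset) :
      (if U = ∅ then (p : ℤ) else 0) - 16 * (#P * D : ℕ) * p.sqrt ≤
        ∑ t, ∏ i ∈ U, σ i * quadraticChar (ZMod p) ((f i).eval t) := by
    split_ifs with e
    · simp [e]
      positivity
    · have hU' := mem_powerset.1 hU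
      obtain ⟨i, hi, hmax⟩ := exists_max_image U rk (nonempty_iff_ne_empty.2 e)
      obtain ⟨θ, a1, a2, a3⟩ := h i (hU' hi)
      have a4 : aeval θ (∏ j ∈ U.erase i, f j) ≠ 0 := by
        rw [map_prod]
        exact prod_ne_zero_iff.2 fun j hj => a3 j (hU' (mem_of_mem_erase hj)) (ne_of_mem_erase hj)
          (hmax j (mem_of_mem_erase hj))
      have a5 := weil_simple hp hL θ _ (∏ j ∈ U, f j) rfl (by simp [← mul_prod_erase U f hi, a1])
        (by simpa [← mul_prod_erase U f hi, a1, a2] using a4) ((hdeg U hU').trans_lt hm)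
      have a6 : |∏ j ∈ U, σ j| = 1 := by
        rw [abs_prod]
        exact prod_eq_one fun j _ => by rcases hs j with e | e <;> simp [e]
      simp only [prod_mul_distrib, ← mul_sum, ← map_prod, ← eval_prod, zero_sub]
      refine le_trans (neg_le_neg ?_) (neg_abs_le _)
      rw [abs_mul, a6, one_mul]
      refine a5.trans ?_
      gcongr
      exact_mod_cast hdeg U hU'
  have hF : ∏ i ∈ P, f i ≠ 0 := prod_ne_zero_iff.2 fun i hi e => by
    obtain ⟨θ, -, a2, -⟩ := h i hi
    simp [e] at a2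
  have h2 (t : ZMod p) : ∏ i ∈ P, (1 + σ i * quadraticChar (ZMod p) ((f i).eval t)) ≤
      if (∏ i ∈ P, f i).eval t = 0 then 2 ^ #P else 0 := by
    split_ifs with e
    · rw [← prod_const]
      refine prod_le_prod (fun i _ => ?_) fun i _ => ?_ <;>
        have := abs_le.1 (chi_le ((f i).eval t)) <;> rcases hs i with e | e <;> rw [e] <;> omega
    · obtain ⟨i, hi, hne⟩ := hc t
      rw [eval_prod] at e
      refine (prod_eq_zero hi ?_).le
      rcases quadraticChar_dichotomy (prod_ne_zero_iff.1 e i hi) with a | a <;>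
        rcases hs i with b | b <;> simp_all
  have h3 := sum_le_sum h1
  have h4 := sum_le_sum fun t (_ : t ∈ univ) => h2 t
  simp only [prod_one_add] at h4
  rw [sum_comm, ← sum_filter, sum_const, nsmul_eq_mul] at h4
  rw [sum_sub_distrib, sum_ite_eq', if_pos (empty_mem_powerset P), sum_const, card_powerset,
    nsmul_eq_mul] at h3
  have h5 : (#{t | (∏ i ∈ P, f i).eval t = 0} : ℤ) ≤ (#P * D : ℕ) := by
    exact_mod_cast (card_zeros hF).trans (hdeg P Subset.rfl)
  have h6 : (1 : ℤ) ≤ p.sqrt := by exact_mod_cast le_trans (by norm_num) hL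
  have h7 : (2 : ℤ) ^ #P * (17 * (#P * D : ℕ) * p.sqrt) < p := by exact_mod_cast hb
  have h8 : (0 : ℤ) < 2 ^ #P := by positivity
  have h9 := mul_le_mul_of_nonneg_right h5 h8.le
  have h10 := mul_le_mul_of_nonneg_left h6 (mul_nonneg (Int.natCast_nonneg (#P * D)) h8.le)
  push_cast at *
  linarith

lemma exists_coprime {b m k : ℕ} (hk : k ≠ 0) (h : ∀ q, q.Prime → q ∣ k → q ∣ b → ¬ q ∣ m) :
    ∃ j, (b + m * j).Coprime k := by
  refine ⟨∏ q ∈ k.primeFactors with ¬ q ∣ b, q, Nat.coprime_of_dvd fun q hq h1 h2 => ?_⟩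
  by_cases hb : q ∣ b
  · rcases hq.dvd_mul.1 ((Nat.dvd_add_right hb).1 h1) with h3 | h3
    · exact h q hq h2 hb h3
    · obtain ⟨r, hr, h4⟩ := (hq.prime.dvd_finsetProd_iff _).1 h3
      rw [mem_filter] at hr
      exact hr.2 ((Nat.prime_dvd_prime_iff_eq hq (Nat.prime_of_mem_primeFactors hr.1)).1 h4 ▸ hb)
  · exact hb ((Nat.dvd_add_left (Dvd.dvd.mul_left (dvd_prod_of_mem _
      (mem_filter.2 ⟨Nat.mem_primeFactors.2 ⟨hq, h2, hk⟩, hb⟩)) m)).1 h1)

lemma exists_root {K : Type} [Field K] [IsAlgClosed K] {m k a : ℕ} (hm : (m : K) ≠ 0)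
    (hk : (k : K) ≠ 0) {ζ : K} (hζ : IsPrimitiveRoot ζ m) (h : (a.gcd m).gcd k = 1) :
    ∃ θ : K, ζ ^ a * θ ^ k = 1 ∧ ∀ b l, 0 < l → l < k → ζ ^ b * θ ^ l ≠ 1 := by
  have hm0 : m ≠ 0 := by rintro rfl; simp at hm
  have hk0 : k ≠ 0 := by rintro rfl; simp at hk
  have : NeZero ((k * m : ℕ) : K) := ⟨by rw [Nat.cast_mul]; exact mul_ne_zero hk hm⟩
  have : NeZero m := ⟨hm0⟩
  obtain ⟨η, hη⟩ := HasEnoughRootsOfUnity.exists_primitiveRoot K (k * m)
  have h1 : IsPrimitiveRoot (η ^ k) m := hη.pow (by positivity) rfl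
  obtain ⟨u, -, hu, rfl⟩ := h1.isPrimitiveRoot_iff.1 hζ
  obtain ⟨n, rfl⟩ : ∃ n, m = n + 1 := ⟨m - 1, by omega⟩
  obtain ⟨j, hj⟩ := exists_coprime (b := n * (u * a)) (m := n + 1) hk0 fun q hq h2 h3 h4 => by
    rcases hq.dvd_mul.1 h3 with h5 | h5
    · exact hq.one_lt.ne' (Nat.dvd_one.1 ((Nat.dvd_add_right h5).1 h4))
    rcases hq.dvd_mul.1 h5 with h5 | h5
    · exact hq.one_lt.ne' (Nat.dvd_one.1 (hu ▸ Nat.dvd_gcd h5 h4))
    · exact hq.one_lt.ne' (Nat.dvd_one.1 (h ▸ Nat.dvd_gcd (Nat.dvd_gcd h5 h4) h2))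
  refine ⟨η ^ (n * (u * a) + (n + 1) * j), ?_, fun b l h2 h3 e => ?_⟩
  · simp only [← pow_mul, ← pow_add]
    exact (hη.pow_eq_one_iff_dvd _).2 ⟨u * a + j, by ring⟩
  · have h4 := congrArg (· ^ (n + 1)) e
    simp only [← pow_mul, ← pow_add, one_pow] at h4
    have h5 := Nat.dvd_of_mul_dvd_mul_right (by omega) ((hη.pow_eq_one_iff_dvd _).1 h4)
    rw [mul_assoc] at h5
    exact absurd (Nat.le_of_dvd h2 (hj.symm.dvd_of_dvd_mul_left
      ((Nat.dvd_add_right (dvd_mul_right _ _)).1 h5))) (by omega)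

/-- From a switching class of cliques to an admissible set. -/
lemma exists_admissible {ι : Type} (hp : p % 2 = 1)
    (I : Finset ι) (φ : ι → ZMod p) (s : ι → ℤ) {e : ℤ} (he : e * e = 1) (hs : ∀ i, s i * s i = 1)
    (h : ∀ i ∈ I, ∀ j ∈ I, i ≠ j → quadraticChar (ZMod p) (φ i - φ j) = e * s i * s j) :
    ∃ S : Finset (ZMod p), Admissible S ∧ #I ≤ #S + 2 := by
  classical
  obtain ⟨w, hw⟩ : ∃ w, quadraticChar (ZMod p) w = e := by
    rcases mul_self_eq_one_iff.1 he with rfl | rfl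
    · exact ⟨1, map_one _⟩
    · exact quadraticChar_exists_neg_one (by rw [ZMod.ringChar_zmod_n]; omega)
  rcases le_or_gt #I 2 with hI | hI
  · exact ⟨∅, by simp [Admissible], by simpa using hI⟩
  obtain ⟨a, ha, b, hb, hab⟩ := one_lt_card.1 (show 1 < #I by omega)
  have hne (i) (hi : i ∈ I) (j) (hj : j ∈ I) (hij : i ≠ j) : φ i - φ j ≠ 0 := fun e0 => by
    have h2 := h i hi j hj hij
    rw [e0, MulChar.map_zero] at h2
    have h3 : (e * s i * s j) ^ 2 = (e * e) * (s i * s i) * (s j * s j) := by ring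
    rw [← h2, he, hs, hs] at h3
    norm_num at h3
  let ψ : ι → ZMod p := fun i => w * (φ i - φ a)⁻¹
  have key (i) (hi : i ∈ I.erase a) (j) (hj : j ∈ I.erase a) (hij : i ≠ j) : IsQR (ψ i - ψ j) := by
    rw [mem_erase] at hi hj
    have a1 := hne i hi.2 a ha hi.1
    have a2 := hne j hj.2 a ha hj.1
    have a3 : ψ i - ψ j = w * (φ j - φ i) * (φ i - φ a) * (φ j - φ a) *
        ((φ i - φ a)⁻¹ * (φ j - φ a)⁻¹) ^ 2 := by
      simp only [ψ]
      field_simp
      ring
    have a4 : quadraticChar (ZMod p) (ψ i - ψ j) = 1 := by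
      rw [a3, map_mul, quadraticChar_sq_one' (mul_ne_zero (inv_ne_zero a1) (inv_ne_zero a2)),
        map_mul, map_mul, map_mul, hw, h j hj.2 i hi.2 hij.symm, h i hi.2 a ha hi.1,
        h j hj.2 a ha hj.1]
      linear_combination (e * e + 1) * (s i * s i) * (s j * s j) * (s a * s a) * he +
        (s j * s j) * (s a * s a) * hs i + (s a * s a) * hs j + hs a
    have a5 : ψ i - ψ j ≠ 0 := fun e0 => by simp [e0] at a4
    exact ⟨a5.isUnit, (quadraticChar_one_iff_isSquare a5).1 a4⟩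
  have hb' : b ∈ I.erase a := mem_erase.2 ⟨hab.symm, hb⟩
  refine ⟨((I.erase a).erase b).image fun i => ψ i - ψ b, ⟨?_, ?_⟩, ?_⟩
  · simp only [mem_image]
    rintro _ ⟨i, hi, rfl⟩
    exact key i (mem_of_mem_erase hi) b hb' (ne_of_mem_erase hi)
  · simp only [mem_image]
    rintro _ ⟨i, hi, rfl⟩ _ ⟨j, hj, rfl⟩ hij
    simpa using key i (mem_of_mem_erase hi) j (mem_of_mem_erase hj) fun e => hij (by rw [e])
  · rw [card_image_of_injOn, card_erase_of_mem hb', card_erase_of_mem ha]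
    · omega
    · intro i hi j hj e
      by_contra hij
      exact (key i (mem_of_mem_erase hi) j (mem_of_mem_erase hj) hij).1.ne_zero
        (sub_eq_zero.2 (sub_left_injective e))

/-- The second Jordan totient: pairs of residues that are coprime to `m` jointly. -/
def jordan (m : ℕ) : ℕ := #{x ∈ range m ×ˢ range m | (x.1.gcd m).gcd x.2 = 1}

theorem core (hp : p % 4 = 1) (hL : 6 ≤ p.sqrt) {m M : ℕ} (hm : 0 < m) {ζ : ZMod p}
    (hζ : IsPrimitiveRoot ζ m) (hz : quadraticChar (ZMod p) ζ = 1) {e l : ℤ} (he : e * e = 1)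
    (hl : l * l = 1) (hlm : l ^ m = 1)
    (hrel : ∀ q n, q.Prime → m = n * q → ∏ j ∈ range q, e * l ^ (n * j) = e)
    (h0 : ∀ a, 0 < a → a < m → quadraticChar (ZMod p) (1 - ζ ^ a) = e * l ^ a)
    (hd : (jordan m * M + 1) * (m * M + m) < p.sqrt)
    (hb : 2 ^ (jordan m * M + 1) * (17 * ((jordan m * M + 1) * (m * M + m)) * p.sqrt) < p) :
    ∃ S : Finset (ZMod p), Admissible S ∧ m * (m * M) ≤ #S + 2 := by
  have h1 : quadraticChar (ZMod p) (-1) = 1 :=
    (quadraticChar_one_iff_isSquare (by simp)).2 (ZMod.exists_sq_eq_neg_one_iff.2 (by omega))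
  have hlt : m * M + m < p := by
    have := Nat.sqrt_le_self p
    nlinarith [Nat.zero_le (jordan m * M * (m * M + m))]
  have hcast {k : ℕ} (a1 : 0 < k) (a2 : k < p) : (k : AlgebraicClosure (ZMod p)) ≠ 0 := by
    rw [← map_natCast (algebraMap (ZMod p) _), _root_.map_ne_zero, Ne, ZMod.natCast_eq_zero_iff]
    exact Nat.not_dvd_of_pos_of_lt a1 a2
  set P := insert (0, 0) {x ∈ range m ×ˢ range (m * M) | 0 < x.2 ∧ (x.1.gcd m).gcd x.2 = 1}
    with hP
  have hc : #P ≤ jordan m * M + 1 := by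
    refine (card_insert_le _ _).trans (Nat.add_le_add_right ?_ _)
    rw [jordan, ← card_range M, ← card_product, card_range]
    refine card_le_card_of_injOn (fun x => ((x.1, x.2 % m), x.2 / m)) (fun x hx => ?_)
      fun x _ y _ h => ?_
    · simp only [coe_filter, mem_product, mem_range, Set.mem_ofPred_eq, coe_product, Set.mem_prod,
        coe_range, Set.mem_Iio] at hx ⊢
      refine ⟨⟨⟨hx.1.1, Nat.mod_lt _ hm⟩, ?_⟩, Nat.div_lt_of_lt_mul hx.1.2⟩
      refine Nat.eq_one_of_dvd_one (hx.2.2 ▸ Nat.dvd_gcd (Nat.gcd_dvd_left _ _) ?_)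
      exact (Nat.dvd_mod_iff ((Nat.gcd_dvd_left _ _).trans (Nat.gcd_dvd_right _ _))).1
        (Nat.gcd_dvd_right _ _)
    · simp only [Prod.mk.injEq] at h
      exact Prod.ext h.1.1 (by rw [← Nat.div_add_mod x.2 m, ← Nat.div_add_mod y.2 m, h.1.2, h.2])
  have hmem {x : ℕ × ℕ} (hx : x ∈ P) :
      x = (0, 0) ∨ x.1 < m ∧ x.2 < m * M ∧ 0 < x.2 ∧ (x.1.gcd m).gcd x.2 = 1 := by
    simpa only [hP, mem_insert, mem_filter, mem_product, mem_range, and_assoc] using hx
  obtain ⟨t, ht⟩ := exists_signs (K := AlgebraicClosure (ZMod p)) (by omega) hL P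
    (fun x => if x.2 = 0 then X else 1 - C (ζ ^ x.1) * X ^ x.2)
    (fun x => if x.2 = 0 then 1 else e * l ^ x.1) (fun x => by
      split_ifs
      · rfl
      · rw [mul_mul_mul_comm, he, ← mul_pow, hl, one_pow, one_mul]) Prod.snd (D := m * M + m)
    (fun x hx => by
      split_ifs with a1
      · rw [natDegree_X]; omega
      · have := (hmem hx).resolve_left fun e => a1 (by rw [e])
        refine (natDegree_sub_le _ _).trans (max_le (by simp) ?_)
        exact (natDegree_C_mul_X_pow_le _ _).trans (by omega))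
    (fun x hx => by
      rcases hmem hx with rfl | ⟨a1, a2, a3, a4⟩
      · refine ⟨0, by simp, by simp, fun y hy b1 b2 => ?_⟩
        have := (hmem hy).resolve_left b1
        simp only at b2
        omega
      have hζ' := hζ.map_of_injective (algebraMap (ZMod p) (AlgebraicClosure (ZMod p))).injective
      obtain ⟨θ, b1, b2⟩ := exists_root (hcast hm (by omega)) (hcast a3 (by omega)) hζ' a4
      have b3 : θ ≠ 0 := by rintro rfl; simp [a3.ne'] at b1
      refine ⟨θ, by simp [a3.ne', b1], ?_, fun y hy c1 c2 => ?_⟩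
      · rw [if_neg a3.ne', derivative_sub, derivative_C_mul_X_pow]
        simp [b3, hcast a3 (by omega), hζ.ne_zero hm.ne']
      · rcases hmem hy with rfl | ⟨d1, -, d3, -⟩
        · simpa using b3
        simp only [d3.ne', if_false, map_sub, map_one, map_mul, aeval_C, map_pow, aeval_X]
        refine sub_ne_zero.2 fun e => ?_
        rcases c2.lt_or_eq with c2 | c2
        · exact b2 _ _ d3 c2 e.symm
        · rw [c2, ← b1] at e
          exact c1 (Prod.ext (hζ'.pow_inj d1 a1 (mul_right_cancel₀ (pow_ne_zero _ b3) e).symm) c2))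
    ((Nat.mul_le_mul_right _ hc).trans_lt hd) (lt_of_le_of_lt (by gcongr; norm_num) hb)
  have t0 : quadraticChar (ZMod p) t = 1 := by simpa using ht (0, 0) (mem_insert_self _ _)
  have hY (k : ℕ) : 0 < k → k < m * M → ∀ a,
      quadraticChar (ZMod p) (1 - ζ ^ a * t ^ k) = e * l ^ a := by
    induction k using Nat.strong_induction_on with
    | _ k ih =>
    intro k0 k1 a
    by_cases hg : (a.gcd m).gcd k = 1
    · have a1 := ht (a % m, k) (mem_insert_of_mem (by
        simp only [mem_filter, mem_product, mem_range]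
        exact ⟨⟨Nat.mod_lt _ hm, k1⟩, k0, by rwa [← Nat.gcd_rec, Nat.gcd_comm m a]⟩))
      simp only [k0.ne', if_false, eval_sub, eval_one, eval_mul, eval_C, eval_pow, eval_X] at a1
      rwa [← pow_eq_pow_mod a hζ.pow_eq_one, ← pow_eq_pow_mod a hlm] at a1
    · obtain ⟨q, hq, a1⟩ := Nat.exists_prime_and_dvd hg
      obtain ⟨a', rfl⟩ := a1.trans ((Nat.gcd_dvd_left _ _).trans (Nat.gcd_dvd_left _ _))
      obtain ⟨n, hn⟩ := a1.trans ((Nat.gcd_dvd_left _ _).trans (Nat.gcd_dvd_right _ _))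
      obtain ⟨k', rfl⟩ := a1.trans (Nat.gcd_dvd_right _ _)
      rw [mul_comm] at hn
      have k2 : 0 < k' := Nat.pos_of_mul_pos_left k0
      have k3 : k' < q * k' := lt_mul_left k2 hq.one_lt
      have a2 := congrArg (eval 1) (X_pow_sub_C_eq_prod (hζ.pow hm hn) hq.pos
        (rfl : (ζ ^ a' * t ^ k') ^ q = _))
      simp only [eval_sub, eval_pow, eval_X, one_pow, eval_C, eval_prod, mul_pow, ← pow_mul,
        ← mul_assoc, ← pow_add] at a2
      rw [mul_comm q, mul_comm q, a2, map_prod,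
        prod_congr rfl fun j _ => ih k' k3 k2 (k3.trans k1) _]
      simp only [pow_add, ← mul_assoc]
      rw [prod_mul_distrib, hrel q n hq hn, prod_const, card_range, pow_mul]
  have sym (x y : ZMod p) : quadraticChar (ZMod p) (x - y) = quadraticChar (ZMod p) (y - x) := by
    rw [← neg_sub, ← neg_one_mul, map_mul, h1, one_mul]
  have hpair (x y : ℕ × ℕ) (hx : x.1 < m) (hy : y.1 < m ∧ y.2 < m * M)
      (hxy : x.2 < y.2 ∨ x.2 = y.2 ∧ x.1 < y.1) :
      quadraticChar (ZMod p) (ζ ^ x.1 * t ^ x.2 - ζ ^ y.1 * t ^ y.2) = e * l ^ x.1 * l ^ y.1 := by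
    have a0 : l ^ x.1 * l ^ x.1 = 1 := by rw [← mul_pow, hl, one_pow]
    rcases hxy with a1 | ⟨a1, a2⟩
    · obtain ⟨c, hc⟩ := Nat.exists_eq_add_of_le hx.le
      obtain ⟨d, hd⟩ := Nat.exists_eq_add_of_le a1.le
      have a2 : ζ ^ x.1 * ζ ^ c = 1 := by rw [← pow_add, ← hc, hζ.pow_eq_one]
      have a3 : l ^ x.1 * l ^ c = 1 := by rw [← pow_add, ← hc, hlm]
      rw [show ζ ^ x.1 * t ^ x.2 - ζ ^ y.1 * t ^ y.2 =
        ζ ^ x.1 * t ^ x.2 * (1 - ζ ^ (y.1 + c) * t ^ d) by
          rw [hd, pow_add, pow_add]; linear_combination ζ ^ y.1 * t ^ x.2 * t ^ d * a2,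
        map_mul, map_mul, map_pow, map_pow, hz, t0, hY d (by omega) (by omega), pow_add]
      linear_combination e * l ^ y.1 * l ^ x.1 * a3 - e * l ^ y.1 * l ^ c * a0
    · obtain ⟨d, hd⟩ := Nat.exists_eq_add_of_le a2.le
      rw [show ζ ^ x.1 * t ^ x.2 - ζ ^ y.1 * t ^ y.2 = ζ ^ x.1 * t ^ x.2 * (1 - ζ ^ d) by
          rw [hd, ← a1, pow_add]; ring,
        map_mul, map_mul, map_pow, map_pow, hz, t0, h0 d (by omega) (by omega), hd, pow_add]
      linear_combination -e * l ^ d * a0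
  have := exists_admissible (by omega) (range m ×ˢ range (m * M))
    (fun x => ζ ^ x.1 * t ^ x.2) (fun x => l ^ x.1) he (fun x => by rw [← mul_pow, hl, one_pow])
    fun x hx y hy hxy => by
      simp only [mem_product, mem_range] at hx hy
      by_cases a1 : x.2 < y.2 ∨ x.2 = y.2 ∧ x.1 < y.1
      · exact hpair x y hx.1 hy a1
      · rw [sym, hpair y x hy.1 hx (by
          by_contra a2
          exact hxy (Prod.ext (by omega) (by omega))), mul_right_comm]
  simpa using this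

end Pool.Agent.Lib.MP_79fcf0_nt
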