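import Pool.Agent.Lib.MP_79fcf0_nt.GP

/-!
The asymptotic lower bounds from geometric progressions of cosets of roots of unity.
-/

open Finset Filter

namespace Pool.Agent.Lib.MP_79fcf0_nt

lemma jordan_pos {m : ℕ} (hm : 0 < m) : 0 < jordan m :=
  card_pos.2 ⟨(1 % m, 0), by
    simp only [mem_filter, mem_product, mem_range, Nat.gcd_zero_right]
    exact ⟨⟨Nat.mod_lt _ hm, hm⟩, by rw [← Nat.gcd_rec, Nat.gcd_one_right]⟩⟩

lemma exists_level {m : ℕ} (hm : 0 < m) {ε : ℝ} (hε : 0 < ε) : ∃ p₀ : ℕ, ∀ p : ℕ, p₀ ≤ p →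
    ∃ M : ℕ, 6 ≤ p.sqrt ∧ (jordan m * M + 1) * (m * M + m) < p.sqrt ∧
      2 ^ (jordan m * M + 1) * (17 * ((jordan m * M + 1) * (m * M + m)) * p.sqrt) < p ∧
      ((m : ℝ) ^ 2 / (2 * jordan m) - ε) * Real.logb 2 p + 2 ≤ (m * (m * M) : ℕ) := by
  have hJ : (1 : ℝ) ≤ jordan m := by exact_mod_cast jordan_pos hm
  have hm' : (1 : ℝ) ≤ m := by exact_mod_cast hm
  set J : ℝ := (jordan m : ℝ) with hJd
  set δ := min (ε * J / (2 * m ^ 2)) (1 / 4) with hδ
  have hδ0 : 0 < δ := by positivity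
  have hδ1 : δ ≤ 1 / 4 := min_le_right _ _
  have hδ2 : m ^ 2 * δ / J ≤ ε / 2 := by
    rw [div_le_iff₀ (by positivity)]
    have := (le_div_iff₀ (by positivity)).1 (min_le_left (ε * J / (2 * m ^ 2)) (1 / 4))
    linarith
  have e1 := (isLittleO_log_rpow_atTop (half_pos hδ0)).bound (show 0 < 1 / (24 * (m : ℝ)) by
    positivity)
  have e2 := (Real.tendsto_logb_atTop (b := 2) (by norm_num)).eventually_ge_atTop
    (max 1 (2 * (m ^ 2 + 2) / ε))
  obtain ⟨p₀, h⟩ := eventually_atTop.1 (tendsto_natCast_atTop_atTop.eventually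
    (e1.and (e2.and (eventually_ge_atTop (36 : ℝ)))))
  refine ⟨p₀, fun p hp => ?_⟩
  obtain ⟨a1, a2, a3⟩ := h p hp
  have p0 : (0 : ℝ) < p := by linarith
  set L := Real.logb 2 p with hLd
  have L1 : 1 ≤ L := (le_max_left _ _).trans a2
  have L2 : 2 * (m ^ 2 + 2) ≤ L * ε := (div_le_iff₀ hε).1 ((le_max_right _ _).trans a2)
  have hs : 6 ≤ p.sqrt := Nat.le_sqrt'.2 (show 36 ≤ p by exact_mod_cast a3)
  set M := ⌊(1 / 2 - δ) * L / J⌋₊ with hM
  have M1 : J * M ≤ (1 / 2 - δ) * L := by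
    have := Nat.floor_le (show 0 ≤ (1 / 2 - δ) * L / J from
      div_nonneg (mul_nonneg (by linarith) (by linarith)) (by linarith))
    rwa [le_div_iff₀ (by positivity), mul_comm] at this
  have M2 : (1 / 2 - δ) * L / J < M + 1 := Nat.lt_floor_add_one _
  have M3 : J * M ≤ L := by nlinarith
  have M4 : (M : ℝ) ≤ L := (le_mul_of_one_le_left M.cast_nonneg hJ).trans M3
  have hb : 2 ^ (jordan m * M + 1) * (17 * ((jordan m * M + 1) * (m * M + m)) * p.sqrt) < p := by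
    have b1 : (2 : ℝ) ^ (jordan m * M) ≤ p ^ (1 / 2 - δ) := by
      rw [← Real.rpow_natCast, ← Real.rpow_logb (b := 2) (by norm_num) (by norm_num) p0,
        ← Real.rpow_mul (by norm_num)]
      exact Real.rpow_le_rpow_of_exponent_le (by norm_num) (by push_cast; linarith)
    have b2 : (p.sqrt : ℝ) ≤ p ^ (1 / 2 : ℝ) := by
      rw [← Real.sqrt_eq_rpow]; exact Real.nat_sqrt_le_real_sqrt
    have b3 : L + 1 ≤ 4 * (1 / (24 * m) * p ^ (δ / 2)) := by
      rw [Real.norm_eq_abs, Real.norm_eq_abs, abs_of_pos (Real.rpow_pos_of_pos p0 _)] at a1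
      have c1 : L * Real.log 2 = Real.log p := by
        rw [hLd, Real.logb, div_mul_cancel₀ _ (Real.log_pos (by norm_num)).ne']
      have c2 := Real.log_two_gt_d9
      have c3 := le_abs_self (Real.log p)
      nlinarith
    have b4 : (p : ℝ) ^ (1 / 2 - δ) * (p ^ (δ / 2) * p ^ (δ / 2)) * p ^ (1 / 2 : ℝ) = p := by
      rw [← Real.rpow_add p0, ← Real.rpow_add p0, ← Real.rpow_add p0]
      ring_nf
      exact Real.rpow_one _
    have b5 : (2 : ℝ) ^ (jordan m * M + 1) * (17 * ((J * M + 1) * (m * M + m)) * p.sqrt) < p :=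
      calc _ = 34 * m * (2 ^ (jordan m * M) * ((J * M + 1) * (M + 1)) * p.sqrt) := by ring
        _ ≤ 34 * m * (p ^ (1 / 2 - δ) * ((4 * (1 / (24 * m) * p ^ (δ / 2))) *
            (4 * (1 / (24 * m) * p ^ (δ / 2)))) * p ^ (1 / 2 : ℝ)) := by
          gcongr <;> linarith
        _ = 34 / 36 / m * (p ^ (1 / 2 - δ) * (p ^ (δ / 2) * p ^ (δ / 2)) * p ^ (1 / 2 : ℝ)) := by
          field_simp
          ring
        _ < 1 * p := by
          rw [b4]
          gcongr
          rw [div_lt_one (by positivity)]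
          linarith
        _ = p := one_mul _
    rw [hJd] at b5
    exact_mod_cast b5
  refine ⟨M, hs, ?_, hb, ?_⟩
  · by_contra! hc
    have c1 := Nat.lt_succ_sqrt p
    have c2 : 1 * (17 * p.sqrt * p.sqrt) ≤
        2 ^ (jordan m * M + 1) * (17 * ((jordan m * M + 1) * (m * M + m)) * p.sqrt) := by
      gcongr
      exact Nat.one_le_two_pow
    nlinarith
  · have c1 : (m : ℝ) ^ 2 * ((1 / 2 - δ) * L / J) =
        (m ^ 2 / (2 * J) - m ^ 2 * δ / J) * L := by field_simp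
    have c2 := mul_le_mul_of_nonneg_left M2.le (sq_nonneg (m : ℝ))
    have c3 := mul_le_mul_of_nonneg_right hδ2 (show 0 ≤ L by linarith)
    push_cast
    linarith

/-- The bound when the `m`-th roots of unity form a clique of squares. -/
theorem main_roots (m : ℕ) (hm : 0 < m) (ε : ℝ) (hε : 0 < ε) : ∃ p₀ : ℕ, ∀ p : ℕ, p.Prime →
    p % 4 = 1 → p₀ ≤ p → ∀ ζ : ZMod p, IsPrimitiveRoot ζ m → IsSquare ζ →
      (∀ a, 0 < a → a < m → IsSquare (1 - ζ ^ a)) →
      ∃ S : Finset (ZMod p), Admissible S ∧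
        ((m : ℝ) ^ 2 / (2 * jordan m) - ε) * Real.logb 2 p ≤ S.card := by
  obtain ⟨p₀, h⟩ := exists_level hm hε
  refine ⟨p₀, fun p hp h4 h0 ζ hζ hz h1 => ?_⟩
  have := Fact.mk hp
  obtain ⟨M, a1, a2, a3, a4⟩ := h p h0
  obtain ⟨S, b1, b2⟩ := core h4 a1 hm hζ
    ((quadraticChar_one_iff_isSquare (hζ.ne_zero hm.ne')).2 hz) (e := 1) (l := 1) rfl rfl
    (one_pow _) (by simp) (fun a c1 c2 => by
      simpa using (quadraticChar_one_iff_isSquare (sub_ne_zero.2
        (hζ.pow_ne_one_of_pos_of_lt c1.ne' c2).symm)).2 (h1 a c1 c2)) a2 a3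
  have b3 : ((m * (m * M) : ℕ) : ℝ) ≤ S.card + 2 := by exact_mod_cast b2
  exact ⟨S, b1, by linarith⟩

/-- The bound for primes congruent to one modulo 24. -/
theorem main_six (ε : ℝ) (hε : 0 < ε) : ∃ p₀ : ℕ, ∀ p : ℕ, p.Prime → p % 24 = 1 → p₀ ≤ p →
    ∃ S : Finset (ZMod p), Admissible S ∧ (3 / 4 - ε) * Real.logb 2 p ≤ S.card := by
  obtain ⟨p₀, h⟩ := exists_level (m := 6) (by norm_num) hε
  refine ⟨p₀, fun p hp h4 h0 => ?_⟩
  have := Fact.mk hp
  obtain ⟨M, a1, a2, a3, a4⟩ := h p h0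
  obtain ⟨g, hg⟩ := IsCyclic.exists_ofOrder_eq_natCard (α := (ZMod p)ˣ)
  rw [Nat.card_eq_fintype_card, ZMod.card_units] at hg
  obtain ⟨n, hn⟩ : ∃ n, p - 1 = n * 12 := ⟨(p - 1) / 12, by omega⟩
  have hη := (IsPrimitiveRoot.coe_units_iff.2 (hg ▸ IsPrimitiveRoot.orderOf g)).pow
    (Nat.sub_pos_of_lt hp.one_lt) hn
  generalize (g : ZMod p) ^ n = η at hη
  have hζ : IsPrimitiveRoot (η ^ 2) 6 := hη.pow (by norm_num) (by norm_num)
  have hz : quadraticChar (ZMod p) (η ^ 2) = 1 := quadraticChar_sq_one' (hη.ne_zero (by norm_num))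
  generalize η ^ 2 = ζ at hζ hz
  have h6 := hζ.pow_eq_one
  have h3 : ζ ^ 3 = -1 := (hζ.pow (by norm_num) (show 6 = 3 * 2 by norm_num)).eq_neg_one_of_two_right
  have h2 : 1 - ζ = -1 * ζ ^ 2 := by
    have c1 : ζ + 1 ≠ 0 := fun e => hζ.pow_ne_one_of_pos_of_lt (l := 2) (by norm_num) (by norm_num)
      (by linear_combination (ζ - 1) * e)
    exact mul_left_cancel₀ c1 (by linear_combination h3)
  have h1 : quadraticChar (ZMod p) (-1) = 1 :=
    (quadraticChar_one_iff_isSquare (by simp)).2 (ZMod.exists_sq_eq_neg_one_iff.2 (by omega))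
  have h8 : quadraticChar (ZMod p) (1 - ζ ^ 3) = 1 :=
    (quadraticChar_one_iff_isSquare (sub_ne_zero.2 (hζ.pow_ne_one_of_pos_of_lt (by norm_num)
      (by norm_num)).symm)).2 (by
        rw [h3, show (1 : ZMod p) - -1 = 2 by ring]
        exact (ZMod.exists_sq_eq_two_iff (by omega)).2 (by omega))
  have h9 : quadraticChar (ZMod p) (1 - ζ) = 1 := by rw [h2, map_mul, map_pow, h1, hz]; rfl
  have hc := quadraticChar_dichotomy (sub_ne_zero.2 (hζ.pow_ne_one_of_pos_of_lt (l := 2)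
    (by norm_num) (by norm_num)).symm)
  set c := quadraticChar (ZMod p) (1 - ζ ^ 2) with hcd
  obtain ⟨S, b1, b2⟩ := core (by omega) a1 (by norm_num) hζ hz (e := c) (l := c)
    (by rcases hc with e | e <;> simp [e]) (by rcases hc with e | e <;> simp [e])
    (by rcases hc with e | e <;> rw [e] <;> norm_num) (fun q k hq e => by
      have c1 : q ≤ 6 := Nat.le_of_dvd (by norm_num) (Dvd.intro_left _ e.symm)
      have c2 : q = 2 ∧ k = 3 ∨ q = 3 ∧ k = 2 := by
        interval_cases q <;> first | omega | exact absurd hq (by norm_num)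
      rcases c2 with ⟨rfl, rfl⟩ | ⟨rfl, rfl⟩ <;> rcases hc with e | e <;> rw [e] <;>
        norm_num [prod_range_succ]) (fun a c1 c2 => by
      have d4 : quadraticChar (ZMod p) (1 - ζ ^ 4) = c := by
        rw [show 1 - ζ ^ 4 = -1 * ζ ^ 4 * (1 - ζ ^ 2) by linear_combination -h6, map_mul, map_mul,
          map_pow, h1, hz, one_pow, one_mul, one_mul]
      have d5 : quadraticChar (ZMod p) (1 - ζ ^ 5) = 1 := by
        rw [show 1 - ζ ^ 5 = -1 * ζ ^ 5 * (1 - ζ) by linear_combination -h6, map_mul, map_mul,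
          map_pow, h1, hz, h9, one_pow, one_mul, one_mul]
      interval_cases a <;> simp only [pow_one, h9, ← hcd, h8, d4, d5] <;>
        rcases hc with e | e <;> rw [e] <;> norm_num) a2 a3
  have b3 : ((6 * (6 * M) : ℕ) : ℝ) ≤ S.card + 2 := by exact_mod_cast b2
  rw [show jordan 6 = 24 by decide] at a4
  refine ⟨S, b1, ?_⟩
  push_cast at a4 b3
  linarith

end Pool.Agent.Lib.MP_79fcf0_nt
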