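import Mathlib

/-! The Hanson-Petridis polynomial of a clique and its Taylor coefficients at the points. -/

namespace Pool.Agent.Lib.MP_79fcf0_nt.HP

open Polynomial Finset Lagrange

variable {K : Type*} [Field K]

/-- value of the `k`-th derivative -/
noncomputable def dv (b : K) (k : ℕ) (P : K[X]) : K := (derivative^[k] P).eval b

lemma dv_zero (b : K) (P : K[X]) : P.eval b = dv b 0 P := rfl

lemma dv_der (b : K) (k : ℕ) (P : K[X]) : dv b k (derivative P) = dv b (k + 1) P := by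
  rw [dv, dv, Function.iterate_succ_apply]

lemma dv_add (b : K) (k : ℕ) (P Q : K[X]) : dv b k (P + Q) = dv b k P + dv b k Q := by
  rw [dv, dv, dv, ← eval_add, iterate_map_add]

lemma dv_sub (b : K) (k : ℕ) (P Q : K[X]) : dv b k (P - Q) = dv b k P - dv b k Q := by
  rw [dv, dv, dv, ← eval_sub, iterate_map_sub]

lemma dv_C_mul (b : K) (k : ℕ) (c : K) (P : K[X]) : dv b k (C c * P) = c * dv b k P := by
  rw [dv, dv, iterate_derivative_C_mul, eval_mul, eval_C]

lemma dv_of_zero (b : K) (k : ℕ) : dv b k 0 = 0 := by simp [dv]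

lemma dv_mul (b : K) (k : ℕ) (P Q : K[X]) : dv b k (P * Q) =
    ∑ i ∈ range (k + 1), (k.choose i : K) * (dv b (k - i) P * dv b i Q) := by
  rw [dv, iterate_derivative_mul, eval_finsetSum]
  refine Finset.sum_congr rfl fun i _ => ?_
  rw [eval_smul, eval_mul, nsmul_eq_mul, dv, dv]

lemma dv_mul0 (b : K) (P Q : K[X]) : dv b 0 (P * Q) = dv b 0 P * dv b 0 Q := by
  simp [dv_mul]

lemma dv_mul1 (b : K) (P Q : K[X]) :
    dv b 1 (P * Q) = dv b 1 P * dv b 0 Q + dv b 0 P * dv b 1 Q := by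
  simp [dv_mul, Finset.sum_range_succ]

lemma dv_mul2 (b : K) (P Q : K[X]) : dv b 2 (P * Q) =
    dv b 2 P * dv b 0 Q + 2 * (dv b 1 P * dv b 1 Q) + dv b 0 P * dv b 2 Q := by
  simp [dv_mul, Finset.sum_range_succ]

lemma dv_mul3 (b : K) (P Q : K[X]) : dv b 3 (P * Q) = dv b 3 P * dv b 0 Q
    + 3 * (dv b 2 P * dv b 1 Q) + 3 * (dv b 1 P * dv b 2 Q) + dv b 0 P * dv b 3 Q := by
  simp [dv_mul, Finset.sum_range_succ, Nat.choose]

lemma dv_mul4 (b : K) (P Q : K[X]) : dv b 4 (P * Q) = dv b 4 P * dv b 0 Q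
    + 4 * (dv b 3 P * dv b 1 Q) + 6 * (dv b 2 P * dv b 2 Q) + 4 * (dv b 1 P * dv b 3 Q)
    + dv b 0 P * dv b 4 Q := by
  simp [dv_mul, Finset.sum_range_succ, Nat.choose]

lemma dv_mul5 (b : K) (P Q : K[X]) : dv b 5 (P * Q) = dv b 5 P * dv b 0 Q
    + 5 * (dv b 4 P * dv b 1 Q) + 10 * (dv b 3 P * dv b 2 Q) + 10 * (dv b 2 P * dv b 3 Q)
    + 5 * (dv b 1 P * dv b 4 Q) + dv b 0 P * dv b 5 Q := by
  simp [dv_mul, Finset.sum_range_succ, Nat.choose]

lemma dv_taylor (b : K) (k : ℕ) (P : K[X]) :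
    dv b k P = (k.factorial : K) * (taylor b P).coeff k := by
  rw [dv, taylor_coeff, ← factorial_smul_hasseDeriv, LinearMap.smul_apply, eval_smul, nsmul_eq_mul]

lemma taylor_lin (a b : K) : taylor a (X - C b) = X + C (a - b) := by
  rw [map_sub, taylor_X, taylor_C, C_sub]
  ring

variable [DecidableEq K]

lemma sum_pow {A : Finset K} (a : K) {n : ℕ} (hn : n < A.card) :
    ∑ b ∈ A, nodalWeight A id b * (a - b) ^ n = if n + 1 = A.card then (-1) ^ n else 0 := by
  have hdeg : (C ((-1 : K) ^ n) * (X - C a) ^ n).natDegree ≤ n :=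
    (natDegree_C_mul_le _ _).trans (natDegree_pow_le.trans (by rw [natDegree_X_sub_C, mul_one]))
  have h := coeff_eq_sum (s := A) (v := id) (Function.injective_id.injOn)
    (P := C ((-1 : K) ^ n) * (X - C a) ^ n)
    (degree_le_natDegree.trans_lt (by exact_mod_cast hdeg.trans_lt hn))
  have e : ∑ b ∈ A, nodalWeight A id b * (a - b) ^ n =
      (C ((-1 : K) ^ n) * (X - C a) ^ n).coeff (A.card - 1) := by
    rw [h]
    refine Finset.sum_congr rfl fun b _ => ?_
    rw [nodalWeight, Finset.prod_inv_distrib, eval_mul, eval_C, eval_pow, eval_sub, eval_X, eval_C,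
      ← mul_pow, div_eq_inv_mul]
    simp
  rw [e]
  split_ifs with h1
  · have hm : ((X - C a) ^ n).Monic := (monic_X_sub_C a).pow n
    have h2 : A.card - 1 = ((X - C a) ^ n).natDegree := by
      rw [natDegree_pow, natDegree_X_sub_C]; omega
    rw [coeff_C_mul, h2, hm.coeff_natDegree, mul_one]
  · exact coeff_eq_zero_of_natDegree_lt (by omega)

/-- the auxiliary polynomial -/
noncomputable def FF (A : Finset K) (d m : ℕ) : K[X] :=
  ∑ b ∈ A, C (nodalWeight A id b) * (X - C b) ^ (d + m) - C ((-1) ^ m)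

lemma FF_coeff (A : Finset K) (d m : ℕ) (a : K) (k : ℕ) : (taylor a (FF A d m)).coeff k =
    ((d + m).choose k : K) * ∑ b ∈ A, nodalWeight A id b * (a - b) ^ (d + m - k)
      - if k = 0 then (-1) ^ m else 0 := by
  rw [FF, map_sub, map_sum, coeff_sub, finsetSum_coeff, taylor_C, coeff_C, Finset.mul_sum]
  congr 1
  refine Finset.sum_congr rfl fun b _ => ?_
  rw [taylor_mul, taylor_C, taylor_pow, taylor_lin, coeff_C_mul, coeff_X_add_C_pow]
  ring

lemma choose_ne {p : ℕ} [Fact p.Prime] [CharP K p] {n k : ℕ} (hn : n < p) (hk : k ≤ n) :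
    (n.choose k : K) ≠ 0 := by
  rw [Ne, CharP.cast_eq_zero_iff K p]
  intro h
  have h2 : p ∣ n.factorial := by
    rw [← Nat.choose_mul_factorial_mul_factorial hk, mul_assoc]
    exact h.mul_right _
  have := (Nat.Prime.dvd_factorial Fact.out).1 h2
  omega

section
variable {A : Finset K} {d m : ℕ} (hm : A.card = m + 1) (hm1 : 1 ≤ m) (hd : 1 ≤ d)
  (hA : ∀ a ∈ A, ∀ b ∈ A, a ≠ b → (a - b) ^ d = 1)
include hm hm1 hd

lemma FF_deg {p : ℕ} [Fact p.Prime] [CharP K p] (hp : d + m < p) :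
    FF A d m ≠ 0 ∧ (FF A d m).natDegree = d := by
  have h1 : (FF A d m).coeff d ≠ 0 := by
    have := FF_coeff A d m 0 d
    rw [taylor_zero, sum_pow 0 (by omega), if_pos (by omega), if_neg (by omega), sub_zero] at this
    rw [this]
    exact mul_ne_zero (choose_ne hp (by omega)) (pow_ne_zero _ (neg_ne_zero.2 one_ne_zero))
  refine ⟨fun h => h1 (by rw [h, coeff_zero]), le_antisymm ?_ (le_natDegree_of_ne_zero h1)⟩
  refine natDegree_le_iff_coeff_eq_zero.2 fun k hk => ?_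
  have := FF_coeff A d m 0 k
  rw [taylor_zero, sum_pow 0 (by omega), if_neg (by omega), if_neg (by omega)] at this
  rw [this]
  simp

include hA

lemma FF_low {a : K} (ha : a ∈ A) {k : ℕ} (hk : k < m) : (taylor a (FF A d m)).coeff k = 0 := by
  have e : ∑ b ∈ A, nodalWeight A id b * (a - b) ^ (d + m - k) =
      ∑ b ∈ A, nodalWeight A id b * (a - b) ^ (m - k) := by
    refine Finset.sum_congr rfl fun b hb => ?_
    by_cases h : a = b
    · rw [h, sub_self, zero_pow (by omega), zero_pow (by omega)]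
    · rw [show d + m - k = d + (m - k) by omega, pow_add, hA a ha b hb h, one_mul]
  rw [FF_coeff, e, sum_pow a (by omega)]
  rcases Nat.eq_zero_or_pos k with rfl | h0
  · rw [if_pos (by omega), if_pos rfl]
    simp
  · rw [if_neg (by omega), if_neg (by omega)]
    simp

lemma FF_dvd : nodal A id ^ m ∣ FF A d m := by
  rw [nodal_eq, ← Finset.prod_pow]
  refine Finset.prod_dvd_of_coprime (fun a _ b _ hab => ?_) fun a ha => ?_
  · exact (pairwise_coprime_X_sub_C (K := K) Function.injective_id hab).pow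
  · rw [X_sub_C_pow_dvd_iff, X_pow_dvd_iff]
    intro k hk
    rw [← taylor_apply]
    exact FF_low hm hm1 hd hA ha hk

lemma FF_high {a : K} (ha : a ∈ A) {j : ℕ} (hj : j < d) :
    (taylor a (FF A d m)).coeff (m + j) = ((d + m).choose (m + j) : K) *
      ∑ b ∈ A.erase a, nodalWeight A id b * (a - b)⁻¹ ^ j := by
  rw [FF_coeff, if_neg (by omega), sub_zero, ← Finset.add_sum_erase _ _ ha, sub_self,
    zero_pow (by omega), mul_zero, zero_add]
  congr 1
  refine Finset.sum_congr rfl fun b hb => ?_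
  have hne : a ≠ b := (Finset.ne_of_mem_erase hb).symm
  have h0 : a - b ≠ 0 := sub_ne_zero.2 hne
  have h1 := hA a ha b (Finset.mem_of_mem_erase hb) hne
  congr 1
  rw [inv_pow]
  refine eq_inv_of_mul_eq_one_left ?_
  rw [← pow_add, show d + m - (m + j) + j = d by omega, h1]

end

/-- the power series inverse of the cofactor, to order five -/
lemma inv_series {A : Finset K} {a : K} (ha : a ∈ A) {σ : ℕ → K}
    (hσ : ∀ j, σ j = ∑ b ∈ A.erase a, nodalWeight A id b * (a - b)⁻¹ ^ j) : ∃ Ω : K[X],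
    taylor a (nodal (A.erase a) id) * (C (nodalWeight A id a) + C (σ 1) * X - C (σ 2) * X ^ 2
      + C (σ 3) * X ^ 3 - C (σ 4) * X ^ 4 + C (σ 5) * X ^ 5) = 1 + X ^ 6 * Ω := by
  have h1 : ∑ b ∈ A, C (nodalWeight A id b) * nodal (A.erase b) id = (1 : K[X]) := by
    rw [← sum_basis (s := A) (v := id) Function.injective_id.injOn ⟨a, ha⟩]
    refine Finset.sum_congr rfl fun b hb => ?_
    rw [basis_eq_prod_sub_inv_mul_nodal_div hb, nodal_erase_eq_nodal_div hb]
  have h2 := congrArg (taylor a) h1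
  rw [← Finset.add_sum_erase _ _ ha, map_add, map_sum, taylor_mul, taylor_C, taylor_one, C_1] at h2
  obtain ⟨φ, hφ⟩ : ∃ φ, φ = taylor a (nodal (A.erase a) id) := ⟨_, rfl⟩
  obtain ⟨ψ, hψ⟩ : ∃ ψ : K → K[X], ∀ b, ψ b = taylor a (nodal ((A.erase a).erase b) id) :=
    ⟨_, fun _ => rfl⟩
  have h3 : ∀ b ∈ A.erase a, φ = (X + C (a - b)) * ψ b := fun b hb => by
    rw [hφ, hψ, nodal_eq_mul_nodal_erase hb, taylor_mul, id, taylor_lin]
  have h4 : ∀ b ∈ A.erase a, taylor a (C (nodalWeight A id b) * nodal (A.erase b) id) =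
      C (nodalWeight A id b) * (X * ψ b) := fun b hb => by
    have : a ∈ A.erase b := Finset.mem_erase.2 ⟨(Finset.ne_of_mem_erase hb).symm, ha⟩
    rw [taylor_mul, taylor_C, nodal_eq_mul_nodal_erase this, taylor_mul, id, taylor_lin, sub_self,
      C_0, add_zero, Finset.erase_right_comm, hψ]
  rw [Finset.sum_congr rfl h4, ← hφ] at h2
  refine ⟨∑ b ∈ A.erase a, C (nodalWeight A id b * (a - b)⁻¹ ^ 5) * ψ b, ?_⟩
  have h5 : ∀ b ∈ A.erase a, φ * (C (nodalWeight A id b * (a - b)⁻¹ ^ 1) * X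
      - C (nodalWeight A id b * (a - b)⁻¹ ^ 2) * X ^ 2
      + C (nodalWeight A id b * (a - b)⁻¹ ^ 3) * X ^ 3
      - C (nodalWeight A id b * (a - b)⁻¹ ^ 4) * X ^ 4
      + C (nodalWeight A id b * (a - b)⁻¹ ^ 5) * X ^ 5) = C (nodalWeight A id b) * (X * ψ b)
        + X ^ 6 * (C (nodalWeight A id b * (a - b)⁻¹ ^ 5) * ψ b) := fun b hb => by
    have h0 : a - b ≠ 0 := sub_ne_zero.2 (Finset.ne_of_mem_erase hb).symm
    have h6 : C (a - b) * C (a - b)⁻¹ = 1 := by rw [← C_mul, mul_inv_cancel₀ h0, C_1]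
    rw [h3 b hb]
    simp only [C_mul, C_pow]
    generalize C (a - b) = u at h6 ⊢
    generalize C (a - b)⁻¹ = v at h6 ⊢
    linear_combination (C (nodalWeight A id b) * ψ b *
      (X - v * X ^ 2 + v ^ 2 * X ^ 3 - v ^ 3 * X ^ 4 + v ^ 4 * X ^ 5)) * h6
  have h7 := Finset.sum_congr rfl h5
  rw [← Finset.mul_sum, Finset.sum_add_distrib, Finset.sum_add_distrib, Finset.sum_sub_distrib,
    Finset.sum_add_distrib, Finset.sum_sub_distrib, ← Finset.sum_mul, ← Finset.sum_mul,
    ← Finset.sum_mul, ← Finset.sum_mul, ← Finset.sum_mul, ← map_sum, ← map_sum, ← map_sum,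
    ← map_sum, ← map_sum, ← hσ, ← hσ, ← hσ, ← hσ, ← hσ, ← Finset.mul_sum _ _ (X ^ 6)] at h7
  rw [← hφ]
  linear_combination h7 + h2

end Pool.Agent.Lib.MP_79fcf0_nt.HP
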