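import Pool.Agent.Lib.MP_79fcf0_nt.HPa

/-! Jets of the two factors at a point of the clique. -/

namespace Pool.Agent.Lib.MP_79fcf0_nt.HP

open Polynomial Finset Lagrange

variable {K : Type*} [Field K]

/-- the jets of `f` and `g` at `b` in terms of five free parameters -/
structure Jet (a b : K) (f g : K[X]) (φ0 g0 x y2 y3 y4 y5 : K) : Prop where
  hφ : φ0 ≠ 0
  hg : g0 ≠ 0
  f0 : dv b 0 f = 0
  f1 : dv b 1 f = φ0
  f2 : dv b 2 f = φ0 * ((-4 * a) * x)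
  f3 : dv b 3 f = φ0 * ((-12 * a ^ 2 - 12 * a) * y2 + (12 * a ^ 2 - 12 * a) * x ^ 2)
  f4 : dv b 4 f = φ0 * ((-32 * a ^ 3 - 96 * a ^ 2 - 64 * a) * y3 + (96 * a ^ 3 - 96 * a ^ 2 -
    192 * a) * x * y2 + (-32 * a ^ 3 + 96 * a ^ 2 - 64 * a) * x ^ 3)
  f5 : dv b 5 f = φ0 * ((-80 * a ^ 4 - 480 * a ^ 3 - 880 * a ^ 2 - 480 * a) * y4 + (480 * a ^ 4
    + 960 * a ^ 3 + 480 * a ^ 2) * y2 ^ 2 + (320 * a ^ 4 - 2240 * a ^ 2 - 1920 * a) * x * y3 +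
    (-480 * a ^ 4 + 1920 * a ^ 3 - 480 * a ^ 2 - 2880 * a) * x ^ 2 * y2 + (80 * a ^ 4 - 480 * a ^
    3 + 880 * a ^ 2 - 480 * a) * x ^ 4)
  f6 : dv b 6 f = φ0 * ((-192 * a ^ 5 - 1920 * a ^ 4 - 6720 * a ^ 3 - 9600 * a ^ 2 - 4608 * a) *
    y5 + (3840 * a ^ 5 + 15360 * a ^ 4 + 19200 * a ^ 3 + 7680 * a ^ 2) * y2 * y3 + (960 * a ^ 5 +
    1920 * a ^ 4 - 12480 * a ^ 3 - 36480 * a ^ 2 - 23040 * a) * x * y4 + (-5760 * a ^ 5 + 11520 *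
    a ^ 4 + 40320 * a ^ 3 + 23040 * a ^ 2) * x * y2 ^ 2 + (-1920 * a ^ 5 + 7680 * a ^ 4 + 13440 *
    a ^ 3 - 42240 * a ^ 2 - 46080 * a) * x ^ 2 * y3 + (1920 * a ^ 5 - 15360 * a ^ 4 + 32640 * a ^
    3 + 3840 * a ^ 2 - 46080 * a) * x ^ 3 * y2 + (-192 * a ^ 5 + 1920 * a ^ 4 - 6720 * a ^ 3 +
    9600 * a ^ 2 - 4608 * a) * x ^ 5)
  q0 : dv b 0 g = g0
  q1 : dv b 1 g = g0 * ((2 * a ^ 2 - 2 * a + 1) * x)
  q2 : dv b 2 g = g0 * ((4 * a ^ 3 - 4 * a + 3) * y2 + (4 * a ^ 4 - 8 * a ^ 3 + 12 * a ^ 2 - 8 *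
    a + 3) * x ^ 2)
  q3 : dv b 3 g = g0 * ((8 * a ^ 4 + 16 * a ^ 3 - 8 * a ^ 2 - 16 * a + 15) * y3 + (24 * a ^ 5 -
    24 * a ^ 4 + 36 * a ^ 3 + 42 * a ^ 2 - 78 * a + 45) * x * y2 + (8 * a ^ 6 - 24 * a ^ 5 + 60 *
    a ^ 4 - 80 * a ^ 3 + 82 * a ^ 2 - 46 * a + 15) * x ^ 3)
  q4 : dv b 4 g = g0 * ((16 * a ^ 5 + 80 * a ^ 4 + 80 * a ^ 3 - 80 * a ^ 2 - 96 * a + 105) * y4
    + (48 * a ^ 6 - 48 * a ^ 5 - 144 * a ^ 4 + 120 * a ^ 3 + 96 * a ^ 2 - 72 * a) * y2 ^ 2 + (64 *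
    a ^ 6 + 64 * a ^ 5 + 32 * a ^ 4 + 384 * a ^ 3 + 24 * a ^ 2 - 568 * a + 420) * x * y3 + (96 * a
    ^ 7 - 192 * a ^ 6 + 576 * a ^ 5 - 312 * a ^ 4 + 24 * a ^ 3 + 1080 * a ^ 2 - 1272 * a + 630) *
    x ^ 2 * y2 + (16 * a ^ 8 - 64 * a ^ 7 + 224 * a ^ 6 - 448 * a ^ 5 + 744 * a ^ 4 - 816 * a ^ 3
    + 696 * a ^ 2 - 352 * a + 105) * x ^ 4)
  q5 : dv b 5 g = g0 * ((32 * a ^ 6 + 288 * a ^ 5 + 800 * a ^ 4 + 480 * a ^ 3 - 832 * a ^ 2 -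
    768 * a + 945) * y5 + (320 * a ^ 7 + 320 * a ^ 6 - 1600 * a ^ 5 - 1360 * a ^ 4 + 2360 * a ^ 3
    + 1040 * a ^ 2 - 1080 * a) * y2 * y3 + (160 * a ^ 7 + 640 * a ^ 6 + 720 * a ^ 5 + 2000 * a ^ 4
    + 3440 * a ^ 3 - 1590 * a ^ 2 - 5370 * a + 4725) * x * y4 + (480 * a ^ 8 - 960 * a ^ 7 + 1200
    * a ^ 6 + 480 * a ^ 5 - 6720 * a ^ 4 + 3720 * a ^ 3 + 5040 * a ^ 2 - 3240 * a) * x * y2 ^ 2 +
    (320 * a ^ 8 + 1280 * a ^ 6 + 3200 * a ^ 5 - 1080 * a ^ 4 + 5680 * a ^ 3 + 5480 * a ^ 2 -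
    14880 * a + 9450) * x ^ 2 * y3 + (320 * a ^ 9 - 960 * a ^ 8 + 4000 * a ^ 7 - 5840 * a ^ 6 +
    9760 * a ^ 5 - 1160 * a ^ 4 - 7480 * a ^ 3 + 22540 * a ^ 2 - 21180 * a + 9450) * x ^ 3 * y2 +
    (32 * a ^ 10 - 160 * a ^ 9 + 720 * a ^ 8 - 1920 * a ^ 7 + 4400 * a ^ 6 - 7152 * a ^ 5 + 9720 *
    a ^ 4 - 9440 * a ^ 3 + 7178 * a ^ 2 - 3378 * a + 945) * x ^ 5)

def Loc (a b : K) (f g : K[X]) : Prop := ∃ φ0 g0 x y2 y3 y4 y5, Jet a b f g φ0 g0 x y2 y3 y4 y5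

lemma dv_lin_mul (b : K) (k : ℕ) (P : K[X]) :
    dv b (k + 1) ((X - C b) * P) = (k + 1) * dv b k P := by
  rw [dv_taylor, dv_taylor, taylor_mul, taylor_lin, sub_self, C_0, add_zero, coeff_X_mul,
    Nat.factorial_succ]
  push_cast
  ring

lemma dv_taylor0 (b : K) (k : ℕ) (P : K[X]) : dv 0 k (taylor b P) = dv b k P := by
  rw [dv_taylor, dv_taylor, taylor_zero]

lemma loc_of {a b : K} {φ g Φ τ Ω : K[X]} {t0 Φ0 X1 X2 X3 X4 X5 : K} (hΦ0 : Φ0 ≠ 0)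
    (hτ : taylor b φ * τ = 1 + X ^ 6 * Ω) (τ0 : dv 0 0 τ = t0) (τ1 : dv 0 1 τ = t0 * (2 * a) * X1)
    (τ2 : dv 0 2 τ = t0 * (4 * a * (a + 1)) * X2)
    (τ3 : dv 0 3 τ = t0 * (8 * a * (a + 1) * (a + 2)) * X3)
    (τ4 : dv 0 4 τ = t0 * (16 * a * (a + 1) * (a + 2) * (a + 3)) * X4)
    (τ5 : dv 0 5 τ = t0 * (32 * a * (a + 1) * (a + 2) * (a + 3) * (a + 4)) * X5)
    (P0 : dv b 0 Φ = Φ0) (P1 : dv b 1 Φ = Φ0 * X1) (P2 : dv b 2 Φ = Φ0 * 3 * X2)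
    (P3 : dv b 3 Φ = Φ0 * 15 * X3) (P4 : dv b 4 Φ = Φ0 * 105 * X4)
    (P5 : dv b 5 Φ = Φ0 * 945 * X5) (hg : dv b 0 g ≠ 0)
    (hid : derivative Φ * φ * g = Φ * (C (a - 1) * (derivative φ * g) + φ * derivative g)) :
    Loc a b ((X - C b) * φ) g := by
  obtain ⟨x, rfl⟩ : ∃ x, X1 = x := ⟨_, rfl⟩
  obtain ⟨y2, rfl⟩ : ∃ y2, X2 = y2 + X1 ^ 2 := ⟨X2 - X1 ^ 2, by ring⟩
  obtain ⟨y3, rfl⟩ : ∃ y3, X3 = y3 + 3 * X1 * y2 + X1 ^ 3 := ⟨X3 - 3 * X1 * y2 - X1 ^ 3, by ring⟩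
  obtain ⟨y4, rfl⟩ : ∃ y4, X4 = y4 + 4 * X1 * y3 + 6 * X1 ^ 2 * y2 + X1 ^ 4 :=
    ⟨X4 - 4 * X1 * y3 - 6 * X1 ^ 2 * y2 - X1 ^ 4, by ring⟩
  obtain ⟨y5, rfl⟩ : ∃ y5, X5 = y5 + 5 * X1 * y4 + 10 * X1 ^ 2 * y3 + 10 * X1 ^ 3 * y2 + X1 ^ 5 :=
    ⟨X5 - 5 * X1 * y4 - 10 * X1 ^ 2 * y3 - 10 * X1 ^ 3 * y2 - X1 ^ 5, by ring⟩
  generalize X1 = x at *
  have hr : ∀ k, k < 6 → dv 0 k (taylor b φ * τ) = if k = 0 then 1 else 0 := fun k hk => by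
    rw [hτ, dv_taylor, taylor_zero, coeff_add, coeff_X_pow_mul', if_neg (by omega), add_zero,
      coeff_one]
    split_ifs with h
    · simp [h]
    · simp
  obtain ⟨φ0, p0⟩ : ∃ φ0, dv b 0 φ = φ0 := ⟨_, rfl⟩
  obtain ⟨g0, q0⟩ : ∃ g0, dv b 0 g = g0 := ⟨_, rfl⟩
  have e0 := hr 0 (by norm_num)
  rw [dv_mul0, dv_taylor0, τ0, p0, if_pos rfl] at e0
  have hφ : φ0 ≠ 0 := left_ne_zero_of_mul_eq_one e0
  have ht : t0 ≠ 0 := right_ne_zero_of_mul_eq_one e0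
  have p1 : dv b 1 φ = φ0 * ((-2 * a) * x) := by
    have e := hr 1 (by norm_num)
    rw [dv_mul1, if_neg (by norm_num)] at e
    simp only [dv_taylor0, τ0, τ1, p0] at e
    apply mul_left_cancel₀ ht
    linear_combination e
  have p2 : dv b 2 φ = φ0 * ((-4 * a ^ 2 - 4 * a) * y2 + (4 * a ^ 2 - 4 * a) * x ^ 2) := by
    have e := hr 2 (by norm_num)
    rw [dv_mul2, if_neg (by norm_num)] at e
    simp only [dv_taylor0, τ0, τ1, τ2, p0, p1] at e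
    apply mul_left_cancel₀ ht
    linear_combination e
  have p3 : dv b 3 φ = φ0 * ((-8 * a ^ 3 - 24 * a ^ 2 - 16 * a) * y3 + (24 * a ^ 3 - 24 * a ^
      2 - 48 * a) * x * y2 + (-8 * a ^ 3 + 24 * a ^ 2 - 16 * a) * x ^ 3) := by
    have e := hr 3 (by norm_num)
    rw [dv_mul3, if_neg (by norm_num)] at e
    simp only [dv_taylor0, τ0, τ1, τ2, τ3, p0, p1, p2] at e
    apply mul_left_cancel₀ ht
    linear_combination e
  have p4 : dv b 4 φ = φ0 * ((-16 * a ^ 4 - 96 * a ^ 3 - 176 * a ^ 2 - 96 * a) * y4 + (96 * a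
      ^ 4 + 192 * a ^ 3 + 96 * a ^ 2) * y2 ^ 2 + (64 * a ^ 4 - 448 * a ^ 2 - 384 * a) * x * y3 +
      (-96 * a ^ 4 + 384 * a ^ 3 - 96 * a ^ 2 - 576 * a) * x ^ 2 * y2 + (16 * a ^ 4 - 96 * a ^ 3 +
      176 * a ^ 2 - 96 * a) * x ^ 4) := by
    have e := hr 4 (by norm_num)
    rw [dv_mul4, if_neg (by norm_num)] at e
    simp only [dv_taylor0, τ0, τ1, τ2, τ3, τ4, p0, p1, p2, p3] at e
    apply mul_left_cancel₀ ht
    linear_combination e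
  have p5 : dv b 5 φ = φ0 * ((-32 * a ^ 5 - 320 * a ^ 4 - 1120 * a ^ 3 - 1600 * a ^ 2 - 768 *
      a) * y5 + (640 * a ^ 5 + 2560 * a ^ 4 + 3200 * a ^ 3 + 1280 * a ^ 2) * y2 * y3 + (160 * a ^
      5 + 320 * a ^ 4 - 2080 * a ^ 3 - 6080 * a ^ 2 - 3840 * a) * x * y4 + (-960 * a ^ 5 + 1920 *
      a ^ 4 + 6720 * a ^ 3 + 3840 * a ^ 2) * x * y2 ^ 2 + (-320 * a ^ 5 + 1280 * a ^ 4 + 2240 * a
      ^ 3 - 7040 * a ^ 2 - 7680 * a) * x ^ 2 * y3 + (320 * a ^ 5 - 2560 * a ^ 4 + 5440 * a ^ 3 +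
      640 * a ^ 2 - 7680 * a) * x ^ 3 * y2 + (-32 * a ^ 5 + 320 * a ^ 4 - 1120 * a ^ 3 + 1600 * a
      ^ 2 - 768 * a) * x ^ 5) := by
    have e := hr 5 (by norm_num)
    rw [dv_mul5, if_neg (by norm_num)] at e
    simp only [dv_taylor0, τ0, τ1, τ2, τ3, τ4, τ5, p0, p1, p2, p3, p4] at e
    apply mul_left_cancel₀ ht
    linear_combination e
  have q1 : dv b 1 g = g0 * ((2 * a ^ 2 - 2 * a + 1) * x) := by
    have e := congrArg (dv b 0) hid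
    simp only [dv_mul0, dv_add, dv_C_mul, dv_der, Nat.reduceAdd] at e
    simp only [P0, P1, p0, p1,
      q0] at e
    apply mul_left_cancel₀ (mul_ne_zero hΦ0 hφ)
    linear_combination -e
  have q2 : dv b 2 g = g0 * ((4 * a ^ 3 - 4 * a + 3) * y2 + (4 * a ^ 4 - 8 * a ^ 3 + 12 * a ^
      2 - 8 * a + 3) * x ^ 2) := by
    have e := congrArg (dv b 1) hid
    simp only [dv_mul0, dv_mul1, dv_add, dv_C_mul, dv_der, Nat.reduceAdd] at e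
    simp only [P0, P1, P2, p0, p1, p2,
      q0, q1] at e
    apply mul_left_cancel₀ (mul_ne_zero hΦ0 hφ)
    linear_combination -e
  have q3 : dv b 3 g = g0 * ((8 * a ^ 4 + 16 * a ^ 3 - 8 * a ^ 2 - 16 * a + 15) * y3 + (24 * a
      ^ 5 - 24 * a ^ 4 + 36 * a ^ 3 + 42 * a ^ 2 - 78 * a + 45) * x * y2 + (8 * a ^ 6 - 24 * a ^ 5
      + 60 * a ^ 4 - 80 * a ^ 3 + 82 * a ^ 2 - 46 * a + 15) * x ^ 3) := by
    have e := congrArg (dv b 2) hid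
    simp only [dv_mul0, dv_mul1, dv_mul2, dv_add, dv_C_mul, dv_der, Nat.reduceAdd] at e
    simp only [P0, P1, P2, P3, p0, p1, p2, p3,
      q0, q1, q2] at e
    apply mul_left_cancel₀ (mul_ne_zero hΦ0 hφ)
    linear_combination -e
  have q4 : dv b 4 g = g0 * ((16 * a ^ 5 + 80 * a ^ 4 + 80 * a ^ 3 - 80 * a ^ 2 - 96 * a +
      105) * y4 + (48 * a ^ 6 - 48 * a ^ 5 - 144 * a ^ 4 + 120 * a ^ 3 + 96 * a ^ 2 - 72 * a) * y2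
      ^ 2 + (64 * a ^ 6 + 64 * a ^ 5 + 32 * a ^ 4 + 384 * a ^ 3 + 24 * a ^ 2 - 568 * a + 420) * x
      * y3 + (96 * a ^ 7 - 192 * a ^ 6 + 576 * a ^ 5 - 312 * a ^ 4 + 24 * a ^ 3 + 1080 * a ^ 2 -
      1272 * a + 630) * x ^ 2 * y2 + (16 * a ^ 8 - 64 * a ^ 7 + 224 * a ^ 6 - 448 * a ^ 5 + 744 *
      a ^ 4 - 816 * a ^ 3 + 696 * a ^ 2 - 352 * a + 105) * x ^ 4) := by
    have e := congrArg (dv b 3) hid
    simp only [dv_mul0, dv_mul1, dv_mul2, dv_mul3, dv_add, dv_C_mul, dv_der, Nat.reduceAdd] at e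
    simp only [P0, P1, P2, P3, P4, p0, p1, p2, p3, p4,
      q0, q1, q2, q3] at e
    apply mul_left_cancel₀ (mul_ne_zero hΦ0 hφ)
    linear_combination -e
  have q5 : dv b 5 g = g0 * ((32 * a ^ 6 + 288 * a ^ 5 + 800 * a ^ 4 + 480 * a ^ 3 - 832 * a ^
      2 - 768 * a + 945) * y5 + (320 * a ^ 7 + 320 * a ^ 6 - 1600 * a ^ 5 - 1360 * a ^ 4 + 2360 *
      a ^ 3 + 1040 * a ^ 2 - 1080 * a) * y2 * y3 + (160 * a ^ 7 + 640 * a ^ 6 + 720 * a ^ 5 + 2000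
      * a ^ 4 + 3440 * a ^ 3 - 1590 * a ^ 2 - 5370 * a + 4725) * x * y4 + (480 * a ^ 8 - 960 * a ^
      7 + 1200 * a ^ 6 + 480 * a ^ 5 - 6720 * a ^ 4 + 3720 * a ^ 3 + 5040 * a ^ 2 - 3240 * a) * x
      * y2 ^ 2 + (320 * a ^ 8 + 1280 * a ^ 6 + 3200 * a ^ 5 - 1080 * a ^ 4 + 5680 * a ^ 3 + 5480 *
      a ^ 2 - 14880 * a + 9450) * x ^ 2 * y3 + (320 * a ^ 9 - 960 * a ^ 8 + 4000 * a ^ 7 - 5840 *
      a ^ 6 + 9760 * a ^ 5 - 1160 * a ^ 4 - 7480 * a ^ 3 + 22540 * a ^ 2 - 21180 * a + 9450) * x ^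
      3 * y2 + (32 * a ^ 10 - 160 * a ^ 9 + 720 * a ^ 8 - 1920 * a ^ 7 + 4400 * a ^ 6 - 7152 * a ^
      5 + 9720 * a ^ 4 - 9440 * a ^ 3 + 7178 * a ^ 2 - 3378 * a + 945) * x ^ 5) := by
    have e := congrArg (dv b 4) hid
    simp only [dv_mul0, dv_mul1, dv_mul2, dv_mul3, dv_mul4, dv_add, dv_C_mul, dv_der, Nat.reduceAdd] at e
    simp only [P0, P1, P2, P3, P4, P5, p0, p1, p2, p3, p4, p5,
      q0, q1, q2, q3, q4] at e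
    apply mul_left_cancel₀ (mul_ne_zero hΦ0 hφ)
    linear_combination -e
  refine ⟨φ0, g0, x, y2, y3, y4, y5, hφ, q0 ▸ hg, by simp [dv], ?_, ?_, ?_, ?_, ?_, ?_, q0, q1, q2,
    q3, q4, q5⟩
  · rw [dv_lin_mul b 0, p0]; simp
  · rw [dv_lin_mul b 1, p1]; push_cast; ring
  · rw [dv_lin_mul b 2, p2]; push_cast; ring
  · rw [dv_lin_mul b 3, p3]; push_cast; ring
  · rw [dv_lin_mul b 4, p4]; push_cast; ring
  · rw [dv_lin_mul b 5, p5]; push_cast; ring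

variable [DecidableEq K]

lemma loc {p : ℕ} [Fact p.Prime] [CharP K p] {A : Finset K} {d m : ℕ} (hm : A.card = m + 1)
    (hm1 : 1 ≤ m) (hd : 6 ≤ d) (hA : ∀ a ∈ A, ∀ b ∈ A, a ≠ b → (a - b) ^ d = 1)
    (hp : p = 2 * d + 1) (hmd : m ≤ d) (hm5 : m + 5 < p) {g : K[X]}
    (hF : FF A d m = nodal A id ^ m * g) {b : K} (hb : b ∈ A) :
    Loc ((m + 1 : ℕ) : K) b (nodal A id) g := by
  have nz : ∀ n : ℕ, 0 < n → n < p → (n : K) ≠ 0 := fun n h1 h2 h => by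
    have := Nat.le_of_dvd h1 ((CharP.cast_eq_zero_iff K p n).1 h)
    omega
  obtain ⟨a, ha⟩ : ∃ a : K, a = ((m + 1 : ℕ) : K) := ⟨_, rfl⟩
  have az : ∀ j : ℕ, j ≤ 4 → a + j ≠ 0 := fun j hj => by
    rw [ha, ← Nat.cast_add]
    exact nz _ (by omega) (by omega)
  have a0 : a ≠ 0 := by simpa using az 0 (by norm_num)
  have a1 : a + 1 ≠ 0 := by simpa using az 1 (by norm_num)
  have a2 : a + 2 ≠ 0 := by simpa using az 2 (by norm_num)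
  have a3 : a + 3 ≠ 0 := by simpa using az 3 (by norm_num)
  have a4 : a + 4 ≠ 0 := by simpa using az 4 (by norm_num)
  have h2 : (2 : K) ≠ 0 := by simpa using nz 2 (by norm_num) (by omega)
  have hdK : 2 * (d : K) + 1 = 0 := by
    have := CharP.cast_eq_zero K p
    rw [hp] at this
    exact_mod_cast this
  rw [← ha, nodal_eq_mul_nodal_erase hb, id]
  obtain ⟨φ, hφ⟩ : ∃ φ, φ = nodal (A.erase b) id := ⟨_, rfl⟩
  obtain ⟨σ, hσ⟩ : ∃ σ : ℕ → K, ∀ j, σ j = ∑ c ∈ A.erase b, nodalWeight A id c * (b - c)⁻¹ ^ j :=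
    ⟨_, fun _ => rfl⟩
  obtain ⟨Ω, hΩ⟩ := inv_series hb hσ
  obtain ⟨t0, ht0⟩ : ∃ t0, t0 = nodalWeight A id b := ⟨_, rfl⟩
  have ht : t0 ≠ 0 := ht0 ▸ nodalWeight_ne_zero Function.injective_id.injOn hb
  have s0 : σ 0 = -t0 := by
    have := sum_pow (A := A) b (n := 0) (by omega)
    rw [if_neg (by omega), ← Finset.add_sum_erase _ _ hb] at this
    rw [hσ, ht0]
    simp only [pow_zero] at this ⊢
    linear_combination this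
  obtain ⟨B, hB⟩ : ∃ B : ℕ → K, ∀ j, B j = ((d + m).choose (m + j) : K) := ⟨_, fun _ => rfl⟩
  have B0 : B 0 ≠ 0 := by rw [hB]; exact choose_ne (p := p) (by omega) (by omega)
  have Br : ∀ j : ℕ, j ≤ 4 → B (j + 1) * (2 * (a + j)) = -(2 * j + 1) * B j := fun j hj => by
    have h := congrArg (Nat.cast : ℕ → K) (Nat.choose_succ_right_eq (d + m) (m + j))
    rw [show d + m - (m + j) = d - j by omega] at h
    rw [hB, hB, ha]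
    push_cast [show j ≤ d by omega, ← add_assoc] at h ⊢
    linear_combination 2 * h + ((d + m).choose (m + j) : K) * hdK
  have hΦ : ∀ j, j < d → dv b j (φ ^ m * g) = (j.factorial : K) * (B j * σ j) := fun j hj => by
    have h := FF_high hm hm1 (by omega) hA hb hj
    rw [hF, nodal_eq_mul_nodal_erase hb, id, ← hφ, mul_pow, mul_assoc, taylor_mul, taylor_pow,
      taylor_lin, sub_self, C_0, add_zero, add_comm m j, coeff_X_pow_mul, add_comm j m] at h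
    rw [dv_taylor, h, hB, hσ]
  have r0 := Br 0 (by norm_num)
  have r1 := Br 1 (by norm_num)
  have r2 := Br 2 (by norm_num)
  have r3 := Br 3 (by norm_num)
  have r4 := Br 4 (by norm_num)
  push_cast at r0 r1 r2 r3 r4
  have ex : ∀ u v : K, v ≠ 0 → ∃ z, u = v * z := fun u v hv => ⟨v⁻¹ * u, by field_simp⟩
  have n1 : 2 * a ≠ 0 := mul_ne_zero h2 a0
  have n2 : 2 * (a + 1) ≠ 0 := mul_ne_zero h2 a1
  have n3 : 2 * (a + 2) ≠ 0 := mul_ne_zero h2 a2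
  have n4 : 2 * (a + 3) ≠ 0 := mul_ne_zero h2 a3
  have n5 : 2 * (a + 4) ≠ 0 := mul_ne_zero h2 a4
  have m2 := mul_ne_zero n1 n2
  have m3 := mul_ne_zero m2 n3
  have m4 := mul_ne_zero m3 n4
  have m5 := mul_ne_zero m4 n5
  obtain ⟨X1, x1⟩ := ex (σ 1) _ (mul_ne_zero ht n1)
  obtain ⟨X2, x2⟩ := ex (-2 * σ 2) _ (mul_ne_zero ht m2)
  obtain ⟨X3, x3⟩ := ex (6 * σ 3) _ (mul_ne_zero ht m3)
  obtain ⟨X4, x4⟩ := ex (-24 * σ 4) _ (mul_ne_zero ht m4)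
  obtain ⟨X5, x5⟩ := ex (120 * σ 5) _ (mul_ne_zero ht m5)
  have b1 : B 1 * (2 * a) = -B 0 := by linear_combination r0
  have b2 : B 2 * (2 * a * (2 * (a + 1))) = 3 * B 0 := by
    linear_combination (2 * a) * r1 - 3 * b1
  have b3 : B 3 * (2 * a * (2 * (a + 1)) * (2 * (a + 2))) = -15 * B 0 := by
    linear_combination (2 * a * (2 * (a + 1))) * r2 - 5 * b2
  have b4 : B 4 * (2 * a * (2 * (a + 1)) * (2 * (a + 2)) * (2 * (a + 3))) = 105 * B 0 := by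
    linear_combination (2 * a * (2 * (a + 1)) * (2 * (a + 2))) * r3 - 7 * b3
  have b5 : B 5 * (2 * a * (2 * (a + 1)) * (2 * (a + 2)) * (2 * (a + 3)) * (2 * (a + 4))) =
      -945 * B 0 := by
    linear_combination (2 * a * (2 * (a + 1)) * (2 * (a + 2)) * (2 * (a + 3))) * r4 - 9 * b4
  have P0 : dv b 0 (φ ^ m * g) = -(B 0 * t0) := by rw [hΦ 0 (by omega), s0]; simp
  have hΦ0 : -(B 0 * t0) ≠ 0 := neg_ne_zero.2 (mul_ne_zero B0 ht)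
  rw [← hφ, ← ht0] at hΩ
  rw [← hφ]
  refine loc_of (t0 := t0) (X1 := X1) (X2 := X2) (X3 := X3) (X4 := X4) (X5 := X5) hΦ0 hΩ
    ?_ ?_ ?_ ?_ ?_ ?_ P0 ?_ ?_ ?_ ?_ ?_ ?_ ?_
  · simp [dv]
  · rw [dv_taylor, taylor_zero]
    simp [coeff_X_pow, coeff_C]
    linear_combination x1
  · rw [dv_taylor, taylor_zero]
    simp [coeff_X, coeff_X_pow, coeff_C, Nat.factorial]
    linear_combination x2
  · rw [dv_taylor, taylor_zero]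
    simp [coeff_X, coeff_X_pow, coeff_C, Nat.factorial]
    linear_combination x3
  · rw [dv_taylor, taylor_zero]
    simp [coeff_X, coeff_X_pow, coeff_C, Nat.factorial]
    linear_combination x4
  · rw [dv_taylor, taylor_zero]
    simp [coeff_X, coeff_X_pow, coeff_C, Nat.factorial]
    linear_combination x5
  · rw [hΦ 1 (by omega)]
    simp only [Nat.factorial, Nat.cast_one, mul_one, Nat.succ_eq_add_one, zero_add]
    linear_combination B 1 * x1 + t0 * X1 * b1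
  · rw [hΦ 2 (by omega), show Nat.factorial 2 = 2 from rfl]
    push_cast
    linear_combination (-B 2) * x2 - t0 * X2 * b2
  · rw [hΦ 3 (by omega), show Nat.factorial 3 = 6 from rfl]
    push_cast
    linear_combination B 3 * x3 + t0 * X3 * b3
  · rw [hΦ 4 (by omega), show Nat.factorial 4 = 24 from rfl]
    push_cast
    linear_combination (-B 4) * x4 - t0 * X4 * b4
  · rw [hΦ 5 (by omega), show Nat.factorial 5 = 120 from rfl]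
    push_cast
    linear_combination B 5 * x5 + t0 * X5 * b5
  · intro h
    rw [dv_mul0, h, mul_zero] at P0
    exact hΦ0 P0.symm
  · obtain ⟨k, rfl⟩ : ∃ k, m = k + 1 := ⟨m - 1, by omega⟩
    have : a - 1 = (k : K) + 1 := by rw [ha]; push_cast; ring
    rw [this, derivative_mul, derivative_pow_succ]
    ring

end Pool.Agent.Lib.MP_79fcf0_nt.HP
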