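import Pool.Agent.Lib.MP_79fcf0_nt.HPb

/-! Differential expressions in the two factors and their values at the points of the clique. -/

namespace Pool.Agent.Lib.MP_79fcf0_nt.HP

open Polynomial

variable {K : Type*} [Field K]

def RR (a : K) : K := -(2 * a ^ 2 - 2 * a + 1)
def K2 (a : K) : K := 4 * a ^ 3 - 4 * a + 3
def K3 (a : K) : K := 8 * a ^ 4 + 16 * a ^ 3 - 8 * a ^ 2 - 16 * a + 15
def E0 (a : K) : K := 4 * a ^ 5 - 8 * a ^ 4 + 4 * a ^ 3 + 2 * a ^ 2 + 4 * a - 3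
def P3 (a : K) : K := 8 * a ^ 4 - 8 * a ^ 3 - 8 * a ^ 2 - 4 * a + 3
def P4 (a : K) : K := 32 * a ^ 5 + 100 * a ^ 4 - 170 * a ^ 3 - 130 * a ^ 2 - 57 * a + 45
def N4 (a : K) : K :=
  64 * a ^ 7 - 24 * a ^ 6 - 172 * a ^ 5 + 28 * a ^ 4 + 72 * a ^ 3 - 10 * a ^ 2 - 69 * a + 27
def Zq (a : K) : K := -128 * a ^ 8 + 256 * a ^ 7 + 640 * a ^ 6 - 896 * a ^ 5 - 992 * a ^ 4
  + 1504 * a ^ 3 - 540 * a ^ 2 - 354 * a + 270
def P5 (a : K) : K :=
  32 * a ^ 6 + 240 * a ^ 5 + 344 * a ^ 4 - 972 * a ^ 3 - 628 * a ^ 2 - 258 * a + 207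

noncomputable def L1 (a : K) (f g : K[X]) : K[X] :=
  C (RR a) * (g * derivative (derivative f)) - C (4 * a) * (derivative g * derivative f)

noncomputable def I2 (a : K) (g : K[X]) : K[X] :=
  C (4 * a * (a * RR a * (2 * a ^ 2 + 1))) * (g * derivative (derivative g))
    + C (4 * a * E0 a) * (derivative g * derivative g)

noncomputable def WW (a : K) (f g : K[X]) : K[X] :=
  C (RR a * K2 a) * (g * L1 a f g) - f * I2 a g

noncomputable def S2 (a : K) (g : K[X]) : K[X] :=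
  C (RR a - 2) * (derivative g * derivative g) - C (RR a) * (g * derivative (derivative g))

noncomputable def T3 (a : K) (g : K[X]) : K[X] :=
  C (RR a) * (g * derivative (S2 a g)) - C (2 * RR a - 8) * (derivative g * S2 a g)

noncomputable def T4 (a : K) (g : K[X]) : K[X] :=
  C (RR a) * (g * derivative (T3 a g)) - C (3 * RR a - 12) * (derivative g * T3 a g)

noncomputable def U4 (a : K) (g : K[X]) : K[X] :=
  C (K2 a * P4 a) * T4 a g - C (3 * Zq a) * (S2 a g * S2 a g)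

noncomputable def T5 (a : K) (g : K[X]) : K[X] :=
  C (RR a) * (g * derivative (derivative (T3 a g)))
    - C (6 * RR a - 28) * (derivative g * derivative (T3 a g))

noncomputable def VV (a : K) (f : K[X]) : K[X] :=
  C (a * (a + 1)) * (f * derivative (derivative (derivative (derivative f))))
    - C (4 * a * (a - 2)) * (derivative f * derivative (derivative (derivative f)))
    + C (3 * (a - 1) * (a - 2)) * (derivative (derivative f) * derivative (derivative f))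

variable {a b φ0 g0 x y2 y3 y4 y5 : K} {f g : K[X]}

lemma Loc.basic (h : Loc a b f g) : f.eval b = 0 ∧ (derivative f).eval b ≠ 0 ∧ g.eval b ≠ 0 := by
  obtain ⟨φ0, g0, x, y2, y3, y4, y5, h⟩ := h
  rw [dv_zero, dv_zero, dv_zero, dv_der, h.f0, h.f1, h.q0]
  exact ⟨rfl, h.hφ, h.hg⟩

lemma Loc.l1 (h : Loc a b f g) : (L1 a f g).eval b = 0 := by
  obtain ⟨φ0, g0, x, y2, y3, y4, y5, h⟩ := h
  simp only [dv_zero, L1, dv_sub, dv_C_mul, dv_mul0, dv_der, Nat.reduceAdd, h.f1, h.f2, h.q0, h.q1,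
    RR]
  ring

lemma Loc.w1 (h : Loc a b f g) : dv b 1 (WW a f g) = 0 := by
  obtain ⟨φ0, g0, x, y2, y3, y4, y5, h⟩ := h
  simp only [WW, L1, I2, dv_sub, dv_add, dv_C_mul, dv_mul0, dv_mul1, dv_der, Nat.reduceAdd, h.f0,
    h.f1, h.f2, h.f3, h.q0, h.q1, h.q2, RR, K2, E0]
  ring

lemma Jet.w2 (h : Jet a b f g φ0 g0 x y2 y3 y4 y5) : dv b 2 (WW a f g) =
    -(φ0 * g0 ^ 2 * (4 * a * (2 * a - 1))) * (RR a * (P3 a * y3)) := by
  simp only [WW, L1, I2, dv_sub, dv_add, dv_C_mul, dv_mul0, dv_mul1, dv_mul2, dv_der, Nat.reduceAdd,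
    h.f0, h.f1, h.f2, h.f3, h.f4, h.q0, h.q1, h.q2, h.q3, RR, K2, E0, P3]
  ring

lemma Jet.w3 (h : Jet a b f g φ0 g0 x y2 y3 y4 y5) : dv b 3 (WW a f g) =
    -(φ0 * g0 ^ 2 * (4 * a * (2 * a - 1))) * (RR a * P4 a * y4 + 3 * N4 a * y2 ^ 2
      + 6 * RR a * (2 * a ^ 2 - 3 * a + 6) * x * (P3 a * y3)) := by
  simp only [WW, L1, I2, dv_sub, dv_add, dv_C_mul, dv_mul0, dv_mul1, dv_mul2, dv_mul3, dv_der,
    Nat.reduceAdd, h.f0, h.f1, h.f2, h.f3, h.f4, h.f5, h.q0, h.q1, h.q2, h.q3, h.q4, RR, K2, E0, P3,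
    P4, N4]
  ring

lemma Jet.w4 (h : Jet a b f g φ0 g0 x y2 0 y4 y5) : dv b 4 (WW a f g) =
    -(φ0 * g0 ^ 2 * (4 * a * (2 * a - 1))) * (3 * RR a * P5 a * y5
      + 8 * (2 * a ^ 2 - 3 * a + 7) * x * (RR a * P4 a * y4 + 3 * N4 a * y2 ^ 2)) := by
  simp only [WW, L1, I2, dv_sub, dv_add, dv_C_mul, dv_mul0, dv_mul1, dv_mul2, dv_mul3, dv_mul4,
    dv_der, Nat.reduceAdd, h.f0, h.f1, h.f2, h.f3, h.f4, h.f5, h.f6, h.q0, h.q1, h.q2, h.q3, h.q4,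
    h.q5, RR, K2, E0, P4, N4, P5]
  ring

lemma Jet.t3 (h : Jet a b f g φ0 g0 x y2 y3 y4 y5) :
    (T3 a g).eval b = -(g0 ^ 3 * RR a ^ 2 * K3 a) * y3 := by
  simp only [dv_zero, T3, S2, dv_sub, dv_C_mul, dv_mul0, dv_mul1, dv_der, Nat.reduceAdd, h.q0, h.q1,
    h.q2, h.q3, RR, K3]
  ring

lemma Jet.u4 (h : Jet a b f g φ0 g0 x y2 y3 y4 y5) : (U4 a g).eval b =
    -(g0 ^ 4 * RR a ^ 2 * K2 a * (16 * a ^ 5 + 80 * a ^ 4 + 80 * a ^ 3 - 80 * a ^ 2 - 96 * a + 105))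
      * (RR a * P4 a * y4 + 3 * N4 a * y2 ^ 2) := by
  simp only [dv_zero, U4, T4, T3, S2, dv_sub, dv_C_mul, dv_mul0, dv_mul1, dv_mul2, dv_der,
    Nat.reduceAdd, h.q0, h.q1, h.q2, h.q3, h.q4, RR, K2, P4, N4, Zq]
  ring

lemma Jet.t5 (h : Jet a b f g φ0 g0 x y2 0 y4 y5) : (T5 a g).eval b =
    -(g0 ^ 4 * RR a ^ 3 * (32 * a ^ 6 + 288 * a ^ 5 + 800 * a ^ 4 + 480 * a ^ 3 - 832 * a ^ 2
      - 768 * a + 945)) * y5 := by
  simp only [dv_zero, T5, T3, S2, dv_sub, dv_C_mul, dv_mul0, dv_mul1, dv_mul2, dv_mul3, dv_der,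
    Nat.reduceAdd, h.q0, h.q1, h.q2, h.q3, h.q4, h.q5, RR]
  ring

section
variable (hu : 4 * a * (2 * a - 1) ≠ 0) (hR : RR a ≠ 0) (hW : WW a f g = 0)
include hu hR hW

lemma Jet.r3 (h : Jet a b f g φ0 g0 x y2 y3 y4 y5) : P3 a * y3 = 0 := by
  have e := h.w2
  rw [hW, dv_of_zero] at e
  have u := neg_ne_zero.2 (mul_ne_zero (mul_ne_zero h.hφ (pow_ne_zero 2 h.hg)) hu)
  exact (mul_eq_zero.1 ((mul_eq_zero.1 e.symm).resolve_left u)).resolve_left hR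

lemma Jet.r4 (h : Jet a b f g φ0 g0 x y2 y3 y4 y5) :
    RR a * P4 a * y4 + 3 * N4 a * y2 ^ 2 = 0 := by
  have e := h.w3
  rw [hW, dv_of_zero, h.r3 hu hR hW, mul_zero, add_zero] at e
  have u := neg_ne_zero.2 (mul_ne_zero (mul_ne_zero h.hφ (pow_ne_zero 2 h.hg)) hu)
  exact (mul_eq_zero.1 e.symm).resolve_left u

lemma Loc.t3 (h : Loc a b f g) : P3 a * (T3 a g).eval b = 0 := by
  obtain ⟨φ0, g0, x, y2, y3, y4, y5, h⟩ := h
  rw [h.t3]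
  linear_combination (-(g0 ^ 3 * RR a ^ 2 * K3 a)) * h.r3 hu hR hW

lemma Loc.u4 (h : Loc a b f g) : (U4 a g).eval b = 0 := by
  obtain ⟨φ0, g0, x, y2, y3, y4, y5, h⟩ := h
  rw [h.u4, h.r4 hu hR hW, mul_zero]

lemma Loc.t5 (h : Loc a b f g) (h3 : P3 a ≠ 0) (h5 : 3 * P5 a ≠ 0) : (T5 a g).eval b = 0 := by
  obtain ⟨φ0, g0, x, y2, y3, y4, y5, h⟩ := h
  obtain rfl : y3 = 0 := (mul_eq_zero.1 (h.r3 hu hR hW)).resolve_left h3
  have e := h.w4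
  rw [hW, dv_of_zero, h.r4 hu hR hW, mul_zero, add_zero] at e
  have u := neg_ne_zero.2 (mul_ne_zero (mul_ne_zero h.hφ (pow_ne_zero 2 h.hg)) hu)
  have e2 : RR a * (3 * P5 a) * y5 = 0 := by
    linear_combination (mul_eq_zero.1 e.symm).resolve_left u
  rw [h.t5, (mul_eq_zero.1 e2).resolve_left (mul_ne_zero hR h5), mul_zero]

end

lemma Loc.vv {c : K} (h : Loc a b f (C c)) (hR : RR a = 0) (h2 : K2 a ≠ 0) (h3 : K3 a ≠ 0) :
    dv b 0 (VV a f) = 0 ∧ dv b 1 (VV a f) = 0 := by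
  obtain ⟨φ0, g0, x, y2, y3, y4, y5, h⟩ := h
  have z : ∀ k, dv b (k + 1) (C c) = 0 := fun k => by
    rw [← dv_der, derivative_C, dv_of_zero]
  have e2 := (mul_eq_zero.1 (h.q2.symm.trans (z 1))).resolve_left h.hg
  have e3 := (mul_eq_zero.1 (h.q3.symm.trans (z 2))).resolve_left h.hg
  rw [RR] at hR
  obtain rfl : y2 = 0 := by
    apply mul_left_cancel₀ h2
    rw [K2]
    linear_combination e2 + (2 * a ^ 2 - 2 * a + 3) * x ^ 2 * hR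
  obtain rfl : y3 = 0 := by
    apply mul_left_cancel₀ h3
    rw [K3]
    linear_combination e3 + (4 * a ^ 4 - 8 * a ^ 3 + 20 * a ^ 2 - 16 * a + 15) * x ^ 3 * hR
  constructor
  · simp only [VV, dv_sub, dv_add, dv_C_mul, dv_mul0, dv_der, Nat.reduceAdd, h.f0, h.f1, h.f2, h.f3]
    ring
  · simp only [VV, dv_sub, dv_add, dv_C_mul, dv_mul1, dv_der, Nat.reduceAdd, h.f0, h.f1, h.f2, h.f3,
      h.f4]
    ring

end Pool.Agent.Lib.MP_79fcf0_nt.HP
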