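import Pool.Agent.Lib.MP_79fcf0_nt.HPc

/-! Leading terms at a root of the cofactor, and the case of a cofactor of positive degree. -/

namespace Pool.Agent.Lib.MP_79fcf0_nt.HP

open Polynomial Finset Lagrange

variable {K : Type*} [Field K]

/-- `P` has leading term `c (X - β) ^ (k - j)` at `β` (the constant `c` may vanish) -/
def Ld (β : K) (j k : ℕ) (c : K) (P : K[X]) : Prop :=
  ∃ P0 : K[X], (X - C β) ^ j * P = (X - C β) ^ k * P0 ∧ P0.eval β = c

lemma lin_der (β : K) (j : ℕ) :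
    (X - C β) * derivative ((X - C β) ^ j) = C (j : K) * (X - C β) ^ j := by
  rcases j with _ | j
  · simp
  · rw [derivative_pow, derivative_sub, derivative_X, derivative_C, Nat.add_sub_cancel]
    ring

section
variable {β c c' : K} {j k j' k' : ℕ} {P Q : K[X]}

lemma Ld.congr (h : Ld β j k c P) (hk : k = k') (hc : c = c') : Ld β j k' c' P := by
  subst hk hc
  exact h

lemma Ld.der (h : Ld β j k c P) : Ld β (j + 1) k ((k - j) * c) (derivative P) := by
  obtain ⟨P0, h1, h2⟩ := h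
  refine ⟨(C (k : K) - C (j : K)) * P0 + (X - C β) * derivative P0, ?_, by simp [h2]⟩
  have e := congrArg derivative h1
  rw [derivative_mul, derivative_mul] at e
  linear_combination (X - C β) * e - P * lin_der β j + P0 * lin_der β k - C (j : K) * h1

lemma Ld.mul (h : Ld β j k c P) (h' : Ld β j' k' c' Q) :
    Ld β (j + j') (k + k') (c * c') (P * Q) := by
  obtain ⟨P0, h1, h2⟩ := h
  obtain ⟨Q0, h3, h4⟩ := h'
  refine ⟨P0 * Q0, ?_, by rw [eval_mul, h2, h4]⟩
  rw [pow_add, pow_add, mul_mul_mul_comm, h1, h3, mul_mul_mul_comm]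

lemma Ld.add (h : Ld β j k c P) (h' : Ld β j k c' Q) : Ld β j k (c + c') (P + Q) := by
  obtain ⟨P0, h1, h2⟩ := h
  obtain ⟨Q0, h3, h4⟩ := h'
  exact ⟨P0 + Q0, by rw [mul_add, mul_add, h1, h3], by rw [eval_add, h2, h4]⟩

lemma Ld.sub (h : Ld β j k c P) (h' : Ld β j k c' Q) : Ld β j k (c - c') (P - Q) := by
  obtain ⟨P0, h1, h2⟩ := h
  obtain ⟨Q0, h3, h4⟩ := h'
  exact ⟨P0 - Q0, by rw [mul_sub, mul_sub, h1, h3], by rw [eval_sub, h2, h4]⟩

lemma Ld.cmul (e : K) (h : Ld β j k c P) : Ld β j k (e * c) (C e * P) := by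
  obtain ⟨P0, h1, h2⟩ := h
  exact ⟨C e * P0, by rw [mul_left_comm, h1, mul_left_comm], by rw [eval_mul, eval_C, h2]⟩

lemma Ld.zero (h : Ld β j k c P) (hP : P = 0) : c = 0 := by
  obtain ⟨P0, h1, h2⟩ := h
  rw [hP, mul_zero] at h1
  rw [← h2, (mul_eq_zero.1 h1.symm).resolve_left (pow_ne_zero _ (X_sub_C_ne_zero β)), eval_zero]

lemma Ld.self (β : K) (P : K[X]) : Ld β 0 0 (P.eval β) P := ⟨P, rfl, rfl⟩

lemma Ld.up (h : Ld β j k c P) : Ld β (j + 1) k 0 P := by
  obtain ⟨P0, h1, -⟩ := h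
  exact ⟨(X - C β) * P0, by rw [pow_succ', mul_assoc, h1, mul_left_comm], by simp⟩

end

section
variable {β c a : K} {m : ℕ} {f g : K[X]} (h : Ld β 0 m c g)
include h

lemma ld_S2 : Ld β 2 (m + m) (c ^ 2 * (m * (RR a - 2 * m))) (S2 a g) :=
  (((h.der.mul h.der).cmul (RR a - 2)).sub ((h.mul h.der.der).cmul (RR a))).congr rfl
    (by push_cast; ring)

lemma ld_T3 : Ld β 3 (m + (m + m)) (c ^ 3 * (m * (RR a - 2 * m)) * (2 * (4 * m - RR a)))
    (T3 a g) :=
  (((h.mul (ld_S2 h).der).cmul (RR a)).sub ((h.der.mul (ld_S2 h)).cmul (2 * RR a - 8))).congr rfl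
    (by push_cast; ring)

lemma ld_T4 : Ld β 4 (m + (m + (m + m))) (c ^ 4 * (m * (RR a - 2 * m)) * (6 * (4 * m - RR a) ^ 2))
    (T4 a g) :=
  (((h.mul (ld_T3 h).der).cmul (RR a)).sub ((h.der.mul (ld_T3 h)).cmul (3 * RR a - 12))).congr rfl
    (by push_cast; ring)

lemma ld_U4 : Ld β 4 (m + (m + (m + m))) (3 * c ^ 4 * (m * (RR a - 2 * m)) *
    (2 * K2 a * P4 a * (4 * m - RR a) ^ 2 - Zq a * (m * (RR a - 2 * m)))) (U4 a g) :=
  (((ld_T4 h).cmul (K2 a * P4 a)).sub ((((ld_S2 h).mul (ld_S2 h)).congr (by omega) rfl).cmul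
    (3 * Zq a))).congr rfl (by ring)

lemma ld_WW : Ld β 2 (m + m) (-(f.eval β * (4 * a) * c ^ 2 * m) *
    (a * RR a * (2 * a ^ 2 + 1) * (m - 1) + E0 a * m)) (WW a f g) := by
  have h1 : Ld β 2 m _ (L1 a f g) :=
    ((((h.mul (Ld.self β (derivative (derivative f)))).up.cmul (RR a)).sub
      ((h.der.mul (Ld.self β (derivative f))).cmul (4 * a))).up).congr (Nat.add_zero m) rfl
  have h2 : Ld β 2 (m + m) _ (I2 a g) :=
    ((h.mul h.der.der).cmul _).add ((h.der.mul h.der).cmul _)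
  exact (((h.mul h1).cmul (RR a * K2 a)).sub (((Ld.self β f).mul h2).congr
    (Nat.zero_add _) rfl)).congr rfl (by push_cast; ring)

lemma ld_Y (e : K) : Ld β 4 (m + (m + (m + m)))
    (f.eval β * c ^ 4 * (m * (RR a - 2 * m)) * (2 * (4 * m - RR a)) * (3 * RR a * (m - 1) - e * m))
    (C (RR a) * (g * (f * derivative (T3 a g) - derivative f * T3 a g))
      - C e * (derivative g * (f * T3 a g))) := by
  have h1 : Ld β 4 (m + (m + m)) _ (f * derivative (T3 a g)) :=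
    ((Ld.self β f).mul (ld_T3 h).der).congr (Nat.zero_add _) rfl
  have h2 : Ld β 4 (m + (m + m)) _ (derivative f * T3 a g) :=
    ((Ld.self β f).der.mul (ld_T3 h)).congr (Nat.zero_add _) rfl
  have h3 : Ld β 3 (m + (m + m)) _ (f * T3 a g) :=
    ((Ld.self β f).mul (ld_T3 h)).congr (Nat.zero_add _) rfl
  exact (((h.mul (h1.sub h2)).cmul (RR a)).sub ((h.der.mul h3).cmul e)).congr rfl
    (by push_cast; ring)

end

section
variable {P Q : K[X]} {i j : ℕ}

lemma nd_der (h : P.natDegree ≤ i + 1) : (derivative P).natDegree ≤ i :=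
  (natDegree_derivative_le P).trans (by omega)

lemma nd_der' (h : P.natDegree ≤ i) : (derivative P).natDegree ≤ i := nd_der (by omega)

lemma nd_C (e : K) (h : P.natDegree ≤ i) : (C e * P).natDegree ≤ i :=
  (natDegree_C_mul_le _ _).trans h

lemma nd_sub (h : P.natDegree ≤ i) (h' : Q.natDegree ≤ i) : (P - Q).natDegree ≤ i :=
  (natDegree_sub_le _ _).trans (max_le h h')

lemma nd_add (h : P.natDegree ≤ i) (h' : Q.natDegree ≤ i) : (P + Q).natDegree ≤ i :=
  (natDegree_add_le _ _).trans (max_le h h')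

lemma nd_mul (h : P.natDegree ≤ i) (h' : Q.natDegree ≤ j) {n : ℕ} (hn : i + j ≤ n) :
    (P * Q).natDegree ≤ n := (natDegree_mul_le_of_le h h').trans hn

lemma van_zero {A : Finset K} (h : ∀ b ∈ A, P.eval b = 0) (hn : P.natDegree ≤ i)
    (hi : i < A.card) : P = 0 :=
  eq_zero_of_natDegree_lt_card_of_eval_eq_zero' P A h (hn.trans_lt hi)

lemma van_dvd {A : Finset K} (h : ∀ b ∈ A, P.eval b = 0) (hn : P.natDegree ≤ A.card + i) :
    ∃ Q, P = nodal A id * Q ∧ Q.natDegree ≤ i := by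
  have hd : nodal A id ∣ P := by
    rw [nodal_eq]
    refine Finset.prod_dvd_of_coprime (fun a _ b _ hab => ?_) fun a ha => ?_
    · exact pairwise_coprime_X_sub_C (K := K) Function.injective_id hab
    · exact dvd_iff_isRoot.2 (h a ha)
  obtain ⟨Q, rfl⟩ := hd
  refine ⟨Q, rfl, ?_⟩
  by_cases hQ : Q = 0
  · simp [hQ]
  · rw [natDegree_mul nodal_ne_zero hQ, natDegree_nodal] at hn
    omega

end

def C4 (a : K) : K :=
  2 * K2 a * P4 a * (4 * (a * RR a * (2 * a ^ 2 + 1)) - RR a * (a * RR a * (2 * a ^ 2 + 1) + E0 a)) ^ 2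
    - Zq a * (a * RR a * (2 * a ^ 2 + 1) * (RR a * (a * RR a * (2 * a ^ 2 + 1) + E0 a)
      - 2 * (a * RR a * (2 * a ^ 2 + 1))))

section
variable {A : Finset K} {a : K} {g : K[X]} {k : ℕ} (hk : 2 * k + 3 ≤ A.card)
  (hg : g.natDegree ≤ k + 2) (hL : ∀ b ∈ A, Loc a b (nodal A id) g)
include hk hg hL

lemma ww_zero : ∃ Q : K[X], Q.natDegree ≤ k ∧ C (RR a * K2 a) * (g * Q) = I2 a g ∧
    WW a (nodal A id) g = 0 := by
  obtain ⟨n, hn⟩ : ∃ n, A.card = n + 2 := ⟨A.card - 2, by omega⟩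
  have hf : (nodal A id : K[X]).natDegree ≤ n + 2 := by rw [natDegree_nodal, hn]
  obtain ⟨Q, hQ, hd⟩ := van_dvd (i := k) (fun b hb => (hL b hb).l1)
    (nd_sub (nd_C _ (nd_mul hg (nd_der (nd_der hf)) (by omega))) (nd_C _ (nd_mul (nd_der hg) (nd_der hf) (by omega))))
  have hW : WW a (nodal A id) g = nodal A id * (C (RR a * K2 a) * (g * Q) - I2 a g) := by
    rw [WW, hQ]
    ring
  have hD : C (RR a * K2 a) * (g * Q) - I2 a g = 0 := by
    refine van_zero (A := A) (i := 2 * k + 2) (fun b hb => ?_) (nd_sub (nd_C _ (nd_mul hg hd (by omega)))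
      (nd_add (nd_C _ (nd_mul hg (nd_der (nd_der hg)) (by omega))) (nd_C _ (nd_mul (nd_der hg) (nd_der hg) (by omega)))))
      (by omega)
    have e := (hL b hb).w1
    obtain ⟨h0, h1, -⟩ := (hL b hb).basic
    rw [dv_zero] at h0 h1
    rw [dv_der] at h1
    rw [hW, dv_mul1, h0, zero_mul, add_zero] at e
    exact (mul_eq_zero.1 e).resolve_left h1
  exact ⟨Q, hd, sub_eq_zero.1 hD, by rw [hW, hD, mul_zero]⟩

variable (hu : 4 * a * (2 * a - 1) ≠ 0) (hR : RR a ≠ 0)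
include hu hR

lemma branch1 (hE : E0 a ≠ 0) : C (P3 a) * T3 a g = 0 ∧ U4 a g = 0 := by
  obtain ⟨Q, hQ, hD, hW⟩ := ww_zero hk hg hL
  have h4 : 4 * a * E0 a ≠ 0 := mul_ne_zero (left_ne_zero_of_mul hu) hE
  obtain ⟨e, he, hde⟩ : ∃ e : K[X], derivative g * derivative g = g * e ∧ e.natDegree ≤ k := by
    refine ⟨C (4 * a * E0 a)⁻¹ * (C (RR a * K2 a) * Q
      - C (4 * a * (a * RR a * (2 * a ^ 2 + 1))) * derivative (derivative g)), ?_,
      nd_C _ (nd_sub (nd_C _ hQ) (nd_C _ (nd_der (nd_der hg))))⟩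
    have h5 : C (4 * a * E0 a)⁻¹ * C (4 * a * E0 a) = 1 := by
      rw [← C_mul, inv_mul_cancel₀ h4, C_1]
    rw [I2] at hD
    linear_combination -C (4 * a * E0 a)⁻¹ * hD - derivative g * derivative g * h5
  obtain ⟨s, hs, hds⟩ : ∃ s : K[X], S2 a g = g * s ∧ s.natDegree ≤ k :=
    ⟨C (RR a - 2) * e - C (RR a) * derivative (derivative g), by rw [S2, he]; ring,
      nd_sub (nd_C _ hde) (nd_C _ (nd_der (nd_der hg)))⟩
  obtain ⟨t, ht⟩ : ∃ t : K[X], t = C (RR a) * (g * derivative s)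
    - C (RR a - 8) * (derivative g * s) := ⟨_, rfl⟩
  have hdt : t.natDegree ≤ 2 * k + 1 + 1 := by
    rw [ht]
    exact nd_sub (nd_C _ (nd_mul hg (nd_der' hds) (by omega))) (nd_C _ (nd_mul (nd_der hg) hds (by omega)))
  have h3 : T3 a g = g * t := by
    rw [T3, hs, derivative_mul, ht]
    simp only [map_sub, map_mul, map_ofNat]
    ring
  obtain ⟨u, hu4, hdu⟩ : ∃ u : K[X], U4 a g = g * g * u ∧ u.natDegree ≤ 2 * k + 1 := by
    refine ⟨C (K2 a * P4 a) * (C (RR a) * derivative t - C (2 * RR a - 12) *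
      (C (RR a) * (derivative g * derivative s) - C (RR a - 8) * (e * s))) - C (3 * Zq a) * (s * s),
      ?_, nd_sub (nd_C _ (nd_sub (nd_C _ (nd_der hdt)) (nd_C _ (nd_sub
        (nd_C _ (nd_mul (nd_der hg) (nd_der' hds) (by omega))) (nd_C _ (nd_mul hde hds (by omega)))))))
        (nd_C _ (nd_mul hds hds (by omega)))⟩
    rw [U4, T4, h3, hs, derivative_mul]
    simp only [map_sub, map_mul, map_ofNat] at ht ⊢
    linear_combination (C (K2 a) * C (P4 a) * g * (2 * C (RR a) - 12) * (C (RR a) - 8) * s) * he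
      - (C (K2 a) * C (P4 a) * g * derivative g * (2 * C (RR a) - 12)) * ht
  constructor
  · have : C (P3 a) * t = 0 := by
      refine van_zero (A := A) (fun b hb => ?_) (nd_C _ hdt) (by omega)
      have e := (hL b hb).t3 hu hR hW
      rw [h3, eval_mul, mul_left_comm] at e
      rw [eval_mul, eval_C]
      exact (mul_eq_zero.1 e).resolve_left (hL b hb).basic.2.2
    rw [h3, mul_left_comm, this, mul_zero]
  · have : u = 0 := by
      refine van_zero (A := A) (fun b hb => ?_) hdu (by omega)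
      have e := (hL b hb).u4 hu hR hW
      rw [hu4, eval_mul, eval_mul] at e
      exact (mul_eq_zero.1 e).resolve_left (mul_ne_zero (hL b hb).basic.2.2 (hL b hb).basic.2.2)
    rw [hu4, this, mul_zero]

lemma branch2 (h2 : (2 : K) ≠ 0) (h3 : P3 a ≠ 0) (h5 : 3 * P5 a ≠ 0) :
    C (RR a) * (g * (nodal A id * derivative (T3 a g) - derivative (nodal A id) * T3 a g))
      - C (3 * RR a - 2 * a - 14) * (derivative g * (nodal A id * T3 a g)) = 0 := by
  obtain ⟨-, -, -, hW⟩ := ww_zero hk hg hL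
  have hS : (S2 a g).natDegree ≤ 2 * k + 1 + 1 :=
    nd_sub (nd_C _ (nd_mul (nd_der hg) (nd_der hg) (by omega))) (nd_C _ (nd_mul hg (nd_der (nd_der hg)) (by omega)))
  obtain ⟨Z, hZ, hd⟩ := van_dvd (A := A) (P := T3 a g) (i := k)
    (fun b hb => (mul_eq_zero.1 ((hL b hb).t3 hu hR hW)).resolve_left h3)
    (nd_sub (nd_C _ (nd_mul hg (nd_der hS) (by omega))) (nd_C _ (nd_mul (nd_der hg) hS (by omega))))
  have hY : C (RR a) * (g * derivative Z) - C (3 * RR a - 2 * a - 14) * (derivative g * Z) = 0 := by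
    refine van_zero (A := A) (i := 2 * k + 2) (fun b hb => ?_)
      (nd_sub (nd_C _ (nd_mul hg (nd_der' hd) (by omega))) (nd_C _ (nd_mul (nd_der hg) hd (by omega)))) (by omega)
    have e := (hL b hb).t5 hu hR hW h3 h5
    have e1 := (hL b hb).l1
    obtain ⟨h0, h1, -⟩ := (hL b hb).basic
    rw [T5, hZ] at e
    simp only [L1, derivative_mul, derivative_add, eval_sub, eval_add, eval_mul, eval_C, h0] at e e1 ⊢
    apply mul_left_cancel₀ (mul_ne_zero h2 h1)
    linear_combination e - Z.eval b * e1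
  rw [hZ, derivative_mul]
  linear_combination nodal A id * nodal A id * hY

lemma pos_case [IsAlgClosed K] (hg0 : g.natDegree = k + 2)
    (hμ : ∀ m : ℕ, 1 ≤ m → m ≤ k + 2 → (m : K) ≠ 0) (h2 : (2 : K) ≠ 0) (h3 : (3 : K) ≠ 0)
    (ha : (a + 1) * K2 a ≠ 0)
    (hhZ : -4 * a ^ 4 - 8 * a ^ 3 + 4 * a ^ 2 - a - 3 = 0 → Zq a ≠ 0) (hPC : P3 a = 0 → C4 a ≠ 0)
    (hE : E0 a = 0 → 2 * a ^ 2 + 1 ≠ 0 ∧ P3 a ≠ 0 ∧ P5 a ≠ 0 ∧ 2 * a ^ 2 - 2 * a + 5 ≠ 0 ∧
      6 * a ^ 2 - 4 * a + 17 ≠ 0) : False := by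
  have g0 : g ≠ 0 := fun h => by simp [h] at hg0
  obtain ⟨β, hβ⟩ := IsAlgClosed.exists_root g (natDegree_pos_iff_degree_pos.1 (by omega)).ne'
  obtain ⟨q, hq, hq0⟩ := exists_eq_pow_rootMultiplicity_mul_and_not_dvd g g0 β
  have hm1 : 1 ≤ g.rootMultiplicity β := (rootMultiplicity_pos g0).2 hβ
  generalize g.rootMultiplicity β = m at hq hm1
  have hm2 : m ≤ k + 2 := by
    have q0 : q ≠ 0 := fun h => hq0 (h ▸ dvd_zero _)
    rw [hq, natDegree_mul (pow_ne_zero _ (X_sub_C_ne_zero β)) q0, natDegree_pow,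
      natDegree_X_sub_C] at hg0
    omega
  have hc : q.eval β ≠ 0 := fun h => hq0 (dvd_iff_isRoot.2 h)
  have h : Ld β 0 m (q.eval β) g := ⟨q, by rw [pow_zero, one_mul, ← hq], rfl⟩
  generalize q.eval β = c at hc h
  have hf : (nodal A id : K[X]).eval β ≠ 0 :=
    eval_nodal_not_at_node fun b hb e => (hL b hb).basic.2.2 (by rw [id] at e; rw [← e]; exact hβ)
  have m0 := hμ m hm1 hm2
  have a4 : 4 * a ≠ 0 := left_ne_zero_of_mul hu
  obtain ⟨-, -, -, hW⟩ := ww_zero hk hg hL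
  have c2 : a * RR a * (2 * a ^ 2 + 1) * (m - 1) + E0 a * m = 0 :=
    (mul_eq_zero.1 ((ld_WW h).zero hW)).resolve_left (neg_ne_zero.2
      (mul_ne_zero (mul_ne_zero (mul_ne_zero hf a4) (pow_ne_zero 2 hc)) m0))
  have hσ : RR a - 2 * m ≠ 0 := fun e => by
    refine mul_ne_zero hR ha ?_
    have : RR a * (a * (2 * a ^ 2 + 1) * (RR a - 2) + E0 a) = 0 := by
      linear_combination 2 * c2 + (a * RR a * (2 * a ^ 2 + 1) + E0 a) * e
    rw [← neg_eq_zero, ← this]
    simp only [RR, K2, E0]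
    ring
  have σ0 := mul_ne_zero m0 hσ
  by_cases hE0 : E0 a = 0
  · obtain ⟨e1, e2, e3, e4, e5⟩ := hE hE0
    have m1 : (m : K) = 1 := by
      rw [hE0, zero_mul, add_zero] at c2
      exact sub_eq_zero.1 ((mul_eq_zero.1 c2).resolve_left
        (mul_ne_zero (mul_ne_zero (right_ne_zero_of_mul a4) hR) e1))
    have e := (ld_Y h _).zero (branch2 hk hg hL hu hR h2 e2 (mul_ne_zero h3 e3))
    refine mul_ne_zero (mul_ne_zero (mul_ne_zero (mul_ne_zero hf (pow_ne_zero 4 hc)) σ0)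
      (mul_ne_zero h2 ?_)) ?_ e
    · rw [m1, RR]
      intro e
      exact e4 (by linear_combination e)
    · rw [m1, RR]
      intro e
      exact e5 (by linear_combination e)
  · obtain ⟨e3, e4⟩ := branch1 hk hg hL hu hR hE0
    have u4 := (mul_eq_zero.1 ((ld_U4 h).zero e4)).resolve_left
      (mul_ne_zero (mul_ne_zero h3 (pow_ne_zero 4 hc)) σ0)
    rcases mul_eq_zero.1 (((ld_T3 h).cmul (P3 a)).zero e3) with e | e
    · refine hPC e ?_
      rw [C4]
      obtain ⟨y, hy⟩ : ∃ y, y = a * RR a * (2 * a ^ 2 + 1) := ⟨_, rfl⟩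
      rw [← hy] at c2 ⊢
      have hy2 : y = m * (y + E0 a) := by linear_combination -c2
      generalize y + E0 a = z at hy2
      rw [hy2]
      linear_combination z ^ 2 * u4
    · have e' : 4 * m - RR a = 0 := (mul_eq_zero.1 ((mul_eq_zero.1 e).resolve_left
        (mul_ne_zero (pow_ne_zero 3 hc) σ0))).resolve_left h2
      refine mul_ne_zero (hhZ ?_) σ0 (by rw [e'] at u4; linear_combination -u4)
      have : RR a * (a * (2 * a ^ 2 + 1) * (RR a - 4) + E0 a) = 0 := by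
        linear_combination 4 * c2 - (a * RR a * (2 * a ^ 2 + 1) + E0 a) * e'
      rw [← (mul_eq_zero.1 this).resolve_left hR]
      simp only [RR, E0]
      ring

end

end Pool.Agent.Lib.MP_79fcf0_nt.HP
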