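import Pool.Agent.Lib.MP_79fcf0_nt.HPd

/-! The case of a constant cofactor, and the resultants that control the exceptional cases. -/

namespace Pool.Agent.Lib.MP_79fcf0_nt.HP

open Polynomial Finset Lagrange

variable {K : Type*} [Field K]

/-- `X ^ j * P` is `c X ^ n` plus a polynomial of degree at most `l` with top coefficient `e` -/
def Tp (j n l : ℕ) (c e : K) (P : K[X]) : Prop :=
  ∃ D : K[X], X ^ j * P = C c * X ^ n + D ∧ D.natDegree ≤ l ∧ D.coeff l = e

lemma x_der (j : ℕ) : X * derivative (X ^ j : K[X]) = C (j : K) * X ^ j := by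
  simpa using lin_der (0 : K) j

section
variable {c c' e e' : K} {j j' n l : ℕ} {P Q : K[X]}

lemma Tp.der (h : Tp j n l c e P) :
    Tp (j + 1) n l ((n - j) * c) ((l - j) * e) (derivative P) := by
  obtain ⟨D, h1, h2, h3⟩ := h
  have h4 : ∀ i, (X * derivative D).coeff i = i * D.coeff i := fun i => by
    rcases i with _ | i
    · simp
    · rw [coeff_X_mul, coeff_derivative]
      push_cast
      ring
  refine ⟨X * derivative D - C (j : K) * D, ?_, nd_sub ?_ (nd_C _ h2), ?_⟩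
  · have e := congrArg derivative h1
    rw [derivative_mul, derivative_add, derivative_C_mul] at e
    rw [C_mul, C_sub]
    linear_combination X * e - P * x_der (K := K) j + C c * x_der (K := K) n - C (j : K) * h1
  · refine natDegree_le_iff_coeff_eq_zero.2 fun i hi => ?_
    rw [h4, coeff_eq_zero_of_natDegree_lt (h2.trans_lt hi), mul_zero]
  · rw [coeff_sub, h4, coeff_C_mul, h3]
    ring

lemma Tp.mul (hl : l < n) (h : Tp j n l c e P) (h' : Tp j' n l c' e' Q) :
    Tp (j + j') (n + n) (l + n) (c * c') (c * e' + c' * e) (P * Q) := by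
  obtain ⟨D, h1, h2, h3⟩ := h
  obtain ⟨E, h4, h5, h6⟩ := h'
  refine ⟨C c * (E * X ^ n) + C c' * (D * X ^ n) + D * E, ?_, nd_add (nd_add
    (nd_C _ (nd_mul h5 (natDegree_X_pow_le n) (by omega))) (nd_C _ (nd_mul h2 (natDegree_X_pow_le n) (by omega))))
    (nd_mul h2 h5 (by omega)), ?_⟩
  · rw [pow_add, mul_mul_mul_comm, h1, h4, C_mul]
    ring
  · rw [coeff_add, coeff_add, coeff_C_mul, coeff_C_mul, coeff_mul_X_pow, coeff_mul_X_pow, h3, h6,
      coeff_eq_zero_of_natDegree_lt ((natDegree_mul_le_of_le h2 h5).trans_lt (by omega)), add_zero]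

lemma Tp.cmul (u : K) (h : Tp j n l c e P) : Tp j n l (u * c) (u * e) (C u * P) := by
  obtain ⟨D, h1, h2, h3⟩ := h
  exact ⟨C u * D, by rw [mul_left_comm, h1, C_mul]; ring, nd_C _ h2, by rw [coeff_C_mul, h3]⟩

lemma Tp.add (h : Tp j n l c e P) (h' : Tp j n l c' e' Q) :
    Tp j n l (c + c') (e + e') (P + Q) := by
  obtain ⟨D, h1, h2, h3⟩ := h
  obtain ⟨E, h4, h5, h6⟩ := h'
  exact ⟨D + E, by rw [mul_add, h1, h4, C_add]; ring, nd_add h2 h5, by rw [coeff_add, h3, h6]⟩

lemma Tp.sub (h : Tp j n l c e P) (h' : Tp j n l c' e' Q) :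
    Tp j n l (c - c') (e - e') (P - Q) := by
  obtain ⟨D, h1, h2, h3⟩ := h
  obtain ⟨E, h4, h5, h6⟩ := h'
  exact ⟨D - E, by rw [mul_sub, h1, h4, C_sub]; ring, nd_sub h2 h5, by rw [coeff_sub, h3, h6]⟩

lemma Tp.zero (h : Tp j n l c e P) (hP : P = 0) (hc : c = 0) : e = 0 := by
  obtain ⟨D, h1, -, h3⟩ := h
  rw [hP, hc, mul_zero, C_0, zero_mul, zero_add] at h1
  rw [← h3, ← h1, coeff_zero]

end

lemma zero_case {A : Finset K} {c : K} {n : ℕ} (hn : A.card = n) (h4 : 4 ≤ n)
    (hL : ∀ b ∈ A, Loc (n : K) b (nodal A id) (C c)) (hR : RR (n : K) = 0) (h2 : K2 (n : K) ≠ 0)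
    (h3 : K3 (n : K) ≠ 0) (hs : ∑ x ∈ A, x = 0) : ∃ k : ℕ, 2 ≤ k ∧ k ≤ n ∧
      (n : K) * k * (k - 1) * (k + 1) * ((n + 1) * (k - 6) + 12) = 0 := by
  obtain ⟨i, hi⟩ : ∃ i, n = i + 4 := ⟨n - 4, by omega⟩
  have hf : (nodal A id : K[X]).natDegree = n := by rw [natDegree_nodal, hn]
  have d0 : (nodal A id : K[X]).natDegree ≤ i + 3 + 1 := by omega
  have d1 := nd_der d0
  have d2 := nd_der d1
  have d3 := nd_der d2
  have d4 := nd_der d3
  obtain ⟨Z, hZ, hd⟩ := van_dvd (A := A) (P := VV (n : K) (nodal A id)) (i := i)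
    (fun b hb => ((hL b hb).vv hR h2 h3).1)
    (nd_add (nd_sub (nd_C _ (nd_mul d0 d4 (by omega))) (nd_C _ (nd_mul d1 d3 (by omega)))) (nd_C _ (nd_mul d2 d2 (by omega))))
  have hZ0 : Z = 0 := by
    refine van_zero (A := A) (fun b hb => ?_) hd (by omega)
    have e := ((hL b hb).vv hR h2 h3).2
    obtain ⟨h0, h1, -⟩ := (hL b hb).basic
    rw [dv_zero] at h0 h1
    rw [dv_der] at h1
    rw [hZ, dv_mul1, h0, zero_mul, add_zero] at e
    exact (mul_eq_zero.1 e).resolve_left h1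
  rw [hZ0, mul_zero] at hZ
  obtain ⟨D, hD⟩ : ∃ D : K[X], D = nodal A id - X ^ n := ⟨_, rfl⟩
  have hD0 : D ≠ 0 := fun h => by
    obtain ⟨b, hb⟩ : A.Nonempty := card_pos.1 (by omega)
    obtain ⟨h0, h1, -⟩ := (hL b hb).basic
    rw [sub_eq_zero.1 (hD.symm.trans h)] at h0 h1
    rw [eval_pow, eval_X] at h0
    apply h1
    rw [pow_eq_zero_iff (by omega)] at h0
    simp [h0, hi]
  have hl : D.natDegree ≤ i + 2 := by
    refine natDegree_le_iff_coeff_eq_zero.2 fun N hN => ?_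
    rw [hD, coeff_sub, coeff_X_pow]
    rcases lt_trichotomy N n with h | h | h
    · have := prod_X_sub_C_coeff_card_pred A id (by omega)
      rw [← nodal_eq, show A.card - 1 = N by omega] at this
      rw [if_neg h.ne, this, sub_zero, neg_eq_zero]
      exact hs
    · rw [if_pos h, h, ← hf, nodal_monic.coeff_natDegree, sub_self]
    · rw [if_neg h.ne', coeff_eq_zero_of_natDegree_lt (by omega), sub_zero]
  have he : D.coeff D.natDegree ≠ 0 := leadingCoeff_ne_zero.2 hD0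
  have t : Tp 0 n D.natDegree 1 (D.coeff D.natDegree) (nodal A id) :=
    ⟨D, by rw [hD]; simp, le_rfl, rfl⟩
  generalize D.natDegree = l at hl he t
  generalize D.coeff l = e at he t
  have hln : l < n := by omega
  have t4 := (((t.mul hln t.der.der.der.der).cmul ((n : K) * (n + 1))).sub
    ((t.der.mul hln t.der.der.der).cmul (4 * (n : K) * (n - 2)))).add
    ((t.der.der.mul hln t.der.der).cmul (3 * ((n : K) - 1) * (n - 2)))
  have e4 := t4.zero hZ (by push_cast; ring)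
  obtain ⟨k, hk⟩ : ∃ k, n = l + k := ⟨n - l, by omega⟩
  refine ⟨k, by omega, by omega, mul_left_cancel₀ he ?_⟩
  have : (l : K) = n - k := by rw [hk]; push_cast; ring
  rw [this] at e4
  push_cast at e4
  linear_combination e4

lemma bz1 {a : K} (h1 : -4 * a ^ 4 - 8 * a ^ 3 + 4 * a ^ 2 - a - 3 = 0) (h2 : Zq a = 0) :
    (2 ^ 3 * 3 ^ 2 * 5 * 13 * 17 ^ 2 * 29 : K) = 0 := by
  simp only [Zq] at *
  linear_combination ((-46361670) + 178864212 * a + (-288132736) * a ^ 2 + 78370976 * a ^ 3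
      + 188318848 * a ^ 4 + (-73085696) * a ^ 5 + (-50823552) * a ^ 6
      + 19483008 * a ^ 7) * h1
    + ((-369859) + 1330744 * a + (-847140) * a ^ 2 + (-608844) * a ^ 3) * h2

lemma bz2 {a : K} (h1 : P3 a = 0) (h2 : C4 a = 0) :
    (3 ^ 8 * 5 ^ 3 * 13 ^ 3 * 343307 : K) = 0 := by
  simp only [P3, C4, K2, P4, RR, E0, Zq] at *
  linear_combination ((-198520611749758215) + 596259490515320844 * a
      + (-110943932395538520) * a ^ 2 + (-3218735243238553896) * a ^ 3
      + 5704947815992455720 * a ^ 4 + 662622594236585920 * a ^ 5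
      + (-13669364789968543936) * a ^ 6 + 9359114060842304640 * a ^ 7
      + 13988170293146758976 * a ^ 8 + (-16296924517667431680) * a ^ 9
      + (-29276878513083773952) * a ^ 10 + 56859625204636611072 * a ^ 11
      + (-15035713842128940544) * a ^ 12 + (-44912685819094411264) * a ^ 13
      + 35252255729762455552 * a ^ 14 + 5891694310473977856 * a ^ 15
      + (-16317653149297201152) * a ^ 16 + (-664284010377994240) * a ^ 17
      + 2708750309120638976 * a ^ 18 + 515012546917040128 * a ^ 19) * h1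
    + (245341732848864 + 311007976157344 * a + 154759962898912 * a ^ 2
      + (-251470970174336) * a ^ 3) * h2

lemma bz3 {a : K} (h1 : E0 a = 0) (h2 : P3 a = 0) :
    (3 ^ 4 : K) = 0 := by
  simp only [E0, P3] at *
  linear_combination ((-56) + (-64) * a + 32 * a ^ 2 + 16 * a ^ 3) * h1
    + ((-29) + (-28) * a + 40 * a ^ 2 + (-8) * a ^ 3 + (-8) * a ^ 4) * h2

lemma bz4 {a : K} (h1 : E0 a = 0) (h2 : P5 a = 0) :
    (3 ^ 2 * 5 * 7 * 2440140497 : K) = 0 := by
  simp only [E0, P5] at *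
  linear_combination ((-569697346944) + (-160146059596) * a + 78021005488 * a ^ 2
      + 90191317088 * a ^ 3 + 26429726336 * a ^ 4 + 2652955328 * a ^ 5) * h1
    + ((-4543226011) + 3025115450 * a + (-283208696) * a ^ 2 + (-153331340) * a ^ 3
      + (-331619416) * a ^ 4) * h2

lemma bz5 {a : K} (h1 : E0 a = 0) (h2 : 2 * a ^ 2 + 1 = 0) :
    (3 ^ 3 : K) = 0 := by
  simp only [E0] at *
  linear_combination ((-4) + (-2) * a) * h1
    + (15 + 10 * a + (-14) * a ^ 2 + 4 * a ^ 4) * h2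

lemma bz6 {a : K} (h1 : E0 a = 0) (h2 : 2 * a ^ 2 - 2 * a + 5 = 0) :
    (3 ^ 2 * 17 * 29 : K) = 0 := by
  simp only [E0] at *
  linear_combination (46 + (-62) * a) * h1
    + (915 + 292 * a + (-218) * a ^ 2 + (-216) * a ^ 3 + 124 * a ^ 4) * h2

lemma bz7 {a : K} (h1 : E0 a = 0) (h2 : 6 * a ^ 2 - 4 * a + 17 = 0) :
    (3 * 803987 : K) = 0 := by
  simp only [E0] at *
  linear_combination ((-1604) + (-20130) * a) * h1
    + (141597 + 30142 * a + (-37958) * a ^ 2 + (-16824) * a ^ 3 + 13420 * a ^ 4) * h2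

lemma bz8 {a : K} (h1 : RR a = 0) (h2 : K2 a = 0) :
    (1 : K) = 0 := by
  simp only [RR, K2] at *
  linear_combination ((-4) + 2 * a + 4 * a ^ 2) * h1
    + ((-1) + 2 * a) * h2

lemma bz9 {a : K} (h1 : RR a = 0) (h2 : K3 a = 0) :
    (5 * 13 : K) = 0 := by
  simp only [RR, K3] at *
  linear_combination ((-170) + 12 * a + 164 * a ^ 2 + 64 * a ^ 3) * h1
    + ((-7) + 16 * a) * h2

end Pool.Agent.Lib.MP_79fcf0_nt.HP
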