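import Pool.Agent.Lib.MP_79fcf0_nt.HPe

/-! The improved bound for sets whose differences are roots of unity of order `(p - 1) / 2`. -/

namespace Pool.Agent.Lib.MP_79fcf0_nt.HP

open Polynomial Finset Lagrange

variable {K : Type*} [Field K] {p : ℕ} [Fact p.Prime] [CharP K p]

omit [Fact p.Prime] in
lemma cast_inj' {x y : ℕ} (hx : x < p) (hy : y < p) (h : (x : K) = y) : x = y :=
  CharP.natCast_injOn_Iio K p hx hy h

lemma prime_ne {q : ℕ} (hq : q.Prime) (h : p ≠ q) : (q : K) ≠ 0 := fun e =>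
  h ((Nat.prime_dvd_prime_iff_eq Fact.out hq).1 ((CharP.cast_eq_zero_iff K p q).1 e))

set_option maxRecDepth 100000 in
lemma pr1 : Nat.Prime 343307 := by norm_num

set_option maxRecDepth 100000 in
lemma pr2 : Nat.Prime 803987 := by norm_num

set_option maxRecDepth 100000 in
lemma pr3 : Nat.Prime 2440140497 := by norm_num

omit [Fact p.Prime] in
lemma k2_int {n r : ℕ} (h5 : 5 ≤ n) (hr : 2 * r ≤ n + 1) (hp : p + 2 * n = 2 * n ^ 2 + 2 * r + 1) :
    ¬ p ∣ 4 * r * (n + 1) + 2 * n - 1 := by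
  rintro ⟨t, ht⟩
  have h1 : 4 * r * (n + 1) + 2 * n = p * t + 1 := by omega
  have h2 : t < 2 := by
    by_contra h
    have : p * 2 ≤ p * t := Nat.mul_le_mul_left _ (by omega)
    nlinarith
  interval_cases t
  · omega
  · have h3 : (2 * n + 1) ∣ 9 := by
      have e : (9 : ℤ) = (2 * n + 1) * (4 * r - (2 * n - 5)) := by
        have a1 : (4 * r * (n + 1) + 2 * n : ℤ) = p * 1 + 1 := by exact_mod_cast h1
        have a2 : (p + 2 * n : ℤ) = 2 * n ^ 2 + 2 * r + 1 := by exact_mod_cast hp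
        linear_combination -2 * a1 - 2 * a2
      exact_mod_cast (Dvd.intro _ e.symm : ((2 * n + 1 : ℤ)) ∣ 9)
    have := Nat.le_of_dvd (by norm_num) h3
    omega

variable [DecidableEq K] [IsAlgClosed K]

lemma core0 (h4 : p % 4 = 1) (h41 : 41 < p) {A : Finset K} {d m : ℕ} (hp : p = 2 * d + 1)
    (hm : A.card = m + 1) (hmd : m ≤ d) (hA : ∀ a ∈ A, ∀ b ∈ A, a ≠ b → (a - b) ^ d = 1)
    (hs : ∑ x ∈ A, x = 0) (hlt : p + (m + 1) < 2 * (m + 1) ^ 2 + 3) : False := by
  have m4 : 4 ≤ m := by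
    by_contra h
    have : m ≤ 3 := by omega
    nlinarith
  obtain ⟨g, hF⟩ := FF_dvd hm (by omega) (by omega : 1 ≤ d) hA
  obtain ⟨hF0, hFd⟩ := FF_deg (p := p) hm (by omega) (by omega : 1 ≤ d) (by omega)
  have g0 : g ≠ 0 := fun h => hF0 (by rw [hF, h, mul_zero])
  rw [hF, natDegree_mul (pow_ne_zero _ nodal_ne_zero) g0, natDegree_pow, natDegree_nodal, hm] at hFd
  have hL : ∀ b ∈ A, Loc ((m + 1 : ℕ) : K) b (nodal A id) g := fun b hb =>
    loc hm (by omega) (by omega) hA hp hmd (by nlinarith) hF hb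
  obtain ⟨r, hr⟩ : ∃ r, g.natDegree = r := ⟨_, rfl⟩
  obtain ⟨n, hn⟩ : ∃ n, n = m + 1 := ⟨_, rfl⟩
  have hpn : p + 2 * n = 2 * n ^ 2 + 2 * r + 1 := by
    rw [hn, hp, ← hFd, hr]
    ring
  have hev : r % 2 = 0 := by
    obtain ⟨t, ht⟩ := Nat.even_mul_succ_self m
    omega
  rw [← hn] at hm hL hlt
  have h5 : 5 ≤ n := by omega
  have hrn : 2 * r ≤ n + 1 := by omega
  have hbig : 8 * n + 1 ≤ p := by nlinarith
  have nz : ∀ q : ℕ, 0 < q → q < p → (q : K) ≠ 0 := fun q h1 h2 h =>
    h1.ne' (cast_inj' h2 (by omega) (h.trans Nat.cast_zero.symm))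
  have hR : RR (n : K) = 2 * r := by
    have e := congrArg (Nat.cast : ℕ → K) hpn
    push_cast at e
    rw [CharP.cast_eq_zero K p] at e
    rw [RR]
    linear_combination e
  have z2 : (2 : K) ≠ 0 := by exact_mod_cast nz 2 (by omega) (by omega)
  have z3 : (3 : K) ≠ 0 := by exact_mod_cast nz 3 (by omega) (by omega)
  have z5 : (5 : K) ≠ 0 := by exact_mod_cast nz 5 (by omega) (by omega)
  have z7 : (7 : K) ≠ 0 := by exact_mod_cast nz 7 (by omega) (by omega)
  have z13 : (13 : K) ≠ 0 := by exact_mod_cast nz 13 (by omega) (by omega)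
  have z17 : (17 : K) ≠ 0 := by exact_mod_cast nz 17 (by omega) (by omega)
  have z29 : (29 : K) ≠ 0 := by exact_mod_cast nz 29 (by omega) (by omega)
  have zn : (n : K) ≠ 0 := nz n (by omega) (by omega)
  rcases Nat.eq_zero_or_pos r with rfl | r0
  · rw [eq_C_of_natDegree_eq_zero hr] at hL
    rw [Nat.cast_zero, mul_zero] at hR
    obtain ⟨k, k2, kn, e⟩ := zero_case hm (by omega) hL hR (fun h => one_ne_zero (bz8 hR h))
      (fun h => mul_ne_zero z5 z13 (bz9 hR h)) hs
    have e1 : (k : K) - 1 ≠ 0 := by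
      have := nz (k - 1) (by omega) (by omega)
      rwa [Nat.cast_sub (by omega), Nat.cast_one] at this
    have e2 : (k : K) + 1 ≠ 0 := by exact_mod_cast nz (k + 1) (by omega) (by omega)
    have e3 := (mul_eq_zero.1 e).resolve_left
      (mul_ne_zero (mul_ne_zero (mul_ne_zero zn (nz k (by omega) (by omega))) e1) e2)
    have h6 : 6 ≤ n := by
      by_contra h
      obtain rfl : n = 5 := by omega
      omega
    have e4 : (n + 1) * k + 12 = 6 * (n + 1) :=
      cast_inj' (K := K) (p := p) (by nlinarith) (by omega) (by push_cast; linear_combination e3)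
    have k5 : k < 6 := by
      by_contra h
      have : 6 ≤ k := by omega
      nlinarith
    have n11 : n = 11 := by interval_cases k <;> omega
    subst n11
    have : p = 221 := by omega
    exact absurd (Fact.out : p.Prime) (by rw [this]; norm_num)
  · obtain ⟨k, rfl⟩ : ∃ k, r = k + 2 := ⟨r - 2, by omega⟩
    refine pos_case (A := A) (k := k) (by omega) hr.le hL ?_ ?_ hr
      (fun q h1 h2 => nz q h1 (by omega)) z2 z3 ?_ (fun h1 h2 => ?_) (fun h1 h2 => ?_) fun hE => ?_
    · have := nz (2 * n - 1) (by omega) (by omega)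
      rw [Nat.cast_sub (by omega)] at this
      push_cast at this
      exact mul_ne_zero (mul_ne_zero (by exact_mod_cast nz 4 (by omega) (by omega)) zn) this
    · rw [hR]
      exact mul_ne_zero z2 (nz _ (by omega) (by omega))
    · refine mul_ne_zero (by exact_mod_cast nz (n + 1) (by omega) (by omega)) fun h => ?_
      refine k2_int h5 hrn hpn ((CharP.cast_eq_zero_iff K p _).1 ?_)
      rw [Nat.cast_sub (by omega)]
      rw [RR] at hR
      rw [K2] at h
      push_cast at hR ⊢
      linear_combination -h - (2 * n + 2) * hR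
    · exact mul_ne_zero (mul_ne_zero (mul_ne_zero (mul_ne_zero (mul_ne_zero (pow_ne_zero 3 z2)
        (pow_ne_zero 2 z3)) z5) z13) (pow_ne_zero 2 z17)) z29 (bz1 h1 h2)
    · exact mul_ne_zero (mul_ne_zero (mul_ne_zero (pow_ne_zero 8 z3) (pow_ne_zero 3 z5))
        (pow_ne_zero 3 z13)) (by exact_mod_cast prime_ne (K := K) (p := p) pr1 (by omega))
        (bz2 h1 h2)
    · refine ⟨fun h => pow_ne_zero 3 z3 (bz5 hE h), fun h => pow_ne_zero 4 z3 (bz3 hE h),
        fun h => ?_, fun h => mul_ne_zero (mul_ne_zero (pow_ne_zero 2 z3) z17) z29 (bz6 hE h),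
        fun h => mul_ne_zero z3 (by exact_mod_cast prime_ne (K := K) (p := p) pr2 (by omega))
          (bz7 hE h)⟩
      suffices hq : p ≠ 2440140497 from mul_ne_zero (mul_ne_zero (mul_ne_zero (pow_ne_zero 2 z3) z5)
        z7) (by exact_mod_cast prime_ne (K := K) (p := p) pr3 hq) (bz4 hE h)
      intro hq
      have n1 : n < 34931 := by
        by_contra h
        have : 34931 ≤ n := by omega
        nlinarith
      have n2 : 34929 < n := by
        by_contra h
        have : n ≤ 34929 := by omega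
        nlinarith
      obtain rfl : n = 34930 := by omega
      refine nz 1076644602 (by omega) (by omega) ?_
      have e := CharP.cast_eq_zero K p
      rw [hq] at e
      rw [E0] at hE
      push_cast at hE e ⊢
      linear_combination hE - 85234068648195 * e

theorem core (h4 : p % 4 = 1) (h41 : 41 < p) {A : Finset K} {d : ℕ} (hp : p = 2 * d + 1)
    (hA : ∀ a ∈ A, ∀ b ∈ A, a ≠ b → (a - b) ^ d = 1) : 2 * A.card ^ 2 + 3 ≤ p + A.card := by
  by_contra hlt
  obtain ⟨m, hm⟩ : ∃ m, A.card = m + 1 := by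
    refine Nat.exists_eq_succ_of_ne_zero fun h => hlt ?_
    rw [h]
    omega
  obtain ⟨a0, ha0⟩ : A.Nonempty := card_pos.1 (by omega)
  have hmd : m ≤ d := by
    by_contra h
    have h1 : ((X - C a0) ^ d - 1 : K[X]) = 0 := by
      refine van_zero (A := A.erase a0) (i := d) (fun b hb => ?_)
        (nd_sub (natDegree_pow_le.trans (by rw [natDegree_X_sub_C, mul_one])) (by simp))
        (by rw [card_erase_of_mem ha0]; omega)
      simp [hA b (mem_of_mem_erase hb) a0 ha0 (ne_of_mem_erase hb)]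
    have h2 := congrArg (eval a0) h1
    simp [zero_pow (show d ≠ 0 by omega)] at h2
  have hz : ((m + 1 : ℕ) : K) ≠ 0 := fun h =>
    Nat.succ_ne_zero m (cast_inj' (p := p) (by omega) (by omega) (h.trans Nat.cast_zero.symm))
  obtain ⟨s, hs⟩ : ∃ s : K, s = (∑ x ∈ A, x) / ((m + 1 : ℕ) : K) := ⟨_, rfl⟩
  have hi : Function.Injective fun x : K => x - s := sub_left_injective
  refine core0 h4 h41 (A := A.image fun x => x - s) hp
    (by rw [card_image_of_injective _ hi, hm]) hmd ?_ ?_ (by rw [hm] at hlt; omega)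
  · simp only [mem_image]
    rintro _ ⟨a, ha, rfl⟩ _ ⟨b, hb, rfl⟩ h
    rw [sub_sub_sub_cancel_right]
    exact hA a ha b hb fun e => h (by rw [e])
  · rw [sum_image hi.injOn, sum_sub_distrib, sum_const, hm, nsmul_eq_mul, hs,
      mul_div_cancel₀ _ hz, sub_self]

end Pool.Agent.Lib.MP_79fcf0_nt.HP
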