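import Pool.Agent.Lib.MP_79fcf0_nt.HPf
import Pool.Agent.Lib.MP_79fcf0_nt.Defs

/-! The improved upper bound for admissible sets. -/

namespace Pool.Agent.Lib.MP_79fcf0_nt.HP

open Finset

theorem upper (p n : ℕ) (hp : p.Prime) (h4 : p % 4 = 1) (h41 : 41 < p) (hn : 1 ≤ n)
    (S : Finset (ZMod (p ^ n))) (hS : Admissible S) :
    2 * S.card ^ 2 + 3 * S.card + 4 ≤ p := by
  classical
  have : Fact p.Prime := ⟨hp⟩
  obtain ⟨d, hd⟩ : ∃ d, p = 2 * d + 1 := ⟨p / 2, by omega⟩
  let ψ : ZMod (p ^ n) →+* ZMod p := ZMod.castHom (dvd_pow_self p (by omega)) (ZMod p)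
  let φ : ZMod (p ^ n) →+* AlgebraicClosure (ZMod p) := (algebraMap (ZMod p) _).comp ψ
  have h1 : ∀ r, IsQR r → φ r ^ d = 1 := by
    rintro _ ⟨hu, s, rfl⟩
    have h0 : ψ s ≠ 0 := ((isUnit_of_mul_isUnit_left hu).map ψ).ne_zero
    have h2 := ZMod.pow_card_sub_one_eq_one h0
    rw [show p - 1 = 2 * d by omega, pow_mul, sq, ← map_mul] at h2
    rw [RingHom.comp_apply, ← map_pow, h2, map_one]
  have h2 : ∀ a ∈ insert 0 S, ∀ b ∈ insert 0 S, a ≠ b → (φ a - φ b) ^ d = 1 := by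
    intro a ha b hb hab
    rcases mem_insert.1 ha with rfl | ha' <;> rcases mem_insert.1 hb with rfl | hb'
    · exact absurd rfl hab
    · rw [map_zero, zero_sub, Even.neg_pow (Nat.even_iff.2 (by omega)), h1 b (hS.1 b hb')]
    · rw [map_zero, sub_zero, h1 a (hS.1 a ha')]
    · rw [← map_sub, h1 _ (hS.2 a ha' b hb' hab)]
  have h3 : Set.InjOn φ (insert 0 S : Finset _) := fun a ha b hb e => by
    by_contra hab
    have := h2 a ha b hb hab
    rw [e, sub_self, zero_pow (by omega)] at this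
    exact zero_ne_one this
  have h0 : (0 : ZMod (p ^ n)) ∉ S := fun h => by
    have := h1 0 (hS.1 0 h)
    rw [map_zero, zero_pow (by omega)] at this
    exact zero_ne_one this
  have h5 := core (p := p) h4 h41 (A := (insert 0 S).image φ) hd (by
    simp only [mem_image]
    rintro _ ⟨a, ha, rfl⟩ _ ⟨b, hb, rfl⟩ h
    exact h2 a ha b hb fun e => h (by rw [e]))
  rw [card_image_of_injOn h3, card_insert_of_notMem h0] at h5
  nlinarith

end Pool.Agent.Lib.MP_79fcf0_nt.HP
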